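import Pool.Agent.Helper45.Stek.Goals

open MeasureTheory Set Complex Metric
open scoped ContDiff Topology ENNReal

namespace Pool.Agent.Helper45.Stek

theorem phi_deriv (k : ℕ) (b : ℝ) (z : ℂ) :
    HasDerivAt (phi k b) ((1 + b * z ^ k) ^ 2) z := by
  have h1 : HasDerivAt (fun z : ℂ => z ^ (k + 1)) ((k + 1 : ℕ) * z ^ k) z :=
    hasDerivAt_pow (k + 1) z
  have h2 : HasDerivAt (fun z : ℂ => z ^ (2 * k + 1)) ((2 * k + 1 : ℕ) * z ^ (2 * k)) z :=
    hasDerivAt_pow (2 * k + 1) z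
  have h3 := ((hasDerivAt_id z).add (h1.const_mul (2 * (b : ℂ) / (k + 1)))).add
    (h2.const_mul ((b : ℂ) ^ 2 / (2 * k + 1)))
  have h4 : phi k b = (fun z : ℂ => id z + 2 * (b : ℂ) / (k + 1) * z ^ (k + 1)) +
      fun z : ℂ => (b : ℂ) ^ 2 / (2 * k + 1) * z ^ (2 * k + 1) := by
    ext z
    simp only [phi, Pi.add_apply, id]
  have hk : ((k : ℂ) + 1) ≠ 0 := by
    have : ((k + 1 : ℕ) : ℂ) ≠ 0 := by exact_mod_cast Nat.succ_ne_zero k
    push_cast at this
    exact this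
  have hk2 : (2 * (k : ℂ) + 1) ≠ 0 := by
    have : ((2 * k + 1 : ℕ) : ℂ) ≠ 0 := by exact_mod_cast Nat.succ_ne_zero (2 * k)
    push_cast at this
    exact this
  have h5 : (1 + (b : ℂ) * z ^ k) ^ 2 = 1 + 2 * (b : ℂ) / (k + 1) * ((k + 1 : ℕ) * z ^ k) +
      (b : ℂ) ^ 2 / (2 * k + 1) * ((2 * k + 1 : ℕ) * z ^ (2 * k)) := by
    push_cast
    field_simp
    ring
  rw [h4, h5]
  exact h3

theorem bk_le (k : ℕ) (hk : 2 ≤ k) : 0 < bk k ∧ bk k ≤ 1 / 8 := by
  unfold bk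
  have : (1 : ℝ) ≤ ((k + 1) / 2 : ℕ) := by
    have : 1 ≤ (k + 1) / 2 := by omega
    exact_mod_cast this
  constructor
  · positivity
  · rw [div_le_div_iff₀ (by positivity) (by norm_num)]
    linarith

theorem pow_bound (k : ℕ) (hk : 2 ≤ k) (x : ℝ) (hx0 : 0 ≤ x) (hx : x ≤ 1 + 1 / (5 * k)) :
    x ^ k ≤ 5 / 4 := by
  have hk0 : (0 : ℝ) < k := by
    have : 0 < k := by omega
    exact_mod_cast this
  have h1 : x ≤ Real.exp (1 / (5 * k)) := by
    have := Real.add_one_le_exp (1 / (5 * (k : ℝ)))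
    linarith
  have h2 : x ^ k ≤ Real.exp (1 / (5 * k)) ^ k := pow_le_pow_left₀ hx0 h1 k
  have h3 : Real.exp (1 / (5 * k)) ^ k = Real.exp (1 / 5) := by
    rw [← Real.exp_nat_mul]
    congr 1
    field_simp
  rw [h3] at h2
  have h4 : Real.exp (1 / 5 : ℝ) ≤ 5 / 4 := by
    have h5 : (Real.exp (1 / 5 : ℝ)) ^ 5 = Real.exp 1 := by
      rw [← Real.exp_nat_mul]
      norm_num
    have h6 := Real.exp_one_lt_d9
    have h7 : (Real.exp (1 / 5 : ℝ)) ^ 5 ≤ (5 / 4 : ℝ) ^ 5 := by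
      rw [h5]
      norm_num
      linarith
    exact le_of_pow_le_pow_left₀ (by norm_num) (by norm_num) h7
  linarith

theorem phi_near (k : ℕ) (hk : 2 ≤ k) : Near (phi k (bk k)) (1 / (5 * k)) := by
  have hk0 : (0 : ℝ) < k := by
    have : 0 < k := by omega
    exact_mod_cast this
  obtain ⟨hb0, hb⟩ := bk_le k hk
  refine ⟨by positivity, fun z => (phi_deriv k (bk k) z).differentiableAt, ?_⟩
  intro z hz w hw
  have hconv : Convex ℝ (closedBall (0 : ℂ) (1 + 1 / (5 * k))) := convex_closedBall _ _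
  have h := hconv.norm_image_sub_le_of_norm_hasDerivWithin_le
    (f := fun z => phi k (bk k) z - z) (f' := fun z => (1 + bk k * z ^ k) ^ 2 - 1) (C := 7 / 20)
    (fun x _ => ((phi_deriv k (bk k) x).sub (hasDerivAt_id x)).hasDerivWithinAt) ?_ hw hz
  · have h2 : phi k (bk k) z - z - (phi k (bk k) w - w) =
        phi k (bk k) z - phi k (bk k) w - (z - w) := by ring
    rw [← h2]
    exact h
  · intro x hx
    have hx1 : ‖x‖ ≤ 1 + 1 / (5 * k) := by
      simpa using hx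
    have hx2 := pow_bound k hk ‖x‖ (norm_nonneg _) hx1
    have h3 : (1 + (bk k : ℂ) * x ^ k) ^ 2 - 1 = bk k * x ^ k * (2 + bk k * x ^ k) := by ring
    have h4 : ‖(bk k : ℂ) * x ^ k‖ ≤ 1 / 8 * (5 / 4) := by
      rw [norm_mul, norm_pow, Complex.norm_real, Real.norm_of_nonneg hb0.le]
      exact mul_le_mul hb hx2 (by positivity) (by norm_num)
    rw [h3, norm_mul]
    have h5 : ‖2 + (bk k : ℂ) * x ^ k‖ ≤ 2 + 1 / 8 * (5 / 4) := by
      refine (norm_add_le _ _).trans ?_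
      have : ‖(2 : ℂ)‖ = 2 := by norm_num
      rw [this]
      linarith
    calc ‖(bk k : ℂ) * x ^ k‖ * ‖2 + (bk k : ℂ) * x ^ k‖
        ≤ (1 / 8 * (5 / 4)) * (2 + 1 / 8 * (5 / 4)) :=
          mul_le_mul h4 h5 (norm_nonneg _) (by norm_num)
      _ ≤ 7 / 20 := by norm_num

theorem phi_rot (k : ℕ) (b : ℝ) (w z : ℂ) (hw : w ^ k = 1) : phi k b (w * z) = w * phi k b z := by
  unfold phi
  have h1 : (w * z) ^ (k + 1) = w * z ^ (k + 1) := by
    rw [mul_pow, pow_succ, hw, one_mul]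
  have h2 : (w * z) ^ (2 * k + 1) = w * z ^ (2 * k + 1) := by
    rw [mul_pow, pow_succ, mul_comm 2 k, pow_mul, hw, one_pow, one_mul]
  rw [h1, h2]
  ring

theorem rot_ball (w : ℂ) (hw : ‖w‖ = 1) : (fun z => w * z) '' ball (0 : ℂ) 1 = ball 0 1 := by
  have hw0 : w ≠ 0 := by
    intro h
    rw [h, norm_zero] at hw
    exact zero_ne_one hw
  ext z
  simp only [mem_image, mem_ball_zero_iff]
  constructor
  · rintro ⟨y, hy, rfl⟩
    rw [norm_mul, hw, one_mul]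
    exact hy
  · intro hz
    refine ⟨w⁻¹ * z, ?_, by field_simp⟩
    rw [norm_mul, norm_inv, hw, inv_one, one_mul]
    exact hz

theorem pn : S_PN := by
  intro k hk
  refine ⟨phi_deriv k (bk k), phi_near k hk, 0, ?_⟩
  set w := exp (2 * Real.pi * I / k) with hw
  have hk0 : (k : ℂ) ≠ 0 := by
    have : k ≠ 0 := by omega
    exact_mod_cast this
  have hwk : w ^ k = 1 := by
    rw [hw, ← Complex.exp_nat_mul]
    have : (k : ℂ) * (2 * Real.pi * I / k) = 2 * Real.pi * I := by field_simp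
    rw [this, Complex.exp_two_pi_mul_I]
  have hw1 : ‖w‖ = 1 := by
    rw [hw]
    have : 2 * Real.pi * I / k = ((2 * Real.pi / k : ℝ) : ℂ) * I := by
      push_cast
      ring
    rw [this, Complex.norm_exp_ofReal_mul_I]
  have h1 : rot 0 w = fun z => w * z := by
    ext z
    simp [rot]
  rw [h1]
  ext z
  constructor
  · rintro ⟨y, ⟨x, hx, rfl⟩, rfl⟩
    refine ⟨w * x, ?_, ?_⟩
    · rw [← rot_ball w hw1]
      exact ⟨x, hx, rfl⟩
    · exact phi_rot k _ w x hwk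
  · rintro ⟨x, hx, rfl⟩
    rw [← rot_ball w hw1] at hx
    obtain ⟨y, hy, rfl⟩ := hx
    exact ⟨phi k (bk k) y, ⟨y, hy, rfl⟩, (phi_rot k _ w y hwk).symm⟩

end Pool.Agent.Helper45.Stek
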