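import Pool.Agent.Helper45.Stek.Goals

open MeasureTheory Set Complex Metric
open scoped ContDiff Topology ENNReal

namespace Pool.Agent.Helper45.Stek

theorem polar_symm_eq (p : ℝ × ℝ) : Complex.polarCoord.symm p = p.1 * exp (p.2 * I) := by
  rw [Complex.polarCoord_symm_apply, Complex.exp_mul_I]
  push_cast
  ring

/-- Integration over a ball in polar coordinates. -/
theorem polar_ball (G : ℂ → ℝ) (hG : Continuous G) (R : ℝ) (hR : 0 ≤ R) :
    ∫ z in ball (0 : ℂ) R, G z =
      ∫ r in (0 : ℝ)..R, (∫ θ in (-Real.pi)..Real.pi, G (r * exp (θ * I))) * r := by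
  rw [← integral_indicator measurableSet_ball, ← Complex.integral_comp_polarCoord_symm]
  have h1 : ∀ p ∈ polarCoord.target, p.1 • (ball (0 : ℂ) R).indicator G (Complex.polarCoord.symm p) =
      (Iio R ×ˢ (univ : Set ℝ)).indicator (fun p : ℝ × ℝ => G (p.1 * exp (p.2 * I)) * p.1) p := by
    intro p hp
    rw [polarCoord_target] at hp
    have hp1 : 0 < p.1 := hp.1
    rw [polar_symm_eq]
    have hn : ‖(p.1 : ℂ) * exp (p.2 * I)‖ = p.1 := by
      rw [norm_mul, Complex.norm_exp_ofReal_mul_I, mul_one, Complex.norm_real,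
        Real.norm_of_nonneg hp1.le]
    by_cases h : p.1 < R
    · rw [indicator_of_mem (by rw [mem_ball_zero_iff, hn]; exact h),
        indicator_of_mem (show p ∈ Iio R ×ˢ (univ : Set ℝ) from ⟨h, mem_univ _⟩), smul_eq_mul,
        mul_comm]
    · rw [indicator_of_notMem (by rw [mem_ball_zero_iff, hn]; exact h),
        indicator_of_notMem (fun h2 : p ∈ Iio R ×ˢ (univ : Set ℝ) => h h2.1), smul_zero]
  rw [setIntegral_congr_fun polarCoord.open_target.measurableSet h1,
    setIntegral_indicator (measurableSet_Iio.prod MeasurableSet.univ)]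
  have h2 : polarCoord.target ∩ Iio R ×ˢ (univ : Set ℝ) = Ioo 0 R ×ˢ Ioo (-Real.pi) Real.pi := by
    rw [polarCoord_target, prod_inter_prod, inter_univ, Ioi_inter_Iio]
  rw [h2, Measure.volume_eq_prod, setIntegral_prod]
  · rw [intervalIntegral.integral_of_le hR, integral_Ioc_eq_integral_Ioo]
    apply integral_congr_ae
    apply Filter.Eventually.of_forall
    intro r
    simp only
    rw [intervalIntegral.integral_of_le (by linarith [Real.pi_pos]), integral_Ioc_eq_integral_Ioo,
      integral_mul_const]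
  · have hc : IsCompact (Icc 0 R ×ˢ Icc (-Real.pi) Real.pi) := isCompact_Icc.prod isCompact_Icc
    have h3 : ContinuousOn (fun p : ℝ × ℝ => G (p.1 * exp (p.2 * I)) * p.1)
        (Icc 0 R ×ˢ Icc (-Real.pi) Real.pi) := by
      apply Continuous.continuousOn
      fun_prop
    exact (h3.integrableOn_compact hc).mono_set
      (prod_mono Ioo_subset_Icc_self Ioo_subset_Icc_self)

/-- The invariance of the energy density under rotations (and its scaling). -/
theorem density_rot (D : ℂ →L[ℝ] ℂ) (a : ℂ) :
    ‖D a‖ ^ 2 + ‖D (I * a)‖ ^ 2 = ‖a‖ ^ 2 * (‖D 1‖ ^ 2 + ‖D I‖ ^ 2) := by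
  have h1 : D a = a.re * D 1 + a.im * D I := by
    have h : a = a.re • (1 : ℂ) + a.im • I := by
      apply Complex.ext <;> simp
    conv_lhs => rw [h, map_add, map_smul, map_smul]
    simp
  have h2 : D (I * a) = -a.im * D 1 + a.re * D I := by
    have h : I * a = (-a.im) • (1 : ℂ) + a.re • I := by
      apply Complex.ext <;> simp
    conv_lhs => rw [h, map_add, map_smul, map_smul]
    simp
  rw [h1, h2]
  simp only [Complex.sq_norm, Complex.normSq_apply, Complex.add_re, Complex.add_im,
    Complex.mul_re, Complex.mul_im, Complex.ofReal_re, Complex.ofReal_im, Complex.neg_re,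
    Complex.neg_im]
  ring

theorem pe : S_PE := by
  intro w hw
  unfold energy
  have hc : Continuous (fun z => ‖fderiv ℝ w z 1‖ ^ 2 + ‖fderiv ℝ w z I‖ ^ 2) := by
    have h := hw.continuous_fderiv (by simp)
    fun_prop
  rw [polar_ball _ hc 1 zero_le_one]
  congr 1
  ext r
  congr 1
  congr 1
  ext θ
  have h := density_rot (fderiv ℝ w (r * exp (θ * I))) (exp (θ * I))
  rw [Complex.norm_exp_ofReal_mul_I, one_pow, one_mul] at h
  exact h.symm

end Pool.Agent.Helper45.Stek
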