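import Pool.Agent.Helper45.Stek.OR
import Pool.Agent.Helper45.Stek.PE

open MeasureTheory Set Complex Metric
open scoped ContDiff Topology ENNReal

namespace Pool.Agent.Helper45.Stek

theorem radial_int (n : ℕ) (R : ℝ) (hR : 0 ≤ R) :
    ∫ z in ball (0 : ℂ) R, ‖z‖ ^ n = 2 * Real.pi * (R ^ (n + 2) / (n + 2)) := by
  rw [polar_ball (fun z => ‖z‖ ^ n) (by fun_prop) R hR]
  have h1 : ∀ r ∈ Icc (0 : ℝ) R, (∫ θ in (-Real.pi)..Real.pi, ‖(r : ℂ) * exp (θ * I)‖ ^ n) * r =
      2 * Real.pi * r ^ (n + 1) := by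
    intro r hr
    have h2 : ∀ θ : ℝ, ‖(r : ℂ) * exp (θ * I)‖ = r := by
      intro θ
      rw [norm_mul, Complex.norm_exp_ofReal_mul_I, mul_one, Complex.norm_real,
        Real.norm_of_nonneg hr.1]
    simp only [h2]
    rw [intervalIntegral.integral_const, smul_eq_mul]
    ring
  rw [intervalIntegral.integral_congr (g := fun r => 2 * Real.pi * r ^ (n + 1))
    (by intro r hr; rw [uIcc_of_le hR] at hr; exact h1 r hr)]
  rw [intervalIntegral.integral_const_mul, integral_pow]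
  congr 1
  push_cast
  rw [zero_pow (by omega)]
  ring_nf

theorem re : S_RE := by
  intro Ω hm hb j hj
  set A := area Ω with hA
  set R := √(A / Real.pi) with hR
  have hA0 : 0 ≤ A := ENNReal.toReal_nonneg
  have hR0 : 0 ≤ R := Real.sqrt_nonneg _
  have hRA : Real.pi * R ^ 2 = A := by
    rw [hR, Real.sq_sqrt (div_nonneg hA0 Real.pi_pos.le)]
    field_simp
  set h : ℂ → ℝ := fun z => (2 * j + 1) * ‖z‖ ^ (2 * j - 1) - 2 * j * R * ‖z‖ ^ (2 * j - 2) -
    R ^ (2 * j - 1) with hh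
  have hcont : Continuous h := by
    rw [hh]
    fun_prop
  have hbB : Bornology.IsBounded (ball (0 : ℂ) R) := isBounded_ball
  have hint : ∀ S : Set ℂ, MeasurableSet S → Bornology.IsBounded S → ∀ g : ℂ → ℝ, Continuous g →
      IntegrableOn g S volume := fun S hS hbS g hg => integrableOn_cont hS hbS hbS.measure_lt_top hg
  -- pointwise comparison
  have hj2 : 2 * j - 1 = (2 * j - 2) + 1 := by omega
  have hle : ∀ z : ℂ, ‖z‖ ≤ R → h z ≤ 0 := by
    intro z hz
    simp only [hh]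
    rw [hj2, pow_succ, pow_succ]
    have h1 : ‖z‖ ^ (2 * j - 2) ≤ R ^ (2 * j - 2) := pow_le_pow_left₀ (norm_nonneg _) hz _
    have h2 : (0 : ℝ) ≤ ‖z‖ ^ (2 * j - 2) := by positivity
    have h3 : (2 * (j : ℝ) + 1) * (‖z‖ ^ (2 * j - 2) * ‖z‖) - 2 * j * R * ‖z‖ ^ (2 * j - 2) -
        R ^ (2 * j - 2) * R = -(‖z‖ ^ (2 * j - 2) * ((2 * j + 1) * (R - ‖z‖))) -
          (R ^ (2 * j - 2) - ‖z‖ ^ (2 * j - 2)) * R := by ring
    rw [h3]
    have h4 : 0 ≤ ‖z‖ ^ (2 * j - 2) * ((2 * (j : ℝ) + 1) * (R - ‖z‖)) := by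
      apply mul_nonneg h2
      apply mul_nonneg (by positivity)
      linarith
    have h5 : 0 ≤ (R ^ (2 * j - 2) - ‖z‖ ^ (2 * j - 2)) * R := mul_nonneg (by linarith) hR0
    linarith
  have hge : ∀ z : ℂ, R ≤ ‖z‖ → 0 ≤ h z := by
    intro z hz
    simp only [hh]
    rw [hj2, pow_succ, pow_succ]
    have h1 : R ^ (2 * j - 2) ≤ ‖z‖ ^ (2 * j - 2) := pow_le_pow_left₀ hR0 hz _
    have h2 : (0 : ℝ) ≤ ‖z‖ ^ (2 * j - 2) := by positivity
    have h3 : (2 * (j : ℝ) + 1) * (‖z‖ ^ (2 * j - 2) * ‖z‖) - 2 * j * R * ‖z‖ ^ (2 * j - 2) -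
        R ^ (2 * j - 2) * R = ‖z‖ ^ (2 * j - 2) * ((2 * j + 1) * (‖z‖ - R)) +
          (‖z‖ ^ (2 * j - 2) - R ^ (2 * j - 2)) * R := by ring
    rw [h3]
    have h4 : 0 ≤ ‖z‖ ^ (2 * j - 2) * ((2 * (j : ℝ) + 1) * (‖z‖ - R)) := by
      apply mul_nonneg h2
      apply mul_nonneg (by positivity)
      linarith
    have h5 : 0 ≤ (‖z‖ ^ (2 * j - 2) - R ^ (2 * j - 2)) * R := mul_nonneg (by linarith) hR0
    linarith
  have hcomp : ∫ z in ball (0 : ℂ) R, h z ≤ ∫ z in Ω, h z := by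
    rw [← integral_indicator measurableSet_ball, ← integral_indicator hm]
    apply integral_mono
    · rw [integrable_indicator_iff measurableSet_ball]
      exact hint _ measurableSet_ball hbB h hcont
    · rw [integrable_indicator_iff hm]
      exact hint _ hm hb h hcont
    · intro z
      simp only
      by_cases h1 : z ∈ ball (0 : ℂ) R
      · rw [indicator_of_mem h1]
        by_cases h2 : z ∈ Ω
        · rw [indicator_of_mem h2]
        · rw [indicator_of_notMem h2]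
          exact hle z (mem_ball_zero_iff.mp h1).le
      · rw [indicator_of_notMem h1]
        by_cases h2 : z ∈ Ω
        · rw [indicator_of_mem h2]
          apply hge
          rw [mem_ball_zero_iff] at h1
          linarith
        · rw [indicator_of_notMem h2]
  -- the integrals
  have hexp : ∀ S : Set ℂ, MeasurableSet S → Bornology.IsBounded S →
      ∫ z in S, h z = (2 * j + 1) * (∫ z in S, ‖z‖ ^ (2 * j - 1)) -
        2 * j * R * (∫ z in S, ‖z‖ ^ (2 * j - 2)) - R ^ (2 * j - 1) * (volume S).toReal := by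
    intro S hS hbS
    have i1 := hint S hS hbS (fun z => (2 * (j : ℝ) + 1) * ‖z‖ ^ (2 * j - 1)) (by fun_prop)
    have i2 := hint S hS hbS (fun z => 2 * (j : ℝ) * R * ‖z‖ ^ (2 * j - 2)) (by fun_prop)
    have i3 := hint S hS hbS (fun _ => R ^ (2 * j - 1)) (by fun_prop)
    have i4 := hint S hS hbS (fun z => (2 * (j : ℝ) + 1) * ‖z‖ ^ (2 * j - 1) -
      2 * (j : ℝ) * R * ‖z‖ ^ (2 * j - 2)) (by fun_prop)
    simp only [hh]
    rw [integral_sub i4 i3, integral_sub i1 i2, integral_const_mul, integral_const_mul,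
      setIntegral_const, smul_eq_mul]
    simp only [Measure.real]
    ring
  have hball : (volume (ball (0 : ℂ) R)).toReal = Real.pi * R ^ 2 := by
    rw [Complex.volume_ball]
    simp only [ENNReal.toReal_mul, ENNReal.toReal_pow, ENNReal.toReal_ofReal hR0,
      ENNReal.coe_toReal, NNReal.coe_real_pi]
    ring
  rw [hexp _ measurableSet_ball hbB, hexp _ hm hb, radial_int _ R hR0, radial_int _ R hR0, hball,
    hRA] at hcomp
  have hAdef : (volume Ω).toReal = A := rfl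
  rw [hAdef] at hcomp
  have hz : (2 * (j : ℝ) + 1) * (2 * Real.pi * (R ^ (2 * j - 1 + 2) / (((2 * j - 1 : ℕ) : ℝ) + 2))) -
      2 * j * R * (2 * Real.pi * (R ^ (2 * j - 2 + 2) / (((2 * j - 2 : ℕ) : ℝ) + 2))) = 0 := by
    have e1 : 2 * j - 1 + 2 = 2 * j + 1 := by omega
    have e2 : 2 * j - 2 + 2 = 2 * j := by omega
    have e3 : ((2 * j - 1 : ℕ) : ℝ) + 2 = 2 * j + 1 := by
      have : ((2 * j - 1 + 2 : ℕ) : ℝ) = ((2 * j + 1 : ℕ) : ℝ) := by rw [e1]
      push_cast at this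
      exact this
    have e4 : ((2 * j - 2 : ℕ) : ℝ) + 2 = 2 * j := by
      have : ((2 * j - 2 + 2 : ℕ) : ℝ) = ((2 * j : ℕ) : ℝ) := by rw [e2]
      push_cast at this
      exact this
    rw [e1, e2, e3, e4]
    have hj0 : (0 : ℝ) < j := by exact_mod_cast hj
    field_simp
    ring
  rw [hz] at hcomp
  linarith

end Pool.Agent.Helper45.Stek
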