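import Pool.Agent.Helper45.Stek.NT
import Pool.Agent.Helper45.Stek.PN
import Pool.Agent.Helper45.Stek.RE

open MeasureTheory Set Complex Metric
open scoped ContDiff Topology ENNReal

namespace Pool.Agent.Helper45.Stek

theorem int_pow_zero (k : ℕ) (hk : 2 ≤ k) : ∫ z in ball (0 : ℂ) 1, z ^ k = 0 := by
  set w := exp (((Real.pi / k : ℝ) : ℂ) * I) with hw
  have hw1 : ‖w‖ = 1 := Complex.norm_exp_ofReal_mul_I _
  have hk0 : (k : ℂ) ≠ 0 := by
    have : k ≠ 0 := by omega
    exact_mod_cast this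
  have hwk : w ^ k = -1 := by
    rw [hw, ← Complex.exp_nat_mul]
    have : (k : ℂ) * (((Real.pi / k : ℝ) : ℂ) * I) = Real.pi * I := by
      push_cast
      field_simp
    rw [this, Complex.exp_pi_mul_I]
  have hemb : MeasurableEmbedding (fun z : ℂ => w * z) :=
    (rotE w hw1).toHomeomorph.measurableEmbedding
  have hmp : MeasurePreserving (fun z : ℂ => w * z) volume volume :=
    (rotE w hw1).measurePreserving
  apply integral_zero hmp hemb (rot_ball w hw1) (κ := -1) (by norm_num)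
  intro z
  rw [mul_pow, hwk]

theorem ar : S_AR := by
  intro k hk
  obtain ⟨hder, hnear, -⟩ := pn k hk
  obtain ⟨hb0, -⟩ := bk_le k hk
  set b := bk k with hb
  have hinj : InjOn (phi k b) (ball 0 1) := (near_inj hnear).mono (ball_sub hnear.1)
  have hop : IsOpen (phi k b '' ball 0 1) := near_open hnear _ isOpen_ball
  have h1 := integral_image_eq_integral_abs_det_fderiv_smul volume measurableSet_ball
    (fun x _ => (hasFDerivAt_mulR hnear.2.1 x).hasFDerivWithinAt) hinj (fun _ => (1 : ℝ))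
  rw [setIntegral_const, smul_eq_mul, mul_one] at h1
  have h2 : area (phi k b '' ball 0 1) = ∫ z in ball (0 : ℂ) 1, ‖1 + (b : ℂ) * z ^ k‖ ^ 4 := by
    rw [area]
    change (volume (phi k b '' ball 0 1)).toReal = _ at h1
    rw [h1]
    congr 1
    ext z
    rw [det_mulR, (hder z).deriv, norm_pow, smul_eq_mul, mul_one, abs_of_nonneg (by positivity)]
    ring
  rw [h2]
  have hbd : Bornology.IsBounded (ball (0 : ℂ) 1) := isBounded_ball
  have hint : ∀ g : ℂ → ℝ, Continuous g → IntegrableOn g (ball (0 : ℂ) 1) volume :=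
    fun g hg => integrableOn_cont measurableSet_ball hbd hbd.measure_lt_top hg
  have hre : ∫ z in ball (0 : ℂ) 1, (z ^ k).re = 0 := by
    have h3 : IntegrableOn (fun z : ℂ => z ^ k) (ball (0 : ℂ) 1) volume :=
      integrableOn_cont measurableSet_ball hbd hbd.measure_lt_top (by fun_prop)
    have h4 := reCLM.integral_comp_comm h3
    have h5 : ∫ z in ball (0 : ℂ) 1, (z ^ k).re = (∫ z in ball (0 : ℂ) 1, z ^ k).re := h4
    rw [h5, int_pow_zero k hk, Complex.zero_re]
  have hrad := radial_int (2 * k) 1 zero_le_one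
  have hvol : ∫ _z in ball (0 : ℂ) 1, (1 : ℝ) = Real.pi := by
    have := radial_int 0 1 zero_le_one
    simp only [pow_zero] at this
    rw [this]
    norm_num
    ring
  have hlow : ∫ z in ball (0 : ℂ) 1, (1 + 4 * b * (z ^ k).re + 2 * b ^ 2 * ‖z‖ ^ (2 * k)) ≤
      ∫ z in ball (0 : ℂ) 1, ‖1 + (b : ℂ) * z ^ k‖ ^ 4 := by
    apply setIntegral_mono_on (hint _ (by fun_prop)) (hint _ (by fun_prop)) measurableSet_ball
    intro z _
    have e1 : ‖1 + (b : ℂ) * z ^ k‖ ^ 2 = 1 + 2 * b * (z ^ k).re + b ^ 2 * ‖z‖ ^ (2 * k) := by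
      have e2 : ‖z‖ ^ (2 * k) = normSq (z ^ k) := by
        rw [Complex.normSq_eq_norm_sq, norm_pow, ← pow_mul, mul_comm]
      rw [e2, Complex.sq_norm, Complex.normSq_apply, Complex.normSq_apply, Complex.add_re,
        Complex.add_im, Complex.re_ofReal_mul, Complex.im_ofReal_mul, Complex.one_re,
        Complex.one_im]
      ring
    have e3 : ‖1 + (b : ℂ) * z ^ k‖ ^ 4 = (‖1 + (b : ℂ) * z ^ k‖ ^ 2) ^ 2 := by ring
    rw [e3, e1]
    nlinarith [sq_nonneg (2 * b * (z ^ k).re + b ^ 2 * ‖z‖ ^ (2 * k))]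
  refine lt_of_lt_of_le ?_ hlow
  have i1 := hint (fun _ => 1) (by fun_prop)
  have i2 := hint (fun z => 4 * b * (z ^ k).re) (by fun_prop)
  have i3 := hint (fun z => 2 * b ^ 2 * ‖z‖ ^ (2 * k)) (by fun_prop)
  have i4 := hint (fun z => 1 + 4 * b * (z ^ k).re) (by fun_prop)
  rw [integral_add i4 i3, integral_add i1 i2, integral_const_mul, integral_const_mul, hvol, hre,
    hrad]
  have : 0 < 2 * b ^ 2 * (2 * Real.pi * (1 ^ (2 * k + 2) / (((2 * k : ℕ) : ℝ) + 2))) := by
    positivity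
  linarith

end Pool.Agent.Helper45.Stek
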