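import Pool.Agent.Helper45.Stek.PE

open MeasureTheory Set Complex Metric
open scoped ContDiff Topology ENNReal

namespace Pool.Agent.Helper45.Stek

/-- Multiplication by `a` as a real linear map. -/
noncomputable def mulR (a : ℂ) : ℂ →L[ℝ] ℂ :=
  (ContinuousLinearMap.toSpanSingleton ℂ a).restrictScalars ℝ

theorem mulR_apply (a v : ℂ) : mulR a v = v * a := by
  simp [mulR]

theorem det_mulR (a : ℂ) : (mulR a).det = ‖a‖ ^ 2 := by
  have h1 : ((mulR a : ℂ →L[ℝ] ℂ) : ℂ →ₗ[ℝ] ℂ) = Algebra.lmul ℝ ℂ a := by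
    apply LinearMap.ext
    intro v
    change mulR a v = a * v
    rw [mulR_apply, mul_comm]
  rw [ContinuousLinearMap.det, h1, ← Algebra.norm_apply, Algebra.norm_complex_apply,
    Complex.normSq_eq_norm_sq]

theorem near_inj {f : ℂ → ℂ} {δ : ℝ} (h : Near f δ) : InjOn f (closedBall 0 (1 + δ)) := by
  intro z hz w hw hzw
  have h1 := h.2.2 z hz w hw
  rw [hzw, sub_self, zero_sub, norm_neg] at h1
  have h2 : ‖z - w‖ ≤ 0 := by
    have := norm_nonneg (z - w)
    linarith
  exact sub_eq_zero.mp (norm_le_zero_iff.mp h2)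

theorem ball_sub {δ : ℝ} (h : 0 < δ) : ball (0 : ℂ) 1 ⊆ closedBall 0 (1 + δ) := by
  intro z hz
  rw [mem_ball_zero_iff] at hz
  rw [mem_closedBall_zero_iff]
  linarith

theorem hasFDerivAt_mulR {f : ℂ → ℂ} (hf : Differentiable ℂ f) (z : ℂ) :
    HasFDerivAt f (mulR (deriv f z)) z :=
  (hf z).hasDerivAt.hasFDerivAt.restrictScalars ℝ

theorem et : S_ET := by
  intro f δ hf u hu
  unfold energy
  have hinj : InjOn f (ball 0 1) := (near_inj hf).mono (ball_sub hf.1)
  rw [integral_image_eq_integral_abs_det_fderiv_smul volume measurableSet_ball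
    (fun x _ => (hasFDerivAt_mulR hf.2.1 x).hasFDerivWithinAt) hinj]
  congr 1
  ext z
  rw [det_mulR, abs_of_nonneg (by positivity), smul_eq_mul]
  have hD : HasFDerivAt (fun z => u (f z)) ((fderiv ℝ u (f z)).comp (mulR (deriv f z))) z :=
    ((hu.differentiable (by simp) (f z)).hasFDerivAt).comp z (hasFDerivAt_mulR hf.2.1 z)
  rw [hD.fderiv]
  simp only [ContinuousLinearMap.comp_apply, mulR_apply, one_mul]
  exact (density_rot _ _).symm

end Pool.Agent.Helper45.Stek
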