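import Pool.Agent.Helper45.Stek.Goals

open MeasureTheory Set Complex Metric
open scoped ContDiff Topology ENNReal

namespace Pool.Agent.Helper45.Stek

theorem fm_local {Ω : Set ℂ} (ho : IsOpen Ω) {p a : ℂ} {r : ℝ} {L : NNReal} {g : ℝ → ℝ}
    (ha : ‖a‖ = 1) (hr : 0 < r) (hg : LipschitzWith L g)
    (h : ∀ s t : ℝ, |s| < r → |t| < r → (p + a * (s + t * I) ∈ Ω ↔ g s < t)) :
    (Measure.hausdorffMeasure 1 : Measure ℂ).FiniteAtFilter (𝓝[frontier Ω] p) := by
  have haa : a * starRingEnd ℂ a = 1 := by
    rw [Complex.mul_conj, Complex.normSq_eq_norm_sq, ha]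
    simp
  set c : ℂ → ℂ := fun z => starRingEnd ℂ a * (z - p) with hc
  have hcc : Continuous c := by
    rw [hc]
    fun_prop
  have hz : ∀ z, p + a * ((c z).re + (c z).im * I) = z := by
    intro z
    rw [Complex.re_add_im, hc]
    simp only
    rw [← mul_assoc, haa]
    ring
  set U : Set ℂ := {z | |(c z).re| < r ∧ |(c z).im| < r} with hU
  have hUo : IsOpen U := by
    have h1 : Continuous (fun z => |(c z).re|) := by fun_prop
    have h2 : Continuous (fun z => |(c z).im|) := by fun_prop
    exact (isOpen_lt h1 continuous_const).inter (isOpen_lt h2 continuous_const)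
  have hpU : p ∈ U := by
    simp [hU, hc, hr]
  refine ⟨frontier Ω ∩ U, ?_, ?_⟩
  · rw [inter_comm]
    exact Filter.inter_mem (mem_nhdsWithin_of_mem_nhds (hUo.mem_nhds hpU)) self_mem_nhdsWithin
  set γ : ℝ → ℂ := fun s => p + a * (s + (g s : ℝ) * I) with hγ
  have hsub : frontier Ω ∩ U ⊆ γ '' Ioo (-r) r := by
    rintro z ⟨hzf, hzU⟩
    refine ⟨(c z).re, abs_lt.mp hzU.1, ?_⟩
    have key : g (c z).re = (c z).im := by
      rcases lt_trichotomy (g (c z).re) (c z).im with h1 | h1 | h1
      · exfalso
        have h2 := (h (c z).re (c z).im hzU.1 hzU.2).mpr h1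
        rw [hz] at h2
        rw [ho.frontier_eq] at hzf
        exact hzf.2 h2
      · exact h1
      · exfalso
        have hV : IsOpen (U ∩ {z | (c z).im < g (c z).re}) := by
          apply hUo.inter
          have h4 := hg.continuous
          have h5 : Continuous (fun z => (c z).im) := by fun_prop
          have h6 : Continuous (fun z => g (c z).re) := by fun_prop
          exact isOpen_lt h5 h6
        have hzc : z ∈ closure Ω := frontier_subset_closure hzf
        obtain ⟨y, ⟨hyU, hy⟩, hyΩ⟩ := mem_closure_iff.mp hzc _ hV ⟨hzU, h1⟩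
        have h2 := (h (c y).re (c y).im hyU.1 hyU.2).mp (by rw [hz]; exact hyΩ)
        exact lt_asymm h2 hy
    simp only [hγ]
    rw [key]
    exact hz z
  have hlip : LipschitzWith (1 + L) γ := by
    apply LipschitzWith.of_dist_le_mul
    intro s s'
    rw [dist_eq_norm]
    have h1 : γ s - γ s' = a * (((s - s' : ℝ) : ℂ) + ((g s - g s' : ℝ) : ℂ) * I) := by
      simp only [hγ]
      push_cast
      ring
    rw [h1, norm_mul, ha, one_mul]
    refine (norm_add_le _ _).trans ?_
    rw [norm_mul, norm_I, mul_one, Complex.norm_real, Complex.norm_real]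
    have h2 := hg.dist_le_mul s s'
    rw [Real.dist_eq, Real.dist_eq] at h2
    rw [Real.dist_eq]
    push_cast
    rw [Real.norm_eq_abs, Real.norm_eq_abs]
    linarith
  have h3 := (hlip.lipschitzOnWith (s := Ioo (-r) r)).hausdorffMeasure_image_le (d := 1) zero_le_one
  rw [hausdorffMeasure_real, ENNReal.rpow_one] at h3
  refine lt_of_le_of_lt ((measure_mono hsub).trans h3) ?_
  apply ENNReal.mul_lt_top ENNReal.coe_lt_top
  rw [Real.volume_Ioo]
  exact ENNReal.ofReal_lt_top

theorem fm : S_FM := by
  intro Ω hΩ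
  have hcomp : IsCompact (frontier Ω) :=
    (hΩ.bdd.isCompact_closure).of_isClosed_subset isClosed_frontier frontier_subset_closure
  apply hcomp.measure_lt_top_of_nhdsWithin
  intro p hp
  obtain ⟨a, r, L, g, ha, hr, hg, h⟩ := hΩ.lip p hp
  exact fm_local hΩ.isOpen ha hr hg h

end Pool.Agent.Helper45.Stek
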