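import Pool.Agent.Helper45.Stek.Goals

open MeasureTheory Set Complex Metric
open scoped ContDiff Topology ENNReal

namespace Pool.Agent.Helper45.Stek

/-- `k` homogeneous equations in `k + 1` unknowns. -/
theorem exists_ker (k : ℕ) (M : Fin k → Fin (k + 1) → ℂ) :
    ∃ c : Fin (k + 1) → ℂ, c ≠ 0 ∧ ∀ j, ∑ i, c i * M j i = 0 := by
  let T : (Fin (k + 1) → ℂ) →ₗ[ℂ] (Fin k → ℂ) :=
    { toFun := fun c j => ∑ i, c i * M j i
      map_add' := by
        intro x y
        ext j
        simp only [Pi.add_apply, add_mul, Finset.sum_add_distrib]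
      map_smul' := by
        intro a x
        ext j
        simp only [Pi.smul_apply, smul_eq_mul, RingHom.id_apply, Finset.mul_sum, mul_assoc] }
  have h : LinearMap.ker T ≠ ⊥ := by
    apply LinearMap.ker_ne_bot_of_finrank_lt
    simp
  obtain ⟨c, hc, hc0⟩ := Submodule.exists_mem_ne_zero_of_ne_bot h
  refine ⟨c, hc0, ?_⟩
  intro j
  have := congrFun (LinearMap.mem_ker.mp hc) j
  exact this

theorem fcr_sum (k : ℕ) (u : Fin (k + 1) → ℂ → ℂ) (hu : ∀ i, Continuous (u i))
    (c : Fin (k + 1) → ℂ) (n : ℤ) :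
    fcr (fun z => ∑ i, c i * u i z) 1 n = ∑ i, c i * fcr (u i) 1 n := by
  unfold fcr
  simp only [Finset.sum_mul]
  rw [intervalIntegral.integral_finsetSum, Finset.mul_sum]
  · apply Finset.sum_congr rfl
    intro i _
    have h : ∀ θ : ℝ, c i * u i (((1 : ℝ) : ℂ) * exp (θ * I)) * exp (-(n * θ * I)) =
        c i * (u i (((1 : ℝ) : ℂ) * exp (θ * I)) * exp (-(n * θ * I))) := fun θ => by ring
    simp only [h]
    rw [intervalIntegral.integral_const_mul]
    ring
  · intro i _
    apply Continuous.intervalIntegrable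
    have := hu i
    fun_prop

theorem la : S_LA := by
  intro k hk u hu
  set m := (k + 1) / 2 with hm
  by_cases hodd : Odd k
  · have hkm : k = 2 * m - 1 := by
      obtain ⟨t, ht⟩ := hodd
      omega
    obtain ⟨c, hc, h⟩ := exists_ker k (fun j i =>
      if (j : ℕ) = 0 then fcr (u i) 1 (1 - (m : ℤ)) + 1 / 8 * fcr (u i) 1 (m : ℤ)
      else if (j : ℕ) = k - 1 then fcr (u i) 1 ((m : ℤ) - 1) + 1 / 8 * fcr (u i) 1 (-(m : ℤ))
      else fcr (u i) 1 ((j : ℕ) + 1 - (m : ℤ)))
    refine ⟨c, hc, ?_⟩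
    simp only [Cond, hodd, if_true]
    rw [← hm]
    refine ⟨?_, ?_, ?_⟩
    · intro n hn
      have hn2 : |n| + 2 ≤ (m : ℤ) := hn
      have hn3 := abs_le.mp (show |n| ≤ (m : ℤ) - 2 by linarith)
      have hj := h ⟨(n + m - 1).toNat, by omega⟩
      have h1 : (n + m - 1).toNat ≠ 0 := by omega
      have h2 : (n + m - 1).toNat ≠ k - 1 := by omega
      have h3 : (((n + m - 1).toNat : ℕ) : ℤ) + 1 - (m : ℤ) = n := by omega
      simp only [h1, if_false, h2, h3] at hj
      rw [fcr_sum k u hu]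
      exact hj
    · have hj := h ⟨k - 1, by omega⟩
      have h1 : k - 1 ≠ 0 := by omega
      simp only [h1, if_false, if_true] at hj
      rw [fcr_sum k u hu, fcr_sum k u hu]
      simp only [mul_add, Finset.sum_add_distrib] at hj
      rw [Finset.mul_sum, eq_comm, ← sub_eq_zero, ← neg_eq_zero, neg_sub, ← hj, ← sub_eq_zero,
        ← Finset.sum_sub_distrib, ← Finset.sum_add_distrib, ← Finset.sum_sub_distrib]
      apply Finset.sum_eq_zero
      intro i _
      push_cast
      ring
    · have hj := h ⟨0, by omega⟩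
      simp only [if_true] at hj
      rw [fcr_sum k u hu, fcr_sum k u hu]
      simp only [mul_add, Finset.sum_add_distrib] at hj
      rw [Finset.mul_sum, eq_comm, ← sub_eq_zero, ← neg_eq_zero, neg_sub, ← hj, ← sub_eq_zero,
        ← Finset.sum_sub_distrib, ← Finset.sum_add_distrib, ← Finset.sum_sub_distrib]
      apply Finset.sum_eq_zero
      intro i _
      push_cast
      ring
  · have hkm : k = 2 * m := by
      rw [Nat.not_odd_iff_even] at hodd
      obtain ⟨t, ht⟩ := hodd
      omega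
    obtain ⟨c, hc, h⟩ := exists_ker k (fun j i =>
      if (j : ℕ) = k - 1 then fcr (u i) 1 (m : ℤ) + fcr (u i) 1 (-(m : ℤ))
      else fcr (u i) 1 ((j : ℕ) + 1 - (m : ℤ)))
    refine ⟨c, hc, ?_⟩
    simp only [Cond, hodd, if_false]
    rw [← hm]
    refine ⟨?_, ?_⟩
    · intro n hn
      have hn2 : |n| + 1 ≤ (m : ℤ) := hn
      have hn3 := abs_le.mp (show |n| ≤ (m : ℤ) - 1 by linarith)
      have hj := h ⟨(n + m - 1).toNat, by omega⟩
      have h2 : (n + m - 1).toNat ≠ k - 1 := by omega
      have h3 : (((n + m - 1).toNat : ℕ) : ℤ) + 1 - (m : ℤ) = n := by omega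
      simp only [if_false, h2, h3] at hj
      rw [fcr_sum k u hu]
      exact hj
    · have hj := h ⟨k - 1, by omega⟩
      simp only [if_true] at hj
      rw [fcr_sum k u hu, fcr_sum k u hu]
      simp only [mul_add, Finset.sum_add_distrib] at hj
      exact eq_neg_of_add_eq_zero_left hj

end Pool.Agent.Helper45.Stek
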