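import Pool.Agent.Helper45.Stek.Goals

open MeasureTheory Set Complex Metric
open scoped ContDiff Topology ENNReal

namespace Pool.Agent.Helper45.Stek

theorem int_exp_zero (n : ℤ) (hn : n ≠ 0) :
    ∫ θ in (-Real.pi)..Real.pi, exp ((n * I : ℂ) * (θ : ℂ)) = 0 := by
  have h : (n * I : ℂ) ≠ 0 := by
    simp [hn]
  rw [integral_exp_mul_complex h]
  have h1 : exp ((n * I : ℂ) * (Real.pi : ℝ)) = exp ((n * I : ℂ) * ((-Real.pi : ℝ) : ℂ)) := by
    have h2 : (n * I : ℂ) * (Real.pi : ℝ) = (n * I : ℂ) * ((-Real.pi : ℝ) : ℂ) +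
        n * (2 * Real.pi * I) := by
      push_cast
      ring
    rw [h2]
    exact Complex.exp_periodic.int_mul n _
  rw [h1, sub_self, zero_div]

theorem norm_e (n : ℤ) (θ : ℝ) : ‖exp (n * θ * I)‖ = 1 := by
  have : (n * θ * I : ℂ) = ((n * θ : ℝ) : ℂ) * I := by push_cast; ring
  rw [this, Complex.norm_exp_ofReal_mul_I]

theorem conj_e (n : ℤ) (θ : ℝ) : starRingEnd ℂ (exp (n * θ * I)) = exp (-(n * θ * I)) := by
  rw [← Complex.exp_conj]
  congr 1
  simp

theorem bessel_step (h : ℝ → ℂ) (hh : Continuous h) (n : ℤ) (c : ℂ)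
    (hc : c = ((2 * Real.pi)⁻¹ : ℂ) * ∫ θ in (-Real.pi)..Real.pi, h θ * exp (-(n * θ * I))) :
    ∫ θ in (-Real.pi)..Real.pi, ‖h θ - c * exp (n * θ * I)‖ ^ 2 =
      (∫ θ in (-Real.pi)..Real.pi, ‖h θ‖ ^ 2) - 2 * Real.pi * ‖c‖ ^ 2 := by
  have h1 : ∀ θ : ℝ, ‖h θ - c * exp (n * θ * I)‖ ^ 2 =
      (‖h θ‖ ^ 2 + ‖c‖ ^ 2) - 2 * (starRingEnd ℂ c * (h θ * exp (-(n * θ * I)))).re := by
    intro θ
    rw [Complex.sq_norm, Complex.normSq_sub, Complex.normSq_eq_norm_sq,
      Complex.normSq_eq_norm_sq, norm_mul, norm_e, mul_one, map_mul, conj_e]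
    congr 3
    ring
  simp only [h1]
  have hI1 : IntervalIntegrable (fun θ : ℝ => ‖h θ‖ ^ 2) volume (-Real.pi) Real.pi :=
    Continuous.intervalIntegrable (by fun_prop) _ _
  have hI2 : IntervalIntegrable (fun θ : ℝ => ‖c‖ ^ 2) volume (-Real.pi) Real.pi :=
    Continuous.intervalIntegrable (by fun_prop) _ _
  have hI3 : IntervalIntegrable (fun θ : ℝ => starRingEnd ℂ c * (h θ * exp (-(n * θ * I))))
      volume (-Real.pi) Real.pi :=
    Continuous.intervalIntegrable (by fun_prop) _ _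
  have hI4 : IntervalIntegrable
      (fun θ : ℝ => (starRingEnd ℂ c * (h θ * exp (-(n * θ * I)))).re)
      volume (-Real.pi) Real.pi :=
    Continuous.intervalIntegrable (by fun_prop) _ _
  rw [intervalIntegral.integral_sub (hI1.add hI2) (hI4.const_mul 2),
    intervalIntegral.integral_add hI1 hI2, intervalIntegral.integral_const,
    intervalIntegral.integral_const_mul]
  have h2 : ∫ θ in (-Real.pi)..Real.pi, (starRingEnd ℂ c * (h θ * exp (-(n * θ * I)))).re =
      (starRingEnd ℂ c * ∫ θ in (-Real.pi)..Real.pi, h θ * exp (-(n * θ * I))).re := by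
    rw [← intervalIntegral.integral_const_mul]
    exact reCLM.intervalIntegral_comp_comm hI3
  have hpi : (2 * Real.pi : ℂ) ≠ 0 := by
    have := Real.pi_ne_zero
    simpa using this
  have h3 : ∫ θ in (-Real.pi)..Real.pi, h θ * exp (-(n * θ * I)) = 2 * Real.pi * c := by
    rw [hc, ← mul_assoc, mul_inv_cancel₀ hpi, one_mul]
  rw [h2, h3]
  have h4 : (starRingEnd ℂ c * (2 * Real.pi * c)) = ((2 * Real.pi * ‖c‖ ^ 2 : ℝ) : ℂ) := by
    have h5 := Complex.mul_conj c
    rw [Complex.normSq_eq_norm_sq] at h5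
    calc (starRingEnd ℂ c * (2 * Real.pi * c)) = 2 * Real.pi * (c * starRingEnd ℂ c) := by ring
      _ = _ := by
        rw [h5]
        push_cast
        ring
  rw [h4, Complex.ofReal_re, smul_eq_mul]
  ring

theorem coeff_sub (g : ℝ → ℂ) (hg : Continuous g) (F : Finset ℤ) (c : ℤ → ℂ) (l : ℤ)
    (hl : l ∉ F) :
    ∫ θ in (-Real.pi)..Real.pi, (g θ - ∑ n ∈ F, c n * exp (n * θ * I)) * exp (-(l * θ * I)) =
      ∫ θ in (-Real.pi)..Real.pi, g θ * exp (-(l * θ * I)) := by
  simp only [sub_mul, Finset.sum_mul]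
  have hI1 : IntervalIntegrable (fun θ : ℝ => g θ * exp (-(l * θ * I)))
      volume (-Real.pi) Real.pi :=
    Continuous.intervalIntegrable (by fun_prop) _ _
  have hI2 : ∀ n ∈ F, IntervalIntegrable
      (fun θ : ℝ => c n * exp (n * θ * I) * exp (-(l * θ * I))) volume (-Real.pi) Real.pi :=
    fun n _ => Continuous.intervalIntegrable (by fun_prop) _ _
  have hI3 : IntervalIntegrable
      (fun θ : ℝ => ∑ n ∈ F, c n * exp (n * θ * I) * exp (-(l * θ * I)))
      volume (-Real.pi) Real.pi :=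
    Continuous.intervalIntegrable (by fun_prop) _ _
  rw [intervalIntegral.integral_sub hI1 hI3, intervalIntegral.integral_finsetSum hI2]
  rw [Finset.sum_eq_zero, sub_zero]
  intro n hn
  have hnl : n - l ≠ 0 := by
    intro h
    have : n = l := by omega
    exact hl (this ▸ hn)
  have h1 : ∀ θ : ℝ, c n * exp (n * θ * I) * exp (-(l * θ * I)) =
      c n * exp ((((n - l : ℤ) : ℂ) * I) * θ) := by
    intro θ
    rw [mul_assoc, ← Complex.exp_add]
    congr 2
    push_cast
    ring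
  simp only [h1]
  rw [intervalIntegral.integral_const_mul, int_exp_zero _ hnl, mul_zero]

theorem be : S_BE := by
  intro g hg F
  set c : ℤ → ℂ := fun n => ((2 * Real.pi)⁻¹ : ℂ) *
    ∫ θ in (-Real.pi)..Real.pi, g θ * exp (-(n * θ * I)) with hc
  have key : ∀ F : Finset ℤ, ∫ θ in (-Real.pi)..Real.pi, ‖g θ - ∑ n ∈ F, c n * exp (n * θ * I)‖ ^ 2 =
      (∫ θ in (-Real.pi)..Real.pi, ‖g θ‖ ^ 2) - 2 * Real.pi * ∑ n ∈ F, ‖c n‖ ^ 2 := by
    intro F
    induction F using Finset.induction_on with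
    | empty => simp
    | insert l F hl ih =>
      have hcont : Continuous (fun θ : ℝ => g θ - ∑ n ∈ F, c n * exp (n * θ * I)) := by fun_prop
      have h1 := bessel_step _ hcont l (c l) (by
        rw [coeff_sub g hg F c l hl])
      have h2 : ∀ θ : ℝ, g θ - ∑ n ∈ insert l F, c n * exp (n * θ * I) =
          g θ - ∑ n ∈ F, c n * exp (n * θ * I) - c l * exp (l * θ * I) := by
        intro θ
        rw [Finset.sum_insert hl]
        ring
      simp only [h2]
      rw [h1, ih, Finset.sum_insert hl]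
      ring
  have h0 : 0 ≤ ∫ θ in (-Real.pi)..Real.pi, ‖g θ - ∑ n ∈ F, c n * exp (n * θ * I)‖ ^ 2 := by
    apply intervalIntegral.integral_nonneg
    · linarith [Real.pi_pos]
    · intro θ _
      positivity
  rw [key F] at h0
  linarith

end Pool.Agent.Helper45.Stek
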