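import Pool.Agent.Helper45.Stek.NT

open MeasureTheory Set Complex Metric
open scoped ContDiff Topology ENNReal

namespace Pool.Agent.Helper45.Stek

/-- The boundary curve. -/
noncomputable def gam (f : ℂ → ℂ) (θ : ℝ) : ℂ := f (exp (θ * I))

/-- Its speed. -/
noncomputable def spd (f : ℂ → ℂ) (θ : ℝ) : ℝ := ‖deriv f (exp (θ * I))‖

theorem gam_deriv {f : ℂ → ℂ} (hf : Differentiable ℂ f) (θ : ℝ) :
    HasDerivAt (gam f) (deriv f (exp (θ * I)) * (exp (θ * I) * I)) θ := by
  have h2 : HasDerivAt (fun θ : ℝ => (θ : ℂ) * I) I θ := by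
    have h := (Complex.ofRealCLM.hasDerivAt (x := θ)).mul_const I
    simpa using h
  have h3 : HasDerivAt (fun θ : ℝ => exp (θ * I)) (exp (θ * I) * I) θ := h2.cexp
  exact ((hf _).hasDerivAt).comp θ h3

theorem spd_cont {f : ℂ → ℂ} (hf : Differentiable ℂ f) : Continuous (spd f) := by
  unfold spd
  have h1 : Continuous (deriv f) := hf.contDiff.continuous_deriv le_top
  fun_prop

theorem gam_cont {f : ℂ → ℂ} (hf : Differentiable ℂ f) : Continuous (gam f) :=
  continuous_iff_continuousAt.mpr (fun θ => (gam_deriv hf θ).continuousAt)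

theorem bt_eps {f : ℂ → ℂ} (hf : Differentiable ℂ f) {E : Set ℝ} (hE : MeasurableSet E)
    (hEs : E ⊆ Ioc (-Real.pi) Real.pi) {ε : ℝ} (hε : 0 < ε) :
    (Measure.hausdorffMeasure 1 : Measure ℂ) (gam f '' E) ≤
      ∫⁻ θ in E, ENNReal.ofReal (spd f θ + 2 * ε) := by
  have huc : UniformContinuousOn (spd f) (Icc (-Real.pi) Real.pi) :=
    isCompact_Icc.uniformContinuousOn_of_continuous (spd_cont hf).continuousOn
  rw [Metric.uniformContinuousOn_iff] at huc
  obtain ⟨d, hd, hdu⟩ := huc ε hε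
  set L : ℝ → ℤ := fun θ => ⌊θ / d⌋ with hL
  have hLm : Measurable L := (measurable_id.div_const d).floor
  have hEU : E = ⋃ l : ℤ, (E ∩ L ⁻¹' {l}) := by
    ext θ
    simp
  have hcell : ∀ l : ℤ, (Measure.hausdorffMeasure 1 : Measure ℂ) (gam f '' (E ∩ L ⁻¹' {l})) ≤
      ∫⁻ θ in E ∩ L ⁻¹' {l}, ENNReal.ofReal (spd f θ + 2 * ε) := by
    intro l
    rcases (E ∩ L ⁻¹' {l}).eq_empty_or_nonempty with h0 | ⟨θ₀, hθ₀E, hθ₀L⟩
    · rw [h0]
      simp
    set J : Set ℝ := Ioc (-Real.pi) Real.pi ∩ Ico (l * d) ((l + 1) * d) with hJ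
    have hsub : E ∩ L ⁻¹' {l} ⊆ J := by
      rintro θ ⟨h1, h2⟩
      refine ⟨hEs h1, ?_⟩
      have h3 : ⌊θ / d⌋ = l := h2
      rw [Int.floor_eq_iff] at h3
      exact ⟨by have := h3.1; rwa [le_div_iff₀ hd] at this,
        by have := h3.2; rwa [div_lt_iff₀ hd] at this⟩
    have hJd : ∀ x ∈ J, ∀ y ∈ J, |spd f x - spd f y| < ε := by
      intro x hx y hy
      have h1 : dist x y < d := by
        rw [Real.dist_eq, abs_lt]
        have a1 := hx.2.1
        have a2 := hx.2.2
        have a3 := hy.2.1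
        have a4 := hy.2.2
        constructor <;> linarith
      have h2 := hdu x ⟨hx.1.1.le, hx.1.2⟩ y ⟨hy.1.1.le, hy.1.2⟩ h1
      rwa [Real.dist_eq] at h2
    have hθ₀ : θ₀ ∈ J := hsub ⟨hθ₀E, hθ₀L⟩
    set M : ℝ := spd f θ₀ + ε with hM
    have hM0 : 0 ≤ M := by
      have : 0 ≤ spd f θ₀ := norm_nonneg _
      linarith
    have hconv : Convex ℝ J := (convex_Ioc _ _).inter (convex_Ico _ _)
    have hlip : LipschitzOnWith (Real.toNNReal M) (gam f) J := by
      apply hconv.lipschitzOnWith_of_nnnorm_hasDerivWithin_le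
        (fun x _ => (gam_deriv hf x).hasDerivWithinAt)
      intro x hx
      rw [← NNReal.coe_le_coe, coe_nnnorm, Real.coe_toNNReal _ hM0]
      rw [norm_mul, norm_mul, norm_I, mul_one, Complex.norm_exp_ofReal_mul_I, mul_one]
      have h1 := (abs_lt.mp (hJd x hx θ₀ hθ₀)).2
      change spd f x ≤ M
      linarith
    have h1 := (hlip.mono hsub).hausdorffMeasure_image_le (d := 1) zero_le_one
    rw [hausdorffMeasure_real, ENNReal.rpow_one] at h1
    refine h1.trans ?_
    change ENNReal.ofReal M * volume (E ∩ L ⁻¹' {l}) ≤ _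
    rw [← setLIntegral_const]
    apply setLIntegral_mono' (hE.inter (hLm (measurableSet_singleton _)))
    intro θ hθ
    apply ENNReal.ofReal_le_ofReal
    have h2 := (abs_lt.mp (hJd θ (hsub hθ) θ₀ hθ₀)).1
    linarith
  calc (Measure.hausdorffMeasure 1 : Measure ℂ) (gam f '' E)
      = (Measure.hausdorffMeasure 1 : Measure ℂ) (⋃ l : ℤ, gam f '' (E ∩ L ⁻¹' {l})) := by
        rw [← image_iUnion, ← hEU]
    _ ≤ ∑' l : ℤ, (Measure.hausdorffMeasure 1 : Measure ℂ) (gam f '' (E ∩ L ⁻¹' {l})) :=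
        measure_iUnion_le _
    _ ≤ ∑' l : ℤ, ∫⁻ θ in E ∩ L ⁻¹' {l}, ENNReal.ofReal (spd f θ + 2 * ε) :=
        ENNReal.tsum_le_tsum hcell
    _ = ∫⁻ θ in E, ENNReal.ofReal (spd f θ + 2 * ε) := by
        conv_rhs => rw [hEU]
        rw [lintegral_iUnion]
        · intro l
          exact hE.inter (hLm (measurableSet_singleton _))
        · intro l l' hll
          apply Disjoint.inter_left'
          apply Disjoint.inter_right'
          exact Disjoint.preimage _ (disjoint_singleton.mpr hll)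

theorem bt_set {f : ℂ → ℂ} (hf : Differentiable ℂ f) {E : Set ℝ} (hE : MeasurableSet E)
    (hEs : E ⊆ Ioc (-Real.pi) Real.pi) :
    (Measure.hausdorffMeasure 1 : Measure ℂ) (gam f '' E) ≤
      ∫⁻ θ in E, ENNReal.ofReal (spd f θ) := by
  have hvol : volume E ≤ ENNReal.ofReal (2 * Real.pi) := by
    refine (measure_mono hEs).trans ?_
    rw [Real.volume_Ioc]
    apply ENNReal.ofReal_le_ofReal
    linarith
  have h1 : ∀ ε : ℝ, 0 < ε → (Measure.hausdorffMeasure 1 : Measure ℂ) (gam f '' E) ≤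
      (∫⁻ θ in E, ENNReal.ofReal (spd f θ)) + ENNReal.ofReal (2 * ε) *
        ENNReal.ofReal (2 * Real.pi) := by
    intro ε hε
    refine (bt_eps hf hE hEs hε).trans ?_
    have h2 : ∀ θ, ENNReal.ofReal (spd f θ + 2 * ε) =
        ENNReal.ofReal (spd f θ) + ENNReal.ofReal (2 * ε) := by
      intro θ
      exact ENNReal.ofReal_add (norm_nonneg _) (by linarith)
    simp only [h2]
    rw [lintegral_add_right _ measurable_const, setLIntegral_const]
    gcongr
  have h2 : Filter.Tendsto (fun ε : ℝ => (∫⁻ θ in E, ENNReal.ofReal (spd f θ)) +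
      ENNReal.ofReal (2 * ε) * ENNReal.ofReal (2 * Real.pi)) (𝓝[>] 0)
      (𝓝 ((∫⁻ θ in E, ENNReal.ofReal (spd f θ)) + 0 * ENNReal.ofReal (2 * Real.pi))) := by
    apply Filter.Tendsto.const_add
    apply ENNReal.Tendsto.mul_const _ (Or.inr ENNReal.ofReal_ne_top)
    have h3 : Filter.Tendsto (fun ε : ℝ => ENNReal.ofReal (2 * ε)) (𝓝 0)
        (𝓝 (ENNReal.ofReal (2 * 0))) :=
      (ENNReal.continuous_ofReal.comp (continuous_const.mul continuous_id)).tendsto 0
    rw [mul_zero, ENNReal.ofReal_zero] at h3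
    exact h3.mono_left nhdsWithin_le_nhds
  rw [zero_mul, add_zero] at h2
  apply ge_of_tendsto h2
  filter_upwards [self_mem_nhdsWithin] with ε hε
  exact h1 ε hε

theorem bt : S_BT := by
  intro f δ hnear u hu
  have hf : Differentiable ℂ f := hnear.2.1
  obtain ⟨-, hop, -, hbd, -, hfr, -⟩ := nt f δ hnear
  set Ω := f '' ball 0 1 with hΩ
  have hγc := gam_cont hf
  have hsc := spd_cont hf
  have hγm : Measurable (gam f) := hγc.measurable
  set ν : Measure ℂ := Measure.map (gam f)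
    ((volume.restrict (Ioc (-Real.pi) Real.pi)).withDensity (fun θ => ENNReal.ofReal (spd f θ)))
    with hν
  have hle : (Measure.hausdorffMeasure 1 : Measure ℂ).restrict (frontier Ω) ≤ ν := by
    rw [Measure.le_iff]
    intro C hC
    rw [hν, Measure.map_apply hγm hC, withDensity_apply _ (hγm hC),
      Measure.restrict_restrict (hγm hC), Measure.restrict_apply hC]
    have h1 : C ∩ frontier Ω ⊆ gam f '' (gam f ⁻¹' C ∩ Ioc (-Real.pi) Real.pi) := by
      rintro z ⟨hzC, hzf⟩
      obtain ⟨ζ, hζ, rfl⟩ := hfr hzf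
      rw [mem_sphere_zero_iff_norm] at hζ
      have h2 : exp ((Complex.arg ζ : ℝ) * I) = ζ := by
        have h3 := Complex.norm_mul_exp_arg_mul_I ζ
        rw [hζ] at h3
        simpa using h3
      refine ⟨Complex.arg ζ, ⟨?_, Complex.arg_mem_Ioc ζ⟩, ?_⟩
      · change f (exp ((Complex.arg ζ : ℝ) * I)) ∈ C
        rw [h2]
        exact hzC
      · change f (exp ((Complex.arg ζ : ℝ) * I)) = f ζ
        rw [h2]
    exact (measure_mono h1).trans (bt_set hf ((hγm hC).inter measurableSet_Ioc) inter_subset_right)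
  have hint : IntervalIntegrable (fun θ => ‖u (gam f θ)‖ ^ 2 * spd f θ) volume
      (-Real.pi) Real.pi := Continuous.intervalIntegrable (by fun_prop) _ _
  have hpp : -Real.pi ≤ Real.pi := by linarith [Real.pi_pos]
  have hint2 : Integrable (fun θ => ‖u (gam f θ)‖ ^ 2 * spd f θ)
      (volume.restrict (Ioc (-Real.pi) Real.pi)) := by
    rwa [intervalIntegrable_iff_integrableOn_Ioc_of_le hpp] at hint
  have hnn : ∀ θ, 0 ≤ ‖u (gam f θ)‖ ^ 2 * spd f θ := fun θ =>
    mul_nonneg (by positivity) (norm_nonneg _)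
  have hgoal : bdry Ω u ≤ ∫ θ in (-Real.pi)..Real.pi, ‖u (gam f θ)‖ ^ 2 * spd f θ := by
    rw [intervalIntegral.integral_of_le hpp]
    unfold bdry
    rw [integral_eq_lintegral_of_nonneg_ae (Filter.Eventually.of_forall (fun z => by positivity))
      (by fun_prop), integral_eq_lintegral_of_nonneg_ae (Filter.Eventually.of_forall hnn)
      hint2.aestronglyMeasurable]
    apply ENNReal.toReal_mono
    · exact (hint2.lintegral_lt_top).ne
    · have hm : Measurable (fun z : ℂ => ENNReal.ofReal (‖u z‖ ^ 2)) := by fun_prop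
      have hm1 : Measurable (fun θ => ENNReal.ofReal (spd f θ)) :=
        ENNReal.measurable_ofReal.comp hsc.measurable
      have hm2 : Measurable (fun θ => ENNReal.ofReal (‖u (gam f θ)‖ ^ 2)) := hm.comp hγm
      have h1 : ∫⁻ z in frontier Ω, ENNReal.ofReal (‖u z‖ ^ 2) ∂(Measure.hausdorffMeasure 1) ≤
          ∫⁻ z, ENNReal.ofReal (‖u z‖ ^ 2) ∂ν := lintegral_mono' hle le_rfl
      refine h1.trans (le_of_eq ?_)
      rw [hν, lintegral_map hm hγm, lintegral_withDensity_eq_lintegral_mul _ hm1 hm2]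
      congr 1
      ext θ
      have hs0 : 0 ≤ spd f θ := norm_nonneg _
      rw [Pi.mul_apply, ← ENNReal.ofReal_mul hs0, mul_comm]
  exact hgoal

end Pool.Agent.Helper45.Stek
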