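import Pool.Agent.Helper45.Stek.Goals

open MeasureTheory Set Complex Metric
open scoped ContDiff Topology ENNReal

namespace Pool.Agent.Helper45.Stek

theorem cl : S_CL := by
  intro Ω ho hcone p hp
  obtain ⟨e, ρ, κ, he, hρ, hκ1, hκ0, H⟩ := hcone p hp
  set L : ℝ := κ / (1 - κ) with hL
  have h1κ : 0 < 1 - κ := by linarith
  have hL0 : 0 < L := div_pos hκ0 h1κ
  set a : ℂ := -(I * e) with ha
  have han : ‖a‖ = 1 := by
    rw [ha, norm_neg, norm_mul, norm_I, he, one_mul]
  have hee : e * starRingEnd ℂ e = 1 := by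
    rw [Complex.mul_conj, Complex.normSq_eq_norm_sq, he]
    simp
  set r : ℝ := ρ / (2 * (L + 2)) with hr
  have hr0 : 0 < r := by positivity
  have hrρ : 2 * (L + 2) * r = ρ := by
    rw [hr]
    field_simp
  set r₁ : ℝ := (L + 1) * r with hr₁
  have hr₁0 : 0 < r₁ := by positivity
  set Q : ℝ → ℝ → ℂ := fun s t => p + a * (s + t * I) with hQ
  have hQn : ∀ s t : ℝ, ‖a * ((s : ℂ) + t * I)‖ ≤ |s| + |t| := by
    intro s t
    rw [norm_mul, han, one_mul]
    refine (norm_add_le _ _).trans ?_
    rw [norm_mul, norm_I, mul_one, Complex.norm_real, Complex.norm_real, Real.norm_eq_abs,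
      Real.norm_eq_abs]
  have hpΩ : p ∉ Ω := by
    intro h
    rw [ho.frontier_eq] at hp
    exact hp.2 h
  have hpc : p ∈ closure Ω := frontier_subset_closure hp
  -- the main fact
  have F : ∀ s t s' t' : ℝ, |s| < r → |t| < r₁ → |s'| < r → |t'| < r₁ → Q s t ∈ closure Ω →
      L * |s' - s| ≤ t' - t → 0 < t' - t → Q s' t' ∈ Ω := by
    intro s t s' t' hs ht hs' ht' hcl hle hpos
    set v : ℂ := a * (((s' - s : ℝ) : ℂ) + ((t' - t : ℝ) : ℂ) * I) with hv
    have hvQ : Q s t + v = Q s' t' := by
      simp only [hQ, hv]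
      push_cast
      ring
    have hre : (v * starRingEnd ℂ e).re = t' - t := by
      have h1 : v * starRingEnd ℂ e = ((t' - t : ℝ) : ℂ) - ((s' - s : ℝ) : ℂ) * I := by
        have h2 : v * starRingEnd ℂ e = (e * starRingEnd ℂ e) *
            (-(I * (((s' - s : ℝ) : ℂ) + ((t' - t : ℝ) : ℂ) * I))) := by
          rw [hv, ha]
          ring
        rw [h2, hee]
        linear_combination (-((t' - t : ℝ) : ℂ)) * Complex.I_sq
      rw [h1]
      simp
    have hvn : ‖v‖ ≤ |s' - s| + (t' - t) := by
      have := hQn (s' - s) (t' - t)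
      rwa [abs_of_pos hpos] at this
    rw [← hvQ]
    apply H _ hcl
    · have h1 : Q s t - p = a * ((s : ℂ) + t * I) := by
        simp only [hQ]
        ring
      rw [h1]
      refine lt_of_le_of_lt (hQn s t) ?_
      nlinarith
    · intro h0
      rw [h0, zero_mul, Complex.zero_re] at hre
      linarith
    · refine lt_of_le_of_lt hvn ?_
      have h1 : |s' - s| ≤ |s'| + |s| := abs_sub _ _
      have h2 : t' - t ≤ |t'| + |t| := (le_abs_self _).trans (abs_sub _ _)
      nlinarith
    · rw [hre]
      have h1 : κ * |s' - s| ≤ (1 - κ) * (t' - t) := by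
        have h2 : κ = L * (1 - κ) := by
          rw [hL]
          field_simp
        calc κ * |s' - s| = (1 - κ) * (L * |s' - s|) := by
              conv_lhs => rw [h2]
              ring
          _ ≤ (1 - κ) * (t' - t) := mul_le_mul_of_nonneg_left hle h1κ.le
      calc κ * ‖v‖ ≤ κ * (|s' - s| + (t' - t)) := mul_le_mul_of_nonneg_left hvn hκ0.le
        _ ≤ t' - t := by linarith
  have hQ0 : Q 0 0 = p := by simp [hQ]
  have hii : ∀ s t : ℝ, |s| < r → |t| < r₁ → L * |s| < t → Q s t ∈ Ω := by
    intro s t hs ht hlt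
    have h0 : 0 ≤ L * |s| := by positivity
    exact F 0 0 s t (by simpa using hr0) (by simpa using hr₁0) hs ht (by rw [hQ0]; exact hpc)
      (by rw [sub_zero, sub_zero]; exact hlt.le) (by linarith)
  have hiii : ∀ s t : ℝ, |s| < r → |t| < r₁ → Q s t ∈ Ω → -(L * |s|) ≤ t := by
    intro s t hs ht hmem
    by_contra hcon
    push Not at hcon
    have h0 : 0 ≤ L * |s| := by positivity
    have h1 := F s t 0 0 hs ht (by simpa using hr0) (by simpa using hr₁0) (subset_closure hmem)
      (by rw [zero_sub, zero_sub, abs_neg]; linarith) (by linarith)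
    rw [hQ0] at h1
    exact hpΩ h1
  set T : ℝ → Set ℝ := fun s => {t | |t| < r₁ ∧ Q s t ∈ Ω} with hT
  have hTne : ∀ s, |s| < r → ∀ t, L * |s| < t → t < r₁ → t ∈ T s := by
    intro s hs t h1 h2
    have h0 : 0 ≤ L * |s| := by positivity
    have h3 : |t| < r₁ := by rw [abs_of_pos (by linarith)]; exact h2
    exact ⟨h3, hii s t hs h3 h1⟩
  have hLs : ∀ s, |s| < r → L * |s| < r₁ := by
    intro s hs
    nlinarith
  have hTb : ∀ s, |s| < r → BddBelow (T s) := by
    intro s hs
    exact ⟨-(L * |s|), fun t ht => hiii s t hs ht.1 ht.2⟩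
  have hTn : ∀ s, |s| < r → (T s).Nonempty := by
    intro s hs
    have := hLs s hs
    exact ⟨(L * |s| + r₁) / 2, hTne s hs _ (by linarith) (by linarith)⟩
  set g₀ : ℝ → ℝ := fun s => sInf (T s) with hg₀
  have hgle : ∀ s, |s| < r → g₀ s ≤ L * |s| := by
    intro s hs
    apply le_of_forall_gt_imp_ge_of_dense
    intro x hx
    rcases lt_or_ge x r₁ with h1 | h1
    · exact csInf_le (hTb s hs) (hTne s hs x hx h1)
    · have h2 := hLs s hs
      exact (csInf_le (hTb s hs) (hTne s hs ((L * |s| + r₁) / 2) (by linarith)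
        (by linarith))).trans (by linarith)
  have hiff : ∀ s t : ℝ, |s| < r → |t| < r₁ → (Q s t ∈ Ω ↔ g₀ s < t) := by
    intro s t hs ht
    constructor
    · intro h
      have hop : IsOpen {x : ℝ | |x| < r₁ ∧ Q s x ∈ Ω} := by
        have h1 : Continuous (fun x : ℝ => |x|) := by fun_prop
        have h2 : Continuous (fun x : ℝ => Q s x) := by
          simp only [hQ]
          fun_prop
        exact (isOpen_lt h1 continuous_const).inter (ho.preimage h2)
      obtain ⟨η, hη, hball⟩ := Metric.isOpen_iff.mp hop t ⟨ht, h⟩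
      have h3 : t - η / 2 ∈ ball t η := by
        rw [mem_ball, Real.dist_eq]
        have : t - η / 2 - t = -(η / 2) := by ring
        rw [this, abs_neg, abs_of_pos (by linarith)]
        linarith
      have h4 : g₀ s ≤ t - η / 2 := csInf_le (hTb s hs) (hball h3)
      linarith
    · intro h
      obtain ⟨t', ht', htt⟩ := exists_lt_of_csInf_lt (hTn s hs) h
      exact F s t' s t hs ht'.1 hs ht (subset_closure ht'.2)
        (by rw [sub_self, abs_zero, mul_zero]; linarith) (by linarith)
  have hone : ∀ s s', |s| < r → |s'| < r → g₀ s' ≤ g₀ s + L * |s' - s| := by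
    intro s s' hs hs'
    rw [← sub_le_iff_le_add]
    apply le_csInf (hTn s hs)
    intro t ht
    rw [sub_le_iff_le_add]
    have h0 : 0 ≤ L * |s' - s| := by positivity
    rcases eq_or_lt_of_le h0 with h1 | h1
    · have h2 : |s' - s| = 0 := by
        rcases mul_eq_zero.mp h1.symm with h | h
        · exact absurd h hL0.ne'
        · exact h
      have h3 : s' = s := sub_eq_zero.mp (abs_eq_zero.mp h2)
      rw [h3, sub_self, abs_zero, mul_zero, add_zero]
      exact csInf_le (hTb s hs) ht
    · rcases lt_or_ge (t + L * |s' - s|) r₁ with h2 | h2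
      · apply csInf_le (hTb s' hs')
        have h3 : |t + L * (|s' - s|)| < r₁ := by
          rw [abs_lt]
          have := (abs_lt.mp ht.1).1
          exact ⟨by linarith, h2⟩
        refine ⟨h3, ?_⟩
        exact F s t s' _ hs ht.1 hs' h3 (subset_closure ht.2) (by linarith) (by linarith)
      · have h3 := hgle s' hs'
        have h4 := hLs s' hs'
        linarith
  have hlip : LipschitzOnWith (Real.toNNReal L) g₀ (Ioo (-r) r) := by
    apply LipschitzOnWith.of_dist_le_mul
    intro s hs s' hs'
    rw [Real.coe_toNNReal _ hL0.le, Real.dist_eq, Real.dist_eq, abs_le]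
    have h1 := hone s s' (abs_lt.mpr hs) (abs_lt.mpr hs')
    have h2 := hone s' s (abs_lt.mpr hs') (abs_lt.mpr hs)
    rw [abs_sub_comm s' s] at h1
    constructor <;> linarith
  obtain ⟨g, hg, hgeq⟩ := hlip.extend_real
  refine ⟨a, r, Real.toNNReal L, g, han, hr0, hg, ?_⟩
  intro s t hs ht
  have h1 : |t| < r₁ := by nlinarith
  have h2 := hiff s t hs h1
  rw [hgeq (abs_lt.mp hs)] at h2
  exact h2

end Pool.Agent.Helper45.Stek
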