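import Pool.Agent.Helper45.Stek.NT

open MeasureTheory Set Complex Metric
open scoped ContDiff Topology ENNReal

namespace Pool.Agent.Helper45.Stek

theorem co : S_CO := by
  intro f δ h p hp
  obtain ⟨hinj, hop, -, -, hcl, hfr, hsurj⟩ := nt f δ h
  obtain ⟨ζ₀, hζ₀, rfl⟩ := hfr hp
  rw [mem_sphere_zero_iff_norm] at hζ₀
  have hδ : 0 < δ := h.1
  refine ⟨-ζ₀, min (13 / 20 * δ) (13 / 200), 9 / 10, by rw [norm_neg]; exact hζ₀, by positivity,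
    by norm_num, by norm_num, ?_⟩
  intro q hq hqp v hv0 hv hcone
  obtain ⟨ζ, hζ, rfl⟩ := hcl hq
  rw [mem_closedBall_zero_iff] at hζ
  have hqp2 : ‖f ζ - f ζ₀‖ < 13 / 200 := lt_of_lt_of_le hqp (min_le_right _ _)
  have hv1 : ‖v‖ ≤ 13 / 20 * δ := (lt_of_lt_of_le hv (min_le_left _ _)).le
  have hv2 : ‖v‖ < 13 / 200 := lt_of_lt_of_le hv (min_le_right _ _)
  have hx : 0 < ‖v‖ := norm_pos_iff.mpr hv0
  have hζm : ζ ∈ closedBall (0 : ℂ) (1 + δ) := by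
    rw [mem_closedBall_zero_iff]; linarith
  have hζ₀m : ζ₀ ∈ closedBall (0 : ℂ) (1 + δ) := by
    rw [mem_closedBall_zero_iff]; linarith
  have hd : ‖ζ - ζ₀‖ ≤ 1 / 10 := by
    have h1 := h.2.2 ζ hζm ζ₀ hζ₀m
    have h2 : ‖ζ - ζ₀‖ ≤ ‖f ζ - f ζ₀ - (ζ - ζ₀)‖ + ‖f ζ - f ζ₀‖ := by
      calc ‖ζ - ζ₀‖ = ‖-(f ζ - f ζ₀ - (ζ - ζ₀)) + (f ζ - f ζ₀)‖ := by ring_nf
        _ ≤ ‖-(f ζ - f ζ₀ - (ζ - ζ₀))‖ + ‖f ζ - f ζ₀‖ := norm_add_le _ _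
        _ = _ := by rw [norm_neg]
    linarith
  obtain ⟨ζ', hζ', hf, hn1, hn2⟩ := hsurj ζ (mem_closedBall_zero_iff.mpr hζ) v hv1
  refine ⟨ζ', ?_, hf⟩
  rw [mem_ball_zero_iff]
  set v' := ζ' - ζ with hv'
  have hy : ‖v'‖ ≤ 20 / 13 * ‖v‖ := by linarith
  have hvv : ‖v' - v‖ ≤ 7 / 13 * ‖v‖ := by linarith
  -- the real parts
  have hcone2 : (v * starRingEnd ℂ ζ₀).re ≤ -(9 / 10 * ‖v‖) := by
    rw [map_neg, mul_neg, Complex.neg_re] at hcone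
    linarith
  have e1 : ((v' - v) * starRingEnd ℂ ζ₀).re ≤ ‖v' - v‖ := by
    refine (Complex.re_le_norm _).trans ?_
    rw [norm_mul, RCLike.norm_conj, hζ₀, mul_one]
  have e2 : (v' * starRingEnd ℂ (ζ - ζ₀)).re ≤ ‖v'‖ * (1 / 10) := by
    refine (Complex.re_le_norm _).trans ?_
    rw [norm_mul, RCLike.norm_conj]
    exact mul_le_mul_of_nonneg_left hd (norm_nonneg _)
  have e3 : (v' * starRingEnd ℂ ζ).re = (v * starRingEnd ℂ ζ₀).re +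
      ((v' - v) * starRingEnd ℂ ζ₀).re + (v' * starRingEnd ℂ (ζ - ζ₀)).re := by
    rw [← Complex.add_re, ← Complex.add_re]
    congr 1
    rw [map_sub]
    ring
  have e4 : ‖ζ'‖ ^ 2 = ‖ζ‖ ^ 2 + 2 * (v' * starRingEnd ℂ ζ).re + ‖v'‖ ^ 2 := by
    have h1 : ζ' = v' + ζ := by rw [hv']; ring
    rw [h1, Complex.sq_norm, Complex.normSq_add, Complex.normSq_eq_norm_sq,
      Complex.normSq_eq_norm_sq]
    ring
  have e5 : ‖ζ‖ ^ 2 ≤ 1 := by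
    have := norm_nonneg ζ
    nlinarith
  have e6 : ‖v'‖ ^ 2 ≤ (20 / 13 * ‖v‖) ^ 2 := pow_le_pow_left₀ (norm_nonneg _) hy 2
  have e7 : ‖ζ'‖ ^ 2 < 1 := by
    rw [e4, e3]
    nlinarith [hx, hv2]
  have := norm_nonneg ζ'
  nlinarith

end Pool.Agent.Helper45.Stek
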