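import Mathlib

/-!
Steklov eigenvalues of bounded planar Lipschitz domains.
-/

open MeasureTheory Set Complex
open scoped ContDiff Topology

namespace Pool.Agent.Helper45.Stek

/-- The boundary of the open set `Ω` is Lipschitz: near every boundary point `p`, in suitable orthonormal
coordinates `(s, t)` with origin `p`, the set `Ω` is the region above the graph of a Lipschitz function. -/
def LipschitzBoundary (Ω : Set ℂ) : Prop :=
  ∀ p ∈ frontier Ω, ∃ (a : ℂ) (r : ℝ) (L : NNReal) (g : ℝ → ℝ), ‖a‖ = 1 ∧ 0 < r ∧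
    LipschitzWith L g ∧ ∀ s t : ℝ, |s| < r → |t| < r → (p + a * (s + t * I) ∈ Ω ↔ g s < t)

/-- A domain: a bounded connected open set of the plane with Lipschitz boundary. -/
structure LipDomain (Ω : Set ℂ) : Prop where
  isOpen : IsOpen Ω
  conn : IsConnected Ω
  bdd : Bornology.IsBounded Ω
  lip : LipschitzBoundary Ω

/-- The area. -/
noncomputable def area (Ω : Set ℂ) : ℝ := (volume Ω).toReal

/-- The Dirichlet integral `∫ |∂u/∂x|² + |∂u/∂y|²` over `Ω`. -/
noncomputable def energy (Ω : Set ℂ) (u : ℂ → ℂ) : ℝ :=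
  ∫ z in Ω, (‖fderiv ℝ u z 1‖ ^ 2 + ‖fderiv ℝ u z I‖ ^ 2)

/-- The integral of `|u|²` over the boundary of `Ω` with respect to arc length (the one-dimensional
Hausdorff measure). -/
noncomputable def bdry (Ω : Set ℂ) (u : ℂ → ℂ) : ℝ :=
  ∫ z in frontier Ω, ‖u z‖ ^ 2 ∂(Measure.hausdorffMeasure 1)

/-- The numbers `l ≥ 0` for which there is a `(k + 1)`-dimensional space of (complex valued) smooth
functions on the plane, linearly independent on the boundary, with Dirichlet integral at most `l` times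
the boundary integral of the square. -/
def bounds (k : ℕ) (Ω : Set ℂ) : Set ℝ :=
  {l : ℝ | 0 ≤ l ∧ ∃ u : Fin (k + 1) → ℂ → ℂ, (∀ i, ContDiff ℝ ∞ (u i)) ∧
    ∀ c : Fin (k + 1) → ℂ, c ≠ 0 → 0 < bdry Ω (fun z => ∑ i, c i * u i z) ∧
      energy Ω (fun z => ∑ i, c i * u i z) ≤ l * bdry Ω (fun z => ∑ i, c i * u i z)}

/-- The Steklov eigenvalue `σ_k` (`σ_0 = 0`), by the min-max principle. -/
noncomputable def steklov (k : ℕ) (Ω : Set ℂ) : ℝ := sInf (bounds k Ω)

/-- The rotation about `c` by the unit complex number `w`. -/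
def rot (c w z : ℂ) : ℂ := c + w * (z - c)

/-- `Ω` has a rotational symmetry of order larger than `k` (or of infinite order). -/
def SymmetryAbove (k : ℕ) (Ω : Set ℂ) : Prop :=
  ∃ c w : ℂ, ‖w‖ = 1 ∧ (∀ n : ℕ, 1 ≤ n → n ≤ k → w ^ n ≠ 1) ∧ rot c w '' Ω = Ω

/-- `Ω` has `2π/k` rotational symmetry. -/
def RotSymmetric (k : ℕ) (Ω : Set ℂ) : Prop :=
  ∃ c : ℂ, rot c (exp (2 * Real.pi * I / k)) '' Ω = Ω

end Pool.Agent.Helper45.Stek
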