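import Pool.Agent.Helper45.Stek.Main

/-!
The unit disk: `steklov k (ball 0 1) = (k + 1) / 2`.
-/

open MeasureTheory Set Complex Metric
open scoped ContDiff Topology ENNReal

namespace Pool.Agent.Helper45.Stek

theorem near_id : Near (fun z => z) 1 := by
  refine ⟨one_pos, differentiable_id, ?_⟩
  intro z _ w _
  rw [sub_self, norm_zero]
  positivity

theorem ball_dom : LipDomain (ball (0 : ℂ) 1) := by
  obtain ⟨-, hop, hconn, hbd, -, -, -⟩ := nt _ _ near_id
  have h := co _ _ near_id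
  rw [image_id'] at hop hconn hbd h
  exact ⟨hop, hconn, hbd, cl _ hop h⟩

theorem area_ball : area (ball (0 : ℂ) 1) = Real.pi := by
  unfold area
  rw [Complex.volume_ball]
  simp

theorem ball_sym (k : ℕ) : SymmetryAbove k (ball (0 : ℂ) 1) := by
  have hprim := Complex.isPrimitiveRoot_exp (k + 1) (Nat.succ_ne_zero k)
  set w := exp (2 * Real.pi * I / ((k + 1 : ℕ) : ℂ)) with hw
  have hw1 : ‖w‖ = 1 := by
    rw [hw]
    have : 2 * Real.pi * I / ((k + 1 : ℕ) : ℂ) = ((2 * Real.pi / (k + 1 : ℕ) : ℝ) : ℂ) * I := by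
      push_cast
      ring
    rw [this, Complex.norm_exp_ofReal_mul_I]
  refine ⟨0, w, hw1, ?_, ?_⟩
  · intro n hn hnk
    exact hprim.pow_ne_one_of_pos_of_lt (by omega) (by omega)
  · have h1 : rot 0 w = fun z => w * z := by
      ext z
      simp [rot]
    rw [h1]
    exact rot_ball w hw1

theorem disk_lower (k : ℕ) : (((k + 1) / 2 : ℕ) : ℝ) ≤ steklov k (ball (0 : ℂ) 1) := by
  set m := (k + 1) / 2 with hm
  refine le_csInf (ne k _ ball_dom) ?_
  rintro l ⟨hl0, u, hu, hl⟩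
  obtain ⟨c, hc, hker⟩ := exists_ker k (fun j i => fcr (u i) 1 ((j : ℕ) + 1 - (m : ℤ)))
  obtain ⟨hpos, hle⟩ := hl c hc
  set U : ℂ → ℂ := fun z => ∑ i, c i * u i z with hU
  have hUs : ContDiff ℝ ∞ U := by
    rw [hU]
    apply ContDiff.sum
    intro i _
    exact contDiff_const.mul (hu i)
  have hcond : ∀ n : ℤ, |n| + 1 ≤ m → fcr U 1 n = 0 := by
    intro n hn
    have hn3 := abs_le.mp (show |n| ≤ (m : ℤ) - 1 by linarith)
    have hj := hker ⟨(n + m - 1).toNat, by omega⟩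
    have h3 : (((n + m - 1).toNat : ℕ) : ℤ) + 1 - (m : ℤ) = n := by omega
    simp only [h3] at hj
    rw [hU, fcr_sum k u (fun i => (hu i).continuous)]
    exact hj
  have hFB := fb fd U hUs
  have hsum1 : Summable (fun n : ℤ => |(n : ℝ)| * ‖fcr U 1 n‖ ^ 2) := by
    apply summable_of_sum_le (c := energy (ball 0 1) U / (2 * Real.pi))
    · intro n; positivity
    · intro F
      rw [le_div_iff₀ (by positivity)]
      have := hFB F
      linarith
  have htsum : 2 * Real.pi * ∑' n : ℤ, |(n : ℝ)| * ‖fcr U 1 n‖ ^ 2 ≤ energy (ball 0 1) U := by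
    have h : ∑' n : ℤ, |(n : ℝ)| * ‖fcr U 1 n‖ ^ 2 ≤ energy (ball 0 1) U / (2 * Real.pi) := by
      apply Real.tsum_le_of_sum_le
      · intro n; positivity
      · intro F
        rw [le_div_iff₀ (by positivity)]
        have := hFB F
        linarith
    rw [le_div_iff₀ (by positivity)] at h
    linarith
  obtain ⟨hsum0, hpv⟩ := pv U hUs.continuous 0 0
  have hbt := bt _ _ near_id U hUs.continuous
  rw [image_id'] at hbt
  have hint : ∫ θ in (-Real.pi)..Real.pi, ‖U (exp (θ * I))‖ ^ 2 *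
        ‖deriv (fun z : ℂ => z) (exp (θ * I))‖ =
      2 * Real.pi * ∑' n : ℤ, ‖fcr U 1 n‖ ^ 2 := by
    have h1 : ∀ θ : ℝ, ‖U (exp (θ * I))‖ ^ 2 * ‖deriv (fun z : ℂ => z) (exp (θ * I))‖ =
        ‖U (exp (θ * I))‖ ^ 2 * (1 + 0 ^ 2 + 2 * 0 * Real.cos ((0 : ℕ) * θ)) := by
      intro θ
      rw [deriv_id'', norm_one]
      ring
    simp only [h1]
    rw [hpv]
    ring
  rw [hint] at hbt
  have hmn : (m : ℝ) * ∑' n : ℤ, ‖fcr U 1 n‖ ^ 2 ≤ ∑' n : ℤ, |(n : ℝ)| * ‖fcr U 1 n‖ ^ 2 := by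
    rw [← tsum_mul_left]
    apply Summable.tsum_le_tsum _ (hsum0.mul_left _) hsum1
    intro n
    by_cases hn : |n| + 1 ≤ m
    · rw [hcond n hn]
      simp
    · apply mul_le_mul_of_nonneg_right _ (by positivity)
      have h2 : (m : ℤ) ≤ |n| := by omega
      have h3 : ((m : ℤ) : ℝ) ≤ ((|n| : ℤ) : ℝ) := Int.cast_le.mpr h2
      rw [Int.cast_abs, Int.cast_natCast] at h3
      exact h3
  have key : (m : ℝ) * bdry (ball 0 1) U ≤ l * bdry (ball 0 1) U := by
    calc (m : ℝ) * bdry (ball 0 1) U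
        ≤ m * (2 * Real.pi * ∑' n : ℤ, ‖fcr U 1 n‖ ^ 2) :=
          mul_le_mul_of_nonneg_left hbt (Nat.cast_nonneg _)
      _ = 2 * Real.pi * (m * ∑' n : ℤ, ‖fcr U 1 n‖ ^ 2) := by ring
      _ ≤ 2 * Real.pi * ∑' n : ℤ, |(n : ℝ)| * ‖fcr U 1 n‖ ^ 2 :=
          mul_le_mul_of_nonneg_left hmn (by positivity)
      _ ≤ energy (ball 0 1) U := htsum
      _ ≤ _ := hle
  exact le_of_mul_le_mul_right key hpos

/-- The Steklov eigenvalues of the unit disk. -/
theorem disk (k : ℕ) : steklov k (ball (0 : ℂ) 1) = ((k + 1) / 2 : ℕ) := by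
  apply le_antisymm _ (disk_lower k)
  have h := t_UB k _ ball_dom (ball_sym k)
  rw [area_ball] at h
  have hs : 0 < √Real.pi := Real.sqrt_pos.mpr Real.pi_pos
  exact le_of_mul_le_mul_right h hs

end Pool.Agent.Helper45.Stek
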