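import Pool.Agent.Helper45.Stek.Goals

open MeasureTheory Set Complex Metric
open scoped ContDiff Topology ENNReal

namespace Pool.Agent.Helper45.Stek

/-- The derivative of `hf n`. -/
noncomputable def hfD (n : ℤ) (z v : ℂ) : ℂ :=
  (if 0 < n then (n : ℂ) * z ^ (n.toNat - 1) * v else 0) +
    (if n < 0 then (-n : ℂ) * (starRingEnd ℂ z) ^ ((-n).toNat - 1) * starRingEnd ℂ v else 0)

theorem hf_contDiff (n : ℤ) : ContDiff ℝ ∞ (hf n) := by
  unfold hf
  by_cases h : 0 ≤ n
  · simp only [h, if_true]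
    fun_prop
  · simp only [h, if_false]
    have h1 : ContDiff ℝ ∞ (fun z : ℂ => starRingEnd ℂ z) := conjCLE.contDiff
    exact h1.pow _

theorem hf_fderiv (n : ℤ) (z v : ℂ) : fderiv ℝ (hf n) z v = hfD n z v := by
  rcases lt_trichotomy n 0 with h | h | h
  · have hn : ¬ 0 ≤ n := by omega
    have hn' : ¬ 0 < n := by omega
    have h0 : hf n = fun z : ℂ => (conjCLE z) ^ (-n).toNat := by
      ext z
      simp only [hf, hn, if_false]
      rfl
    have h1 : HasFDerivAt (fun z : ℂ => conjCLE z) (conjCLE : ℂ →L[ℝ] ℂ) z := conjCLE.hasFDerivAt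
    have h2 := h1.pow (-n).toNat
    rw [h0, h2.fderiv]
    simp only [hfD, hn', if_false, h, if_true, zero_add]
    have h3 : (((-n).toNat : ℕ) : ℂ) = (-n : ℂ) := by
      have : (((-n).toNat : ℕ) : ℤ) = -n := by omega
      exact_mod_cast congrArg (fun x : ℤ => (x : ℂ)) this
    simp only [_root_.smul_apply, nsmul_eq_mul, smul_eq_mul]
    rw [← h3]
    simp
  · subst h
    have h0 : hf 0 = fun _ : ℂ => (1 : ℂ) := by
      ext z
      simp [hf]
    rw [h0]
    simp [hfD]
  · have hn : 0 ≤ n := by omega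
    have hn' : ¬ n < 0 := by omega
    have h0 : hf n = fun z : ℂ => z ^ n.toNat := by
      ext z
      simp only [hf, hn, if_true]
    have h1 : HasFDerivAt (fun z : ℂ => z) (ContinuousLinearMap.id ℝ ℂ) z := hasFDerivAt_id z
    have h2 := h1.pow n.toNat
    rw [h0, h2.fderiv]
    simp only [hfD, hn', if_false, h, if_true, add_zero]
    have h3 : ((n.toNat : ℕ) : ℂ) = (n : ℂ) := by
      have : ((n.toNat : ℕ) : ℤ) = n := by omega
      exact_mod_cast congrArg (fun x : ℤ => (x : ℂ)) this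
    simp only [_root_.smul_apply, nsmul_eq_mul, smul_eq_mul]
    rw [← h3]
    simp

theorem sum_contDiff (F : Finset ℤ) (c : ℤ → ℂ) :
    ContDiff ℝ ∞ (fun z => ∑ n ∈ F, c n * hf n z) := by
  apply ContDiff.sum
  intro n _
  exact contDiff_const.mul (hf_contDiff n)

theorem sum_fderiv (F : Finset ℤ) (c : ℤ → ℂ) (z v : ℂ) :
    fderiv ℝ (fun z => ∑ n ∈ F, c n * hf n z) z v = ∑ n ∈ F, c n * hfD n z v := by
  have hd : ∀ n, HasFDerivAt (hf n) (fderiv ℝ (hf n) z) z := fun n =>
    ((hf_contDiff n).differentiable (by simp) z).hasFDerivAt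
  have h1 : HasFDerivAt (fun z => ∑ n ∈ F, c n * hf n z)
      (∑ n ∈ F, c n • fderiv ℝ (hf n) z) z := by
    apply HasFDerivAt.fun_sum
    intro n _
    exact (hd n).const_mul (c n)
  rw [h1.fderiv, _root_.sum_apply]
  apply Finset.sum_congr rfl
  intro n _
  rw [_root_.smul_apply, hf_fderiv, smul_eq_mul]

theorem ep : S_EP := by
  intro F c
  refine ⟨sum_contDiff F c, ?_⟩
  intro z
  rw [sum_fderiv, sum_fderiv]
  set A := ∑ n ∈ F.filter (fun n => 0 < n), c n * n * z ^ (n.toNat - 1) with hA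
  set B := ∑ n ∈ F.filter (fun n => n < 0), c n * (-n) * (starRingEnd ℂ z) ^ ((-n).toNat - 1)
    with hB
  have h1 : ∀ v : ℂ, ∑ n ∈ F, c n * hfD n z v = A * v + B * starRingEnd ℂ v := by
    intro v
    rw [hA, hB, Finset.sum_filter, Finset.sum_filter, Finset.sum_mul, Finset.sum_mul,
      ← Finset.sum_add_distrib]
    apply Finset.sum_congr rfl
    intro n _
    unfold hfD
    split_ifs <;> ring
  rw [h1 1, h1 I]
  simp only [mul_one, map_one, conj_I]
  have h2 : A * I + B * -I = (A - B) * I := by ring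
  rw [h2, norm_mul, norm_I, mul_one]
  have := parallelogram_law_with_norm ℝ A B
  nlinarith [this]

end Pool.Agent.Helper45.Stek
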