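import Pool.Agent.Helper45.Stek.BE
import Pool.Agent.Helper45.Stek.PE

open MeasureTheory Set Complex Metric
open scoped ContDiff Topology ENNReal

namespace Pool.Agent.Helper45.Stek

/-- The radial coefficient. -/
noncomputable def ra (w : ℂ → ℂ) (n : ℤ) (r : ℝ) : ℂ :=
  (2 * Real.pi)⁻¹ * ∫ θ in (-Real.pi)..Real.pi,
    fderiv ℝ w (r * exp (θ * I)) (exp (θ * I)) * exp (-(n * θ * I))

/-- The angular coefficient. -/
noncomputable def rb (w : ℂ → ℂ) (n : ℤ) (r : ℝ) : ℂ :=
  (2 * Real.pi)⁻¹ * ∫ θ in (-Real.pi)..Real.pi,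
    fderiv ℝ w (r * exp (θ * I)) (I * exp (θ * I)) * exp (-(n * θ * I))

theorem fb (hFD : S_FD) : S_FB := by
  intro w hw F
  have hDw : Continuous (fderiv ℝ w) := hw.continuous_fderiv (by simp)
  have hder : ∀ n r, HasDerivAt (fun r => fcr w r n) (ra w n r) r := fun n r => (hFD w hw n r).1
  have hang : ∀ (n : ℤ) (r : ℝ), I * n * fcr w r n = r * rb w n r := by
    intro n r
    rw [(hFD w hw n r).2, rb]
    have h1 : ∀ θ : ℝ, (r : ℂ) * fderiv ℝ w (r * exp (θ * I)) (I * exp (θ * I)) *
        exp (-(n * θ * I)) = (r : ℂ) * (fderiv ℝ w (r * exp (θ * I)) (I * exp (θ * I)) *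
        exp (-(n * θ * I))) := fun θ => by ring
    simp only [h1]
    rw [intervalIntegral.integral_const_mul]
    ring
  have hra : ∀ n, Continuous (ra w n) := by
    intro n
    unfold ra
    apply Continuous.mul continuous_const
    apply intervalIntegral.continuous_parametric_intervalIntegral_of_continuous'
    fun_prop
  have hf0 : ∀ n : ℤ, n ≠ 0 → fcr w 0 n = 0 := by
    intro n hn
    have h := hang n 0
    have h2 : (I * n : ℂ) ≠ 0 := by
      simp [hn]
    simpa [hn] using h
  have hfc : ∀ n, Continuous (fun r => fcr w r n) := fun n =>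
    continuous_iff_continuousAt.mpr (fun r => (hder n r).continuousAt)
  -- the derivative of the square of the norm
  have hG : ∀ (n : ℤ) (r : ℝ), HasDerivAt (fun r => ‖fcr w r n‖ ^ 2)
      (2 * (ra w n r * starRingEnd ℂ (fcr w r n)).re) r := by
    intro n r
    have h1 := (hder n r).norm_sq
    convert h1 using 1
    rw [Complex.inner]
  have hGint : ∀ n : ℤ, ∫ r in (0 : ℝ)..1, 2 * (ra w n r * starRingEnd ℂ (fcr w r n)).re =
      ‖fcr w 1 n‖ ^ 2 - ‖fcr w 0 n‖ ^ 2 := by
    intro n
    have := hra n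
    have := hfc n
    exact intervalIntegral.integral_eq_sub_of_hasDerivAt (fun r _ => hG n r)
      (Continuous.intervalIntegrable (by fun_prop) _ _)
  rw [pe w hw]
  have e1 : 2 * Real.pi * ∑ n ∈ F, |(n : ℝ)| * ‖fcr w 1 n‖ ^ 2 =
      ∫ r in (0 : ℝ)..1, 2 * Real.pi * ∑ n ∈ F, |(n : ℝ)| *
        (2 * (ra w n r * starRingEnd ℂ (fcr w r n)).re) := by
    rw [intervalIntegral.integral_const_mul, intervalIntegral.integral_finsetSum]
    · congr 1
      apply Finset.sum_congr rfl
      intro n _
      rw [intervalIntegral.integral_const_mul, hGint]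
      by_cases hn : n = 0
      · simp [hn]
      · rw [hf0 n hn]
        simp
    · intro n _
      have := hra n
      have := hfc n
      exact Continuous.intervalIntegrable (by fun_prop) _ _
  rw [e1]
  apply intervalIntegral.integral_mono_on zero_le_one
  · apply Continuous.intervalIntegrable
    apply Continuous.mul continuous_const
    apply continuous_finsetSum
    intro n _
    have := hra n
    have := hfc n
    fun_prop
  · apply Continuous.intervalIntegrable
    apply Continuous.mul _ continuous_id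
    apply intervalIntegral.continuous_parametric_intervalIntegral_of_continuous'
    fun_prop
  · intro r hr
    have hr0 : 0 ≤ r := hr.1
    have hb1 := be (fun θ : ℝ => fderiv ℝ w (r * exp (θ * I)) (exp (θ * I))) (by fun_prop) F
    have hb2 := be (fun θ : ℝ => fderiv ℝ w (r * exp (θ * I)) (I * exp (θ * I))) (by fun_prop) F
    rw [intervalIntegral.integral_add (Continuous.intervalIntegrable (by fun_prop) _ _)
      (Continuous.intervalIntegrable (by fun_prop) _ _)]
    have h1 : 2 * Real.pi * ∑ n ∈ F, |(n : ℝ)| *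
        (2 * (ra w n r * starRingEnd ℂ (fcr w r n)).re) ≤
        (2 * Real.pi * ∑ n ∈ F, ‖ra w n r‖ ^ 2 + 2 * Real.pi * ∑ n ∈ F, ‖rb w n r‖ ^ 2) * r := by
      have h0 : (2 * Real.pi * ∑ n ∈ F, ‖ra w n r‖ ^ 2 + 2 * Real.pi * ∑ n ∈ F, ‖rb w n r‖ ^ 2) * r =
          2 * Real.pi * ∑ n ∈ F, (‖ra w n r‖ ^ 2 + ‖rb w n r‖ ^ 2) * r := by
        rw [← mul_add, ← Finset.sum_add_distrib, ← Finset.sum_mul]
        ring
      rw [h0]
      apply mul_le_mul_of_nonneg_left _ (by positivity)
      apply Finset.sum_le_sum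
      intro n _
      have h2 : |(n : ℝ)| * ‖fcr w r n‖ = r * ‖rb w n r‖ := by
        have := congrArg norm (hang n r)
        rw [norm_mul, norm_mul, norm_I, one_mul, norm_mul, Complex.norm_real,
          Real.norm_of_nonneg hr0, Complex.norm_intCast] at this
        exact this
      have h3 : (ra w n r * starRingEnd ℂ (fcr w r n)).re ≤ ‖ra w n r‖ * ‖fcr w r n‖ := by
        refine (Complex.re_le_norm _).trans ?_
        rw [norm_mul, RCLike.norm_conj]
      calc |(n : ℝ)| * (2 * (ra w n r * starRingEnd ℂ (fcr w r n)).re)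
          ≤ |(n : ℝ)| * (2 * (‖ra w n r‖ * ‖fcr w r n‖)) := by
            apply mul_le_mul_of_nonneg_left _ (abs_nonneg _)
            linarith
        _ = 2 * ‖ra w n r‖ * (|(n : ℝ)| * ‖fcr w r n‖) := by ring
        _ = r * (2 * ‖ra w n r‖ * ‖rb w n r‖) := by rw [h2]; ring
        _ ≤ r * (‖ra w n r‖ ^ 2 + ‖rb w n r‖ ^ 2) := by
            apply mul_le_mul_of_nonneg_left _ hr0
            nlinarith [sq_nonneg (‖ra w n r‖ - ‖rb w n r‖)]
        _ = _ := by ring
    refine h1.trans ?_
    apply mul_le_mul_of_nonneg_right _ hr0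
    have e2 : ∀ n, ra w n r = ((2 * Real.pi)⁻¹ : ℂ) * ∫ θ in (-Real.pi)..Real.pi,
        fderiv ℝ w (r * exp (θ * I)) (exp (θ * I)) * exp (-(n * θ * I)) := by
      intro n
      rw [ra]
      push_cast
      rfl
    have e3 : ∀ n, rb w n r = ((2 * Real.pi)⁻¹ : ℂ) * ∫ θ in (-Real.pi)..Real.pi,
        fderiv ℝ w (r * exp (θ * I)) (I * exp (θ * I)) * exp (-(n * θ * I)) := by
      intro n
      rw [rb]
      push_cast
      rfl
    simp only [← e2] at hb1
    simp only [← e3] at hb2
    linarith

end Pool.Agent.Helper45.Stek
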