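import Pool.Agent.Helper45.Stek.Goals

open MeasureTheory Set Complex Metric
open scoped ContDiff Topology ENNReal

namespace Pool.Agent.Helper45.Stek

theorem hasDerivAt_radial {w : ℂ → ℂ} (hw : ContDiff ℝ ∞ w) (r θ : ℝ) :
    HasDerivAt (fun r : ℝ => w (r * exp (θ * I)))
      (fderiv ℝ w (r * exp (θ * I)) (exp (θ * I))) r := by
  have h1 : HasDerivAt (fun r : ℝ => (r : ℂ) * exp (θ * I)) (exp (θ * I)) r := by
    have h := (Complex.ofRealCLM.hasDerivAt (x := r)).mul_const (exp (θ * I))
    simpa using h
  exact ((hw.differentiable (by simp) _).hasFDerivAt).comp_hasDerivAt r h1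

theorem hasDerivAt_angular {w : ℂ → ℂ} (hw : ContDiff ℝ ∞ w) (r θ : ℝ) :
    HasDerivAt (fun θ : ℝ => w (r * exp (θ * I)))
      (r * fderiv ℝ w (r * exp (θ * I)) (I * exp (θ * I))) θ := by
  have h1 : HasDerivAt (fun θ : ℝ => (r : ℂ) * exp (θ * I)) (r • (I * exp (θ * I))) θ := by
    have h2 : HasDerivAt (fun θ : ℝ => (θ : ℂ) * I) I θ := by
      have h := (Complex.ofRealCLM.hasDerivAt (x := θ)).mul_const I
      simpa using h
    have h3 := (h2.cexp).const_mul (r : ℂ)
    exact h3.congr_deriv (by rw [Complex.real_smul]; ring)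
  have h4 := ((hw.differentiable (by simp) _).hasFDerivAt).comp_hasDerivAt θ h1
  rw [map_smul, Complex.real_smul] at h4
  exact h4

theorem fd : S_FD := by
  intro w hw n r
  have hDw : Continuous (fderiv ℝ w) := hw.continuous_fderiv (by simp)
  have hwc : Continuous w := hw.continuous
  constructor
  · unfold fcr
    have hF'c : Continuous (fun p : ℝ × ℝ => fderiv ℝ w (p.1 * exp (p.2 * I)) (exp (p.2 * I)) *
        exp (-(n * p.2 * I))) := by fun_prop
    obtain ⟨C, hC⟩ := (isCompact_Icc.prod isCompact_Icc :
      IsCompact (Icc (r - 1) (r + 1) ×ˢ Icc (-Real.pi) Real.pi)).exists_bound_of_continuousOn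
        hF'c.continuousOn
    have h := intervalIntegral.hasDerivAt_integral_of_dominated_loc_of_deriv_le
      (μ := volume) (a := -Real.pi) (b := Real.pi) (bound := fun _ => C)
      (F := fun (r : ℝ) (θ : ℝ) => w (r * exp (θ * I)) * exp (-(n * θ * I)))
      (F' := fun (r : ℝ) (θ : ℝ) => fderiv ℝ w (r * exp (θ * I)) (exp (θ * I)) *
        exp (-(n * θ * I))) (x₀ := r) (s := Icc (r - 1) (r + 1))
      (Icc_mem_nhds (by linarith) (by linarith))
      (Filter.Eventually.of_forall (fun x =>
        (Continuous.aestronglyMeasurable (by fun_prop))))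
      (Continuous.intervalIntegrable (by fun_prop) _ _)
      (Continuous.aestronglyMeasurable (by fun_prop))
      (Filter.Eventually.of_forall (fun t ht x hx => by
        rw [uIoc_of_le (by linarith [Real.pi_pos])] at ht
        exact hC (x, t) ⟨hx, ⟨ht.1.le, ht.2⟩⟩))
      (Continuous.intervalIntegrable (by fun_prop) _ _)
      (Filter.Eventually.of_forall (fun t _ x _ => (hasDerivAt_radial hw x t).mul_const _))
    exact h.2.const_mul (((2 * Real.pi)⁻¹ : ℝ) : ℂ)
  · unfold fcr
    have hder : ∀ θ : ℝ, HasDerivAt (fun θ : ℝ => w (r * exp (θ * I)) * exp (-(n * θ * I)))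
        (r * fderiv ℝ w (r * exp (θ * I)) (I * exp (θ * I)) * exp (-(n * θ * I)) -
          I * n * (w (r * exp (θ * I)) * exp (-(n * θ * I)))) θ := by
      intro θ
      have h1 : HasDerivAt (fun θ : ℝ => exp (-(n * θ * I))) (-(I * n) * exp (-(n * θ * I))) θ := by
        have h2 : HasDerivAt (fun θ : ℝ => -((n : ℂ) * θ * I)) (-(I * n)) θ := by
          have h3 := (Complex.ofRealCLM.hasDerivAt (x := θ)).mul_const (-(I * (n : ℂ)))
          have e : (fun θ : ℝ => -((n : ℂ) * θ * I)) =
              fun θ : ℝ => Complex.ofRealCLM θ * (-(I * (n : ℂ))) := by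
            ext x
            simp only [Complex.ofRealCLM_apply]
            ring
          rw [e]
          exact h3.congr_deriv (by simp)
        have h4 := h2.cexp
        exact h4.congr_deriv (by ring)
      have h5 := (hasDerivAt_angular hw r θ).mul h1
      exact h5.congr_deriv (by ring)
    have hint := intervalIntegral.integral_eq_sub_of_hasDerivAt (a := -Real.pi) (b := Real.pi)
      (fun θ _ => hder θ) (Continuous.intervalIntegrable (by fun_prop) _ _)
    have hper : w (r * exp ((Real.pi : ℝ) * I)) * exp (-(n * (Real.pi : ℝ) * I)) -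
        w (r * exp (((-Real.pi : ℝ) : ℂ) * I)) * exp (-(n * ((-Real.pi : ℝ) : ℂ) * I)) = 0 := by
      have e1 : exp (((-Real.pi : ℝ) : ℂ) * I) = exp ((Real.pi : ℝ) * I) := by
        push_cast
        rw [neg_mul, Complex.exp_neg, Complex.exp_pi_mul_I]
        norm_num
      have e2 : exp (-(n * ((-Real.pi : ℝ) : ℂ) * I)) = exp (-(n * (Real.pi : ℝ) * I)) := by
        have : -((n : ℂ) * ((-Real.pi : ℝ) : ℂ) * I) = -((n : ℂ) * (Real.pi : ℝ) * I) +
            n * (2 * Real.pi * I) := by
          push_cast
          ring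
        rw [this]
        exact Complex.exp_periodic.int_mul n _
      rw [e1, e2, sub_self]
    rw [hper, intervalIntegral.integral_sub (Continuous.intervalIntegrable (by fun_prop) _ _)
      (Continuous.intervalIntegrable (by fun_prop) _ _), intervalIntegral.integral_const_mul,
      sub_eq_zero] at hint
    rw [hint]
    ring

end Pool.Agent.Helper45.Stek
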