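import Pool.Agent.Helper45.Stek.Disk

/-!
Maximisers of the `k`-th Steklov eigenvalue under the area constraint: definitions for the final statement.
-/

open MeasureTheory Set Complex Metric
open scoped ContDiff Topology ENNReal

namespace Pool.Agent.Helper45.Stek

/-- `Ω` is a maximiser for `σ_k` under the area constraint. -/
def IsMaximiser (k : ℕ) (Ω : Set ℂ) : Prop :=
  LipDomain Ω ∧ ∀ Ω' : Set ℂ, LipDomain Ω' → steklov k Ω' * √(area Ω') ≤ steklov k Ω * √(area Ω)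

/-- The image of the unit disk under `z + 2 b z^(k+1) / (k+1) + b² z^(2k+1) / (2k+1)`, where
`b = 1 / (8 m)`, `m = ⌈k/2⌉`. -/
noncomputable def flower (k : ℕ) : Set ℂ :=
  (fun z : ℂ => z + 2 * (1 / (8 * ((k + 1) / 2 : ℕ)) : ℝ) / (k + 1) * z ^ (k + 1) +
    (1 / (8 * ((k + 1) / 2 : ℕ)) : ℝ) ^ 2 / (2 * k + 1) * z ^ (2 * k + 1)) '' ball 0 1

theorem final (k : ℕ) (hk : 2 ≤ k) :
    (∀ Ω : Set ℂ, LipDomain Ω → SymmetryAbove k Ω →
      steklov k Ω * √(area Ω) ≤ ((k + 1) / 2 : ℕ) * √Real.pi) ∧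
    steklov k (ball 0 1) * √(area (ball 0 1)) = ((k + 1) / 2 : ℕ) * √Real.pi ∧
    (LipDomain (flower k) ∧ RotSymmetric k (flower k) ∧
      ((k + 1) / 2 : ℕ) * √Real.pi < steklov k (flower k) * √(area (flower k))) ∧
    ∀ Ω : Set ℂ, IsMaximiser k Ω → ∀ c w : ℂ, ‖w‖ = 1 → rot c w '' Ω = Ω →
      ∃ n : ℕ, 1 ≤ n ∧ n ≤ k ∧ w ^ n = 1 := by
  have hfl : flower k = phi k (bk k) '' ball 0 1 := rfl
  have hm : (1 : ℝ) ≤ ((k + 1) / 2 : ℕ) := by
    have : 1 ≤ (k + 1) / 2 := by omega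
    exact_mod_cast this
  have hstrict : ((k + 1) / 2 : ℕ) * √Real.pi < steklov k (flower k) * √(area (flower k)) := by
    rw [hfl]
    have h4 : √Real.pi < √(area (phi k (bk k) '' ball 0 1)) :=
      Real.sqrt_lt_sqrt Real.pi_pos.le (ar k hk)
    calc (((k + 1) / 2 : ℕ) : ℝ) * √Real.pi
        < ((k + 1) / 2 : ℕ) * √(area (phi k (bk k) '' ball 0 1)) := by
          apply mul_lt_mul_of_pos_left h4; linarith
      _ ≤ _ := mul_le_mul_of_nonneg_right (t_LB k hk).2 (Real.sqrt_nonneg _)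
  have hdom : LipDomain (flower k) := by
    rw [hfl]
    exact (t_LB k hk).1
  refine ⟨t_UB k, ?_, ⟨hdom, ?_, hstrict⟩, ?_⟩
  · rw [disk, area_ball]
  · rw [hfl]
    exact (pn k hk).2.2
  · intro Ω hΩ c w hw hrot
    by_contra hcon
    push Not at hcon
    have h1 := t_UB k Ω hΩ.1 ⟨c, w, hw, fun n hn hnk => hcon n hn hnk, hrot⟩
    have h2 := hΩ.2 _ hdom
    linarith

end Pool.Agent.Helper45.Stek
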