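import Pool.Agent.Helper45.Stek.Defs

/-!
# Stek: goals

Notation: `m = (k + 1) / 2` (natural division), `b = 1 / (8 m)`. Every packet is a `Prop`; prove `theorem xx : S_XX` (with the
hypotheses listed as USES, if any) in a file of your own, namespace `Pool.Agent.HelperN.Stek`.
-/

open MeasureTheory Set Complex Metric
open scoped ContDiff Topology ENNReal

namespace Pool.Agent.Helper45.Stek

/-- `z ^ n` for `n ≥ 0`, `conj z ^ |n|` for `n < 0`. -/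
noncomputable def hf (n : ℤ) (z : ℂ) : ℂ :=
  if 0 ≤ n then z ^ n.toNat else (starRingEnd ℂ z) ^ (-n).toNat

/-- The distance from `0` to the last point of `Ω` on the ray with angle `θ` (`0` if there is none). -/
noncomputable def Rad (Ω : Set ℂ) (θ : ℝ) : ℝ :=
  sSup {r : ℝ | r = 0 ∨ (0 < r ∧ (r : ℂ) * exp (θ * I) ∈ Ω)}

/-! ## Part A: the upper bound -/

/-- RA. The function `Rad`.
PROOF. `{θ | c < Rad Ω θ} = ⋃ r > c, {θ | r e^{iθ} ∈ Ω}` for `c ≥ 0` is open (`Ω` is open), so `Rad` is measurable (lower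
semicontinuous; `Rad ≥ 0` since `0` is in the set; the set is bounded above as `Ω` is bounded). If `R = Rad Ω θ > 0`, the point `R e^{iθ}` is
a limit of points of `Ω` and not in `Ω` (an open set would contain larger `r`), so it is in the frontier. (4): polar coordinates
(`Complex.lintegral_comp_polarCoord_symm`): the left side is `(2j+1) ∫ θ, ∫ r > 0, 1_Ω(r e^{iθ}) r^(2j) / r * r`, and for fixed `θ` the
`r` with `r e^{iθ} ∈ Ω` are in `(0, Rad]`, `(2j+1) ∫_0^R r^(2j) = R^(2j+1)`. -/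
def S_RA : Prop := ∀ Ω : Set ℂ, IsOpen Ω → Bornology.IsBounded Ω →
  Measurable (Rad Ω) ∧ (∀ θ, 0 ≤ Rad Ω θ) ∧
  (∀ θ, 0 < Rad Ω θ → (Rad Ω θ : ℂ) * exp (θ * I) ∈ frontier Ω) ∧
  ∀ j : ℕ, ENNReal.ofReal (2 * j + 1) * ∫⁻ z in Ω, ENNReal.ofReal (‖z‖ ^ (2 * j) / ‖z‖) ≤
    ∫⁻ θ in Ioo (-Real.pi) Real.pi, ENNReal.ofReal (Rad Ω θ ^ (2 * j + 1))

/-- RC. The angle is locally Lipschitz. For `0 < ε` there is `δ > 0` such that `|θ - θ'| ≤ (1 + ε) |e^{iθ} - e^{iθ'}|` for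
`|θ - θ'| ≤ δ`; and `q |z/|z| - w/|w|| ≤ |z - w|` if `|z|, |w| ≥ q > 0`. Consequence: a set `E` of angles in an interval of length `≤ δ`,
a function `R ≥ q > 0` on `E` and `A ⊇ {R(θ) e^{iθ}}`: `q |E| ≤ (1 + ε) H¹(A)`.
PROOF. `|e^{iθ} - e^{iθ'}| = 2 |sin ((θ-θ')/2)|` and `sin x / x → 1`. `|z/|z| - w/|w||² |z| |w| = |z - w|² - (|z| - |w|)² ≤ |z - w|²`. The
map from `{R(θ) e^{iθ} | θ ∈ E}` to `θ` (well defined, as `e^{iθ}` is injective on a short interval) is Lipschitz with constant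
`(1 + ε)/q`: `LipschitzOnWith.hausdorffMeasure_image_le`, `Real.volume = μH[1]` (`MeasureTheory.hausdorffMeasure_real`). -/
def S_RC : Prop := ∀ ε : ℝ, 0 < ε → ∃ δ : ℝ, 0 < δ ∧ ∀ (E : Set ℝ) (R : ℝ → ℝ) (q : ℝ) (A : Set ℂ),
  (∀ θ ∈ E, ∀ θ' ∈ E, |θ - θ'| ≤ δ) → 0 < q → (∀ θ ∈ E, q ≤ R θ) →
  (∀ θ ∈ E, (R θ : ℂ) * exp (θ * I) ∈ A) →
  ENNReal.ofReal q * volume E ≤ ENNReal.ofReal (1 + ε) * (Measure.hausdorffMeasure 1 : Measure ℂ) A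

/-- RH. Radial projection. USES: RA, RC.
PROOF. Fix `ε > 0`, `δ` from `RC`. Partition `{θ ∈ (-π, π) | 0 < Rad θ, Rad θ e^{iθ} ∈ C}` into the countably many measurable sets
`E_{i,l}` where `(1+ε)^i ≤ Rad θ < (1+ε)^(i+1)` (`i : ℤ`) and `l δ' ≤ θ < (l+1) δ'` (`l : ℤ`, `δ' = min δ 1`), with disjoint
`A_{i,l} := {z ∈ frontier Ω ∩ C | (1+ε)^i ≤ |z| < (1+ε)^(i+1), l δ' ≤ arg z < (l+1) δ'}` (`arg (R e^{iθ}) = θ` for `θ ∈ (-π, π)`, `R > 0`).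
`∫_{E_{i,l}} Rad ≤ (1+ε)^(i+1) |E_{i,l}| ≤ (1+ε)^2 H¹(A_{i,l})` by `RC`; add up, `ε → 0`. -/
def S_RH : Prop := ∀ Ω : Set ℂ, IsOpen Ω → Bornology.IsBounded Ω → ∀ C : Set ℂ, MeasurableSet C →
  ∫⁻ θ in {θ | θ ∈ Ioo (-Real.pi) Real.pi ∧ 0 < Rad Ω θ ∧ (Rad Ω θ : ℂ) * exp (θ * I) ∈ C},
    ENNReal.ofReal (Rad Ω θ) ≤ (Measure.hausdorffMeasure 1 : Measure ℂ) (frontier Ω ∩ C)

/-- RI. The weighted isoperimetric inequality. USES: RA, RH.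
PROOF. By RH the image `ν` of the measure `ofReal (Rad θ) dθ` on `{θ ∈ (-π, π) | 0 < Rad θ}` under `θ ↦ Rad θ e^{iθ}` is at most
`μH[1]` restricted to `frontier Ω`. `∫ ofReal (Rad^(2j+1)) = ∫ ofReal (|z|^(2j)) dν ≤ ∫_{frontier Ω} ofReal (|z|^(2j)) dμH[1]`; then `RA` (4). -/
def S_RI : Prop := ∀ Ω : Set ℂ, IsOpen Ω → Bornology.IsBounded Ω → ∀ j : ℕ,
  ENNReal.ofReal (2 * j + 1) * ∫⁻ z in Ω, ENNReal.ofReal (‖z‖ ^ (2 * j) / ‖z‖) ≤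
    ∫⁻ z in frontier Ω, ENNReal.ofReal (‖z‖ ^ (2 * j)) ∂(Measure.hausdorffMeasure 1)

/-- RE. Comparison with the disk of the same area.
PROOF. `R := √(area Ω / π)`, `f r := (2j+1) r^(2j-1) - 2 j R r^(2j-2)` (`r ≥ 0`, `j ≥ 1`). `f r ≤ R^(2j-1) = f R` for `0 ≤ r ≤ R`
(`f r = r^(2j-2) ((2j+1) r - 2jR)` and `(2j+1) r - 2jR ≤ R`) and `f r ≥ R^(2j-1)` for `r ≥ R`. `∫_{ball 0 R} f(|z|) = 0`
(polar coordinates: `2π (R^(2j+1) - R^(2j+1))`). `∫_Ω f(|z|) = ∫_Ω (f - f R) + f R area Ω ≥ ∫_{ball 0 R} (f - f R) + f R π R² = 0`, because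
`(f(|z|) - f R) (1_Ω - 1_{ball 0 R}) ≥ 0` pointwise. -/
def S_RE : Prop := ∀ Ω : Set ℂ, MeasurableSet Ω → Bornology.IsBounded Ω → ∀ j : ℕ, 1 ≤ j →
  2 * j * √(area Ω / Real.pi) * ∫ z in Ω, ‖z‖ ^ (2 * j - 2) ≤ (2 * j + 1) * ∫ z in Ω, ‖z‖ ^ (2 * j - 1)

/-- FM. Lipschitz boundaries have finite length.
PROOF. The frontier is compact (closed, bounded). For `p` in it take `a, r, L, g` of `LipschitzBoundary`: the set of points
`p + a (s + t i)`, `|s|, |t| < r`, is open, and its intersection with the frontier is contained in the image of `(-r, r)` under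
`s ↦ p + a (s + g s i)` (a point with `t > g s` is in the open set `Ω`, a point with `t < g s` has a neighbourhood without points of `Ω`),
a Lipschitz map, so it has finite `μH[1]` (`LipschitzOnWith.hausdorffMeasure_image_le`). Finitely many of these open sets cover. -/
def S_FM : Prop := ∀ Ω : Set ℂ, LipDomain Ω → (Measure.hausdorffMeasure 1 : Measure ℂ) (frontier Ω) < ⊤

/-- TR. Translations.
PROOF. `T z = z - c` is an isometry: it maps `Ω` to `Ω'`, the frontier to the frontier, preserves `volume` and `μH[1]`; `u ↦ u ∘ T`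
preserves smoothness and both integrals (`fderiv` of `u ∘ T`). For `SymmetryAbove`: `rot c w` is conjugate to `rot 0 w`. -/
def S_TR : Prop := ∀ (Ω : Set ℂ) (c : ℂ), LipDomain Ω →
  LipDomain ((fun z => z - c) '' Ω) ∧ area ((fun z => z - c) '' Ω) = area Ω ∧
  (∀ k, bounds k ((fun z => z - c) '' Ω) ⊆ bounds k Ω) ∧
  ∀ w : ℂ, rot c w '' Ω = Ω → (fun z => w * z) '' ((fun z => z - c) '' Ω) = (fun z => z - c) '' Ω

/-- EP. The energy density of a sum of powers.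
PROOF. `u = f + conj g` with polynomials `f`, `g`: `∂u/∂x = f' + conj g'`, `∂u/∂y = i f' - i conj g'`, `|a + b|² + |a - b|² = 2 (|a|² + |b|²)`. The
derivative of `hf n` at `z` in the direction `v` is `n z^(n-1) v` (`n ≥ 1`), `|n| conj(z)^(|n|-1) conj v` (`n ≤ -1`), `0` (`n = 0`). -/
def S_EP : Prop := ∀ (F : Finset ℤ) (c : ℤ → ℂ),
  ContDiff ℝ ∞ (fun z => ∑ n ∈ F, c n * hf n z) ∧ ∀ z : ℂ,
  ‖fderiv ℝ (fun z => ∑ n ∈ F, c n * hf n z) z 1‖ ^ 2 +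
    ‖fderiv ℝ (fun z => ∑ n ∈ F, c n * hf n z) z I‖ ^ 2 =
  2 * (‖∑ n ∈ F.filter (fun n => 0 < n), c n * n * z ^ (n.toNat - 1)‖ ^ 2 +
    ‖∑ n ∈ F.filter (fun n => n < 0), c n * (-n) * (starRingEnd ℂ z) ^ ((-n).toNat - 1)‖ ^ 2)

/-- OR. Orthogonality. USES: EP.
PROOF. `T z = w z` is a linear isometry with `T Ω = Ω`, `T (frontier Ω) = frontier Ω`, and preserves `volume` and `μH[1]`. So
`∫_{frontier Ω} hf n conj (hf l) = w^(n-l) ∫ ...` is `0` for `n ≠ l` in `F` (as `hf n (w z) = w^n hf n z`, `|w| = 1`); with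
`‖∑ c_n h_n‖² = ∑ ∑ c_n conj c_l h_n conj h_l` (everything bounded, hence integrable on the frontier, of finite measure) the second
formula. The first: `EP`, the mixed terms are `∫_Ω z^(n-1) conj(z)^(l-1)`, `n, l ≥ 1` (resp. its conjugate), multiplied by `w^(n-l)` under `T`. -/
def S_OR : Prop := ∀ (Ω : Set ℂ) (w : ℂ) (F : Finset ℤ) (c : ℤ → ℂ), IsOpen Ω →
  Bornology.IsBounded Ω → (Measure.hausdorffMeasure 1 : Measure ℂ) (frontier Ω) < ⊤ → ‖w‖ = 1 →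
  (fun z => w * z) '' Ω = Ω → (∀ n ∈ F, ∀ l ∈ F, n ≠ l → w ^ (n - l) ≠ 1) →
  energy Ω (fun z => ∑ n ∈ F, c n * hf n z) = ∑ n ∈ F, ‖c n‖ ^ 2 * energy Ω (hf n) ∧
  bdry Ω (fun z => ∑ n ∈ F, c n * hf n z) = ∑ n ∈ F, ‖c n‖ ^ 2 * bdry Ω (hf n)

/-- HB. The Rayleigh quotients of the powers. USES: RI, RE, EP.
PROOF. `j := |n|`. `bdry Ω (hf n) = ∫_{frontier Ω} |z|^(2j)` is finite and at least `(2j+1) ∫_Ω |z|^(2j-1) > 0` by `RI` (for `j = 0`: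
`∫_Ω 1/|z| > 0`). `n = 0`: the energy is `0`. `n ≠ 0`: `energy Ω (hf n) = 2 j² ∫_Ω |z|^(2j-2)` (`EP` with `F = {n}`) `≤ (j/R) (2j+1) ∫_Ω |z|^(2j-1) ≤
(j/R) bdry` by `RE`, `R = √(area Ω/π) > 0`. -/
def S_HB : Prop := ∀ Ω : Set ℂ, IsOpen Ω → Ω.Nonempty → Bornology.IsBounded Ω →
  (Measure.hausdorffMeasure 1 : Measure ℂ) (frontier Ω) < ⊤ → ∀ n : ℤ,
  0 < bdry Ω (hf n) ∧ energy Ω (hf n) ≤ |(n : ℝ)| / √(area Ω / Real.pi) * bdry Ω (hf n)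

/-- UB. The upper bound. USES: FM, TR, OR, HB, EP.
PROOF. By `TR` we may take `c = 0` (`Ω' = Ω - c`; `bounds k Ω' ⊆ bounds k Ω`). `u i := hf (i - k/2)`, `i : Fin (k+1)` (natural division `k/2`), so the
exponents run through `F = {-(k/2), ..., (k+1)/2}`; differences are at most `k` in absolute value, so `w^(n-l) ≠ 1`. For `c ≠ 0`, by `OR` and
`HB`: `bdry = ∑ |c_n|² bdry (hf n) > 0` and `energy ≤ (m / √(area/π)) bdry`. So `m / √(area Ω/π) ∈ bounds k Ω` and `steklov k Ω ≤ m √π / √area`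
(`csInf_le`, bounded below by `0`); multiply by `√area > 0`. -/
def S_UB : Prop := ∀ (k : ℕ) (Ω : Set ℂ), LipDomain Ω → SymmetryAbove k Ω →
  steklov k Ω * √(area Ω) ≤ ((k + 1) / 2 : ℕ) * √Real.pi

/-! ## Part B: the domain `Ω₁` -/

/-- The conformal map, `phi' = (1 + b z^k)²`. -/
noncomputable def phi (k : ℕ) (b : ℝ) (z : ℂ) : ℂ :=
  z + 2 * b / (k + 1) * z ^ (k + 1) + b ^ 2 / (2 * k + 1) * z ^ (2 * k + 1)

/-- The parameter `b = 1/(8m)`. -/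
noncomputable def bk (k : ℕ) : ℝ := 1 / (8 * ((k + 1) / 2 : ℕ))

/-- `f` is entire and close to the identity near the closed unit disk. -/
def Near (f : ℂ → ℂ) (δ : ℝ) : Prop := 0 < δ ∧ Differentiable ℂ f ∧
  ∀ z ∈ closedBall (0 : ℂ) (1 + δ), ∀ w ∈ closedBall (0 : ℂ) (1 + δ),
    ‖f z - f w - (z - w)‖ ≤ 7 / 20 * ‖z - w‖

/-- PN. The map `phi`.
PROOF. Derivative: direct. `|phi' - 1| = |2 b z^k + b² z^(2k)| ≤ 2 b (5/4)... `: for `|z| ≤ 1 + 1/(5k)` one has `|z|^k ≤ exp(1/5) ≤ 1.23`, `b ≤ 1/8`: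
`≤ 0.3075 + 0.0237 ≤ 7/20`; mean value inequality on the convex ball (`Convex.norm_image_sub_le_of_norm_hasDerivWithin_le` for
`phi - id`). `phi (w z) = w phi z` for `w^k = 1`. -/
def S_PN : Prop := ∀ k : ℕ, 2 ≤ k →
  (∀ z, HasDerivAt (phi k (bk k)) ((1 + bk k * z ^ k) ^ 2) z) ∧ Near (phi k (bk k)) (1 / (5 * k)) ∧
  RotSymmetric k (phi k (bk k) '' ball 0 1)

/-- NT. Topology of the image of the disk under a map close to the identity.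
PROOF. Injectivity: `‖f z - f w‖ ≥ (13/20) ‖z - w‖`. Open: open mapping, or `ApproximatesLinearOn` (Mathlib:
`ApproximatesLinearOn.surjOn_closedBall_of_nonlinearRightInverse`, or use `Differentiable` + injective ⇒ `f' ≠ 0`, or the analytic open
mapping theorem). Connected and bounded: image of a connected (compact) set. The closure is contained in the compact `f '' closedBall 0 1`,
and a frontier point is not in the open set `f '' ball 0 1`. (4): `ApproximatesLinearOn` surjectivity on small balls: for `‖ζ‖ ≤ 1`, `‖v‖ ≤ (13/20) δ`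
there is `ζ'` with `f ζ' = f ζ + v`, `‖ζ' - ζ‖ ≤ δ`, and then `(13/20) ‖ζ' - ζ‖ ≤ ‖v‖`, `‖ζ' - ζ - v‖ ≤ (7/20) ‖ζ' - ζ‖`. -/
def S_NT : Prop := ∀ (f : ℂ → ℂ) (δ : ℝ), Near f δ →
  InjOn f (closedBall 0 (1 + δ)) ∧ IsOpen (f '' ball 0 1) ∧ IsConnected (f '' ball 0 1) ∧
  Bornology.IsBounded (f '' ball 0 1) ∧ closure (f '' ball 0 1) ⊆ f '' closedBall 0 1 ∧
  frontier (f '' ball 0 1) ⊆ f '' sphere 0 1 ∧
  ∀ ζ ∈ closedBall (0 : ℂ) 1, ∀ v : ℂ, ‖v‖ ≤ 13 / 20 * δ → ∃ ζ' ∈ closedBall (0 : ℂ) (1 + δ),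
    f ζ' = f ζ + v ∧ 13 / 20 * ‖ζ' - ζ‖ ≤ ‖v‖ ∧ ‖ζ' - ζ - v‖ ≤ 7 / 20 * ‖ζ' - ζ‖

/-- The cone property of the open set `Ω`: near each boundary point `p` there is a direction `e` such that
`q + v ∈ Ω` for all `q` in the closure of `Ω` near `p` and all short `v` in a cone around `e`. -/
def ConeProp (Ω : Set ℂ) : Prop := ∀ p ∈ frontier Ω, ∃ (e : ℂ) (ρ κ : ℝ), ‖e‖ = 1 ∧ 0 < ρ ∧ κ < 1 ∧ 0 < κ ∧
  ∀ q ∈ closure Ω, ‖q - p‖ < ρ → ∀ v : ℂ, v ≠ 0 → ‖v‖ < ρ →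
    κ * ‖v‖ ≤ (v * starRingEnd ℂ e).re → q + v ∈ Ω

/-- CO. The image of the disk has the cone property. USES: NT.
PROOF. `p = f ζ₀`, `|ζ₀| = 1`, `e := -ζ₀`, `κ = 9/10`. `q = f ζ`, `|ζ| ≤ 1`, `|ζ - ζ₀| ≤ (20/13) |q - p|` small. For short `v` in the cone
`ζ'` of `NT` satisfies `f ζ' = q + v`, `v' := ζ' - ζ`, `|v'| ≤ (20/13)|v|`, `|v' - v| ≤ (7/13)|v|`. `|ζ'|² = |ζ|² + 2 Re(v' conj ζ) + |v'|²`,
`Re(v' conj ζ) ≤ Re(v conj ζ₀) + |v' - v| + |v'| |ζ - ζ₀| ≤ (-9/10 + 7/13 + (20/13)|ζ - ζ₀|) |v|`, so `|ζ'|² < 1` if `|ζ - ζ₀|`, `|v|` are small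
(e.g. `≤ 1/10`). -/
def S_CO : Prop := ∀ (f : ℂ → ℂ) (δ : ℝ), Near f δ → ConeProp (f '' ball 0 1)

/-- CL. The cone property implies that the boundary is Lipschitz.
PROOF. `e, ρ, κ` at `p`; `a := -i e` (so `a (s + t i) = t e - s i e`, the direction `t` is `e`). `L := κ/√(1-κ²)` bounds the slope: `v = a (s + t i)` is
in the cone iff `t ≥ κ |v|` iff `t ≥ L |s|`. Take `r > 0` small (`r ≤ ρ/4`, `r ≤ ρ/(4(1+L))`, so that all the points below are within `ρ`), `Q(s,t) := p + a (s + t i)`.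
For `|s| < r` let `T_s := {t | |t| < r₁, Q(s,t) ∈ Ω}` with `r₁ = (1 + 2L) r` or so: (i) `t ∈ T_s`, `t < t' < r₁` ⇒ `t' ∈ T_s`; (ii) `Q(s, t) ∈ Ω` if
`t > L|s|` (cone at `q = p`); (iii) `Q(s,t) ∉ closure Ω` if `t < - L |s|` (else `p ∈ Ω` by the cone at `Q(s,t)`); (iv) `Q(s,t) ∈ closure Ω`,
`t' - t > L |s' - s|` ⇒ `Q(s',t') ∈ Ω`. So `g s := inf T_s`, `|g s| ≤ L|s|`, `g` is `L`-Lipschitz on `(-r, r)` by (iv); `Q(s,t) ∈ Ω ↔ g s < t` for `|s| < r`,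
`|t| < r` (`T_s` is open and upward closed). Extend `g` to the line (`LipschitzOnWith.extend_real`). -/
def S_CL : Prop := ∀ Ω : Set ℂ, IsOpen Ω → ConeProp Ω → LipschitzBoundary Ω

/-- ET. Conformal invariance of the Dirichlet integral.
PROOF. `integral_image_eq_integral_abs_det_fderiv_smul` for `f` on `ball 0 1`; the real determinant of `f'` is `|f'|²`;
`fderiv ℝ (u ∘ f) z v = fderiv ℝ u (f z) (f'(z) v)`, and `|D (a)|² + |D (a i)|² = |a|² (|D 1|² + |D i|²)` for a real linear `D` (expand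
`D (x + y i) = x D 1 + y D i`). -/
def S_ET : Prop := ∀ (f : ℂ → ℂ) (δ : ℝ), Near f δ → ∀ u : ℂ → ℂ, ContDiff ℝ ∞ u →
  energy (f '' ball 0 1) u = energy (ball 0 1) (fun z => u (f z))

/-- BT. The boundary integral. USES: NT.
PROOF. The frontier is contained in the image of `[-π, π]` under `γ θ = f (e^{iθ})` (`NT`), `|γ'| = |f'(e^{iθ})|`. Divide `[-π, π]` into `N` equal
intervals `J_i`; `γ` is Lipschitz on `J_i` with the constant `M_i = sup_{J_i} |γ'|`, so `μH[1] (γ J_i) ≤ M_i 2π/N`, and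
`∫_{frontier} |u|² ≤ ∑ sup_{J_i} |u ∘ γ|² M_i 2π/N`, an upper Riemann type sum which converges to the right side (uniform continuity; it is
convenient to show that it is at most `∫ (|u∘γ|² + ε)(|γ'| + ε)` for large `N`). -/
def S_BT : Prop := ∀ (f : ℂ → ℂ) (δ : ℝ), Near f δ → ∀ u : ℂ → ℂ, Continuous u →
  bdry (f '' ball 0 1) u ≤
    ∫ θ in (-Real.pi)..Real.pi, ‖u (f (exp (θ * I)))‖ ^ 2 * ‖deriv f (exp (θ * I))‖

/-- The Fourier coefficients of the restriction of `w` to the circle of radius `r`. -/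
noncomputable def fcr (w : ℂ → ℂ) (r : ℝ) (n : ℤ) : ℂ :=
  (2 * Real.pi)⁻¹ * ∫ θ in (-Real.pi)..Real.pi, w (r * exp (θ * I)) * exp (-(n * θ * I))

/-- PE. The Dirichlet integral in polar coordinates.
PROOF. `Complex.integral_comp_polarCoord_symm` (or `integral_comp_polarCoord_symm`); with `e = e^{iθ}` the pair `(e, i e)` is an orthonormal
basis, so the density is `|D w (e)|² + |D w (i e)|²`, and `∂_r W = D w (e)`, `∂_θ W = r D w (i e)` for `W(r, θ) = w (r e^{iθ})`. -/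
def S_PE : Prop := ∀ w : ℂ → ℂ, ContDiff ℝ ∞ w →
  energy (ball 0 1) w = ∫ r in (0 : ℝ)..1, (∫ θ in (-Real.pi)..Real.pi,
    (‖fderiv ℝ w (r * exp (θ * I)) (exp (θ * I))‖ ^ 2 +
      ‖fderiv ℝ w (r * exp (θ * I)) (I * exp (θ * I))‖ ^ 2)) * r

/-- FD. Radial derivative and angular derivative of the Fourier coefficients.
PROOF. Differentiation under the integral sign (`hasDerivAt_integral_of_dominated_loc_of_deriv_le`, everything is continuous on compact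
sets) and integration by parts in `θ` (periodic). -/
def S_FD : Prop := ∀ w : ℂ → ℂ, ContDiff ℝ ∞ w → ∀ (n : ℤ) (r : ℝ),
  HasDerivAt (fun r => fcr w r n) ((2 * Real.pi)⁻¹ * ∫ θ in (-Real.pi)..Real.pi,
    fderiv ℝ w (r * exp (θ * I)) (exp (θ * I)) * exp (-(n * θ * I))) r ∧
  I * n * fcr w r n = (2 * Real.pi)⁻¹ * ∫ θ in (-Real.pi)..Real.pi,
    r * fderiv ℝ w (r * exp (θ * I)) (I * exp (θ * I)) * exp (-(n * θ * I))

/-- BE. Bessel's inequality on the circle.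
PROOF. `0 ≤ ∫ ‖g - ∑_F c_n e^{inθ}‖²` with `c_n = (2π)⁻¹ ∫ g e^{-inθ}`; or Mathlib's `Orthonormal.sum_inner_products_le` / `hasSum_sq_fourierCoeff`. -/
def S_BE : Prop := ∀ g : ℝ → ℂ, Continuous g → ∀ F : Finset ℤ,
  2 * Real.pi * ∑ n ∈ F, ‖((2 * Real.pi)⁻¹ : ℂ) *
    ∫ θ in (-Real.pi)..Real.pi, g θ * exp (-(n * θ * I))‖ ^ 2 ≤
  ∫ θ in (-Real.pi)..Real.pi, ‖g θ‖ ^ 2

/-- FB. The Dirichlet integral bounds the Fourier coefficients. USES: PE, FD, BE.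
PROOF. Write `f_n r = fcr w r n`. By `PE`, `BE` (for `∂_r W` and `∂_θ W / r`, with `FD`): `energy ≥ 2π ∑_F ∫_0^1 (|f_n'|² r + n² |f_n|²/r) dr` (for `r > 0`;
`|I n f_n| = |n||f_n|`), and `|f_n'|² r + n² |f_n|²/r ≥ 2 |n| |f_n'| |f_n| ≥ |n| (|f_n|²)'`. Integrate over `(ε, 1)`, `ε → 0`: `f_n(ε) → f_n(0) = 0` for `n ≠ 0`. -/
def S_FB : Prop := ∀ w : ℂ → ℂ, ContDiff ℝ ∞ w → ∀ F : Finset ℤ,
  2 * Real.pi * ∑ n ∈ F, |(n : ℝ)| * ‖fcr w 1 n‖ ^ 2 ≤ energy (ball 0 1) w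

/-- PV. Parseval with the weight.
PROOF. `c n = fcr w 1 n` are the Fourier coefficients of `g θ = w (e^{iθ})` (period `2π`); Mathlib: `hasSum_sq_fourierCoeff`, `fourierBasis`, for `g` and for
`g e^{ikθ}` (whose coefficients are `c (n - k)`): `∫ |g|² = 2π ∑ |c n|²`, `∫ conj g · g e^{ikθ} = 2π ∑ conj (c n) c (n - k)`; real part of the
latter is `∫ |g|² cos kθ`. Re-index. -/
def S_PV : Prop := ∀ w : ℂ → ℂ, Continuous w → ∀ (k : ℕ) (b : ℝ),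
  Summable (fun n : ℤ => ‖fcr w 1 n‖ ^ 2) ∧
  ∫ θ in (-Real.pi)..Real.pi, ‖w (exp (θ * I))‖ ^ 2 * (1 + b ^ 2 + 2 * b * Real.cos (k * θ)) =
    2 * Real.pi * ((1 + b ^ 2) * ∑' n : ℤ, ‖fcr w 1 n‖ ^ 2 +
      2 * b * ∑' n : ℤ, (fcr w 1 n * starRingEnd ℂ (fcr w 1 (n + k))).re)

/-- The `k` conditions on the Fourier coefficients (`m = (k + 1) / 2`). -/
def Cond (k : ℕ) (c : ℤ → ℂ) : Prop :=
  if Odd k then (∀ n : ℤ, |n| + 2 ≤ ((k + 1) / 2 : ℕ) → c n = 0) ∧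
    c (((k + 1) / 2 : ℕ) - 1) = -(1 / 8) * c (-((k + 1) / 2 : ℕ)) ∧
    c (1 - ((k + 1) / 2 : ℕ)) = -(1 / 8) * c ((k + 1) / 2 : ℕ)
  else (∀ n : ℤ, |n| + 1 ≤ ((k + 1) / 2 : ℕ) → c n = 0) ∧
    c ((k + 1) / 2 : ℕ) = -c (-((k + 1) / 2 : ℕ))

/-- JA. The inequality for the Jacobi form.
PROOF. `m = (k+1)/2`, `b = 1/(8m)`, `β = m b = 1/8`, `D_n := |n| - m - 1/(64 m)`; claim: `∑ D_n |c_n|² ≥ ∑ e_n`, `e_n := 2 β Re(c_n conj c_{n+k})`.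
It suffices to find `A_n, B_n` with `e_n ≤ A_n |c_n|² + B_{n+k} |c_{n+k}|²` and `A_n + B_n ≤ D_n` whenever `c_n ≠ 0` (`A`, `B` bounded, all sums converge).
Use `2|x||y| ≤ τ|x|² + |y|²/τ`.
ODD `k = 2m - 1`, `m ≥ 2`: `c_n = 0` for `|n| ≤ m - 2`. `A_n = B_n = 1/8` for `|n| ≥ m + 1` except: `B_{3m-2} = A_{-(3m-2)} = 3/2`, `B_{3m-1} = A_{-(3m-1)} = 11/4` (the edges
to `m - 1`, `-(m-1)`, `m`, `-m`), with `A_{m-1} = B_{-(m-1)} = 1/96`, `A_m = B_{-m} = 1/176`. Critical edge `(-m, m-1)`: `e_{-m} = -(1/32)|c_{-m}|²` and `|c_{m-1}|² =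
|c_{-m}|²/64`, so `A_{-m} + B_{m-1}/64 = -1/32` is allowed: `B_{m-1} := D_{m-1} - 1/96 = -1 - 1/(64m) - 1/96`, `A_{-m} := -1/32 - B_{m-1}/64`; then `A_{-m} + B_{-m} ≤ D_{-m} =
-1/(64m)` for `m ≥ 2`. The same for `(-(m-1), m)` with the roles of `A`, `B` exchanged.
EVEN `k = 2m`, `m ≥ 1`: `c_n = 0` for `|n| ≤ m - 1`; `A = B = 1/8` for `|n| ≥ m+1` except `B_{3m} = A_{-3m} = 3/2`, with `A_m = B_{-m} = 1/96`; critical edge `(-m, m)`: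
`e_{-m} = -(1/4)|c_m|²`, `A_{-m} = B_m = -1/8`. -/
def S_JA : Prop := ∀ k : ℕ, 2 ≤ k → ∀ c : ℤ → ℂ, Summable (fun n : ℤ => |(n : ℝ)| * ‖c n‖ ^ 2) →
  Summable (fun n : ℤ => ‖c n‖ ^ 2) → Cond k c →
  ((k + 1) / 2 : ℕ) * ((1 + bk k ^ 2) * ∑' n : ℤ, ‖c n‖ ^ 2 +
    2 * bk k * ∑' n : ℤ, (c n * starRingEnd ℂ (c (n + k))).re) ≤ ∑' n : ℤ, |(n : ℝ)| * ‖c n‖ ^ 2

/-- LA. A nonzero vector satisfying the `k` conditions.
PROOF. `fcr` is linear in `w`. The conditions are `k` linear equations for `c`: `k = 2m - 1`: for `n = -(m-1), ..., m-1` (`2m - 1` values): `a_n = 0` resp.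
`a_{m-1} + (1/8) a_{-m} = 0`, `a_{-(m-1)} + (1/8) a_m = 0`; `k = 2m`: for `n = -(m-1), ..., m` : `a_n = 0` resp. `a_m + a_{-m} = 0`.
`LinearMap.exists_ne_zero_of_finrank_lt`-type argument (a linear map `ℂ^(k+1) → ℂ^k` is not injective). -/
def S_LA : Prop := ∀ k : ℕ, 2 ≤ k → ∀ u : Fin (k + 1) → ℂ → ℂ, (∀ i, Continuous (u i)) →
  ∃ c : Fin (k + 1) → ℂ, c ≠ 0 ∧ Cond k (fun n => fcr (fun z => ∑ i, c i * u i z) 1 n)

/-- NE. The set of bounds is nonempty. USES: FM, RI.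
PROOF. `u i z = z^i`. `c ↦ bdry Ω (∑ c_i z^i)` is continuous on `ℂ^(k+1)` (a Hermitian form with finite coefficients, `FM`) and positive for `c ≠ 0`: otherwise the
polynomial vanishes `μH[1]`-almost everywhere on the frontier; its zeros are finite in number and `μH[1]` has no atoms, so `μH[1] (frontier Ω) = 0`, against
`RI` for `j = 0`. So it is `≥ μ |c|²`, `μ > 0` (compactness of the unit sphere), while `energy ≤ M |c|²`. -/
def S_NE : Prop := ∀ (k : ℕ) (Ω : Set ℂ), LipDomain Ω → (bounds k Ω).Nonempty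

/-- AR. The area of `Ω₁`. USES: PN, NT.
PROOF. The area is `∫_{ball 0 1} |phi'|² = ∫ |1 + b z^k|⁴` (`lintegral_image_eq_lintegral_abs_det_fderiv_mul`, injectivity from `NT`), `|1 + b z^k|⁴ = (1 + x)² ≥ 1 + 2x`,
`x = 2 b Re z^k + b² |z|^(2k)`, `∫ Re z^k = 0` (rotate by `e^{iπ/k}`), `∫ |z|^(2k) > 0`. -/
def S_AR : Prop := ∀ k : ℕ, 2 ≤ k → Real.pi < area (phi k (bk k) '' ball 0 1)

/-- LB. The lower bound. USES: PN, NT, ET, BT, FB, PV, JA, LA, NE, CO, CL.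
PROOF. `Ω₁ := phi '' ball 0 1` is a `LipDomain` (`NT`, `CO`, `CL`), `bounds` is nonempty (`NE`); let `l ∈ bounds k Ω₁` with `u`. `LA` for `u i ∘ phi` gives `c ≠ 0`; `U := ∑ c_i u_i`,
`w := U ∘ phi` (smooth). `m bdry Ω₁ U ≤ m ∫ |w|² |phi'|` (`BT`) `= m ∫ |w|² (1 + b² + 2 b cos kθ)` (`|1 + b e^{ikθ}|²`) `= 2π m (...)` (`PV`) `≤ 2π ∑ |n| |c_n|²` (`JA`; summability and
the last step by `FB`) `≤ energy (ball 0 1) w = energy Ω₁ U` (`ET`) `≤ l bdry Ω₁ U`, `bdry > 0`: `m ≤ l`. `le_csInf`. -/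
def S_LB : Prop := ∀ k : ℕ, 2 ≤ k → LipDomain (phi k (bk k) '' ball 0 1) ∧
  ((k + 1) / 2 : ℕ) ≤ steklov k (phi k (bk k) '' ball 0 1)

/-- The main theorem. USES: UB, PN, AR, LB. -/
def S_MAIN : Prop := ∀ k : ℕ, 2 ≤ k → ∃ Ω₁ : Set ℂ, LipDomain Ω₁ ∧ RotSymmetric k Ω₁ ∧
  ∀ Ω : Set ℂ, LipDomain Ω → SymmetryAbove k Ω →
    steklov k Ω * √(area Ω) < steklov k Ω₁ * √(area Ω₁)

end Pool.Agent.Helper45.Stek
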