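import Pool.Agent.Helper45.Stek.OR

open MeasureTheory Set Complex Metric
open scoped ContDiff Topology ENNReal

namespace Pool.Agent.Helper45.Stek

theorem norm_hf (n : ℤ) (z : ℂ) : ‖hf n z‖ ^ 2 = ‖z‖ ^ (2 * n.natAbs) := by
  unfold hf
  split_ifs with h
  · rw [norm_pow, ← pow_mul, mul_comm]
    congr 2
    omega
  · rw [norm_pow, RCLike.norm_conj, ← pow_mul, mul_comm]
    congr 2
    omega

theorem norm_papb (n : ℤ) (hn : n ≠ 0) (z : ℂ) : ‖pa n z‖ ^ 2 + ‖pb n z‖ ^ 2 =
    (n.natAbs : ℝ) ^ 2 * ‖z‖ ^ (2 * n.natAbs - 2) := by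
  have hcast : ‖(n : ℂ)‖ = (n.natAbs : ℝ) := by
    rw [Complex.norm_intCast, ← Int.cast_abs, Int.abs_eq_natAbs, Int.cast_natCast]
  rcases lt_or_gt_of_ne hn with h | h
  · have h1 : ¬ 0 < n := by omega
    unfold pa pb
    simp only [h1, if_false, h, if_true, norm_zero]
    rw [norm_mul, norm_neg, hcast, norm_pow, RCLike.norm_conj, mul_pow, ← pow_mul]
    have h2 : ((-n).toNat - 1) * 2 = 2 * n.natAbs - 2 := by omega
    rw [h2]
    ring
  · have h1 : ¬ n < 0 := by omega
    unfold pa pb
    simp only [h1, if_false, h, if_true, norm_zero]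
    rw [norm_mul, hcast, norm_pow, mul_pow, ← pow_mul]
    have h2 : (n.toNat - 1) * 2 = 2 * n.natAbs - 2 := by omega
    rw [h2]
    ring

theorem hb (hRI : S_RI) (hRE : S_RE) : S_HB := by
  intro Ω ho hne hb hfin n
  set j := n.natAbs with hj
  have hbf : Bornology.IsBounded (frontier Ω) := hb.closure.subset frontier_subset_closure
  have hmf : MeasurableSet (frontier Ω) := isClosed_frontier.measurableSet
  have hB : bdry Ω (hf n) = ∫ z in frontier Ω, ‖z‖ ^ (2 * j) ∂(Measure.hausdorffMeasure 1) := by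
    unfold bdry
    congr 1
    ext z
    exact norm_hf n z
  have hBint : IntegrableOn (fun z : ℂ => ‖z‖ ^ (2 * j)) (frontier Ω)
      (Measure.hausdorffMeasure 1) := integrableOn_cont hmf hbf hfin (by fun_prop)
  have hBl : ENNReal.ofReal (bdry Ω (hf n)) =
      ∫⁻ z in frontier Ω, ENNReal.ofReal (‖z‖ ^ (2 * j)) ∂(Measure.hausdorffMeasure 1) := by
    rw [hB]
    apply ofReal_integral_eq_lintegral_ofReal hBint
    exact Filter.Eventually.of_forall (fun z => by positivity)
  have hri := hRI Ω ho hb j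
  rw [← hBl] at hri
  -- positivity
  have hpos : 0 < bdry Ω (hf n) := by
    rw [← ENNReal.ofReal_pos]
    refine lt_of_lt_of_le ?_ hri
    apply ENNReal.mul_pos
    · rw [Ne, ENNReal.ofReal_eq_zero]
      push Not
      positivity
    · apply ne_of_gt
      rw [setLIntegral_pos_iff (by fun_prop)]
      have h1 : Ω \ {0} ⊆ Function.support
          (fun z : ℂ => ENNReal.ofReal (‖z‖ ^ (2 * j) / ‖z‖)) ∩ Ω := by
        intro z hz
        refine ⟨?_, hz.1⟩
        rw [Function.mem_support, Ne, ENNReal.ofReal_eq_zero]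
        push Not
        have : 0 < ‖z‖ := norm_pos_iff.mpr hz.2
        positivity
      refine lt_of_lt_of_le ?_ (measure_mono h1)
      rw [measure_sdiff_null (measure_singleton _)]
      exact ho.measure_pos volume hne
  refine ⟨hpos, ?_⟩
  by_cases hn : n = 0
  · have h0 : energy Ω (hf n) = 0 := by
      rw [energy_eq1 ho hb]
      subst hn
      simp [pa, pb]
    rw [h0]
    positivity
  have hj1 : 1 ≤ j := by omega
  have hA : 0 < area Ω := by
    unfold area
    rw [ENNReal.toReal_pos_iff]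
    exact ⟨ho.measure_pos volume hne, hb.measure_lt_top⟩
  have hR : 0 < √(area Ω / Real.pi) := Real.sqrt_pos.mpr (div_pos hA Real.pi_pos)
  set R := √(area Ω / Real.pi) with hRdef
  have hE : energy Ω (hf n) = 2 * (j : ℝ) ^ 2 * ∫ z in Ω, ‖z‖ ^ (2 * j - 2) := by
    rw [energy_eq1 ho hb, ← mul_add, ← integral_add]
    · have h1 : ∫ z in Ω, (‖pa n z‖ ^ 2 + ‖pb n z‖ ^ 2) =
          (j : ℝ) ^ 2 * ∫ z in Ω, ‖z‖ ^ (2 * j - 2) := by
        rw [← integral_const_mul]
        apply integral_congr_ae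
        exact Filter.Eventually.of_forall (fun z => norm_papb n hn z)
      rw [h1]
      ring
    · have := pa_cont n
      exact integrableOn_cont ho.measurableSet hb hb.measure_lt_top (by fun_prop)
    · have := pb_cont n
      exact integrableOn_cont ho.measurableSet hb hb.measure_lt_top (by fun_prop)
  have hre := hRE Ω ho.measurableSet hb j hj1
  have hri2 : (2 * j + 1) * ∫ z in Ω, ‖z‖ ^ (2 * j - 1) ≤ bdry Ω (hf n) := by
    have h1 : ∀ z : ℂ, ‖z‖ ^ (2 * j) / ‖z‖ = ‖z‖ ^ (2 * j - 1) := by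
      intro z
      have h2 : 2 * j = (2 * j - 1) + 1 := by omega
      by_cases hz : ‖z‖ = 0
      · rw [hz, zero_pow (by omega), zero_pow (by omega), zero_div]
      · conv_lhs => rw [h2, pow_succ]
        field_simp
    simp only [h1] at hri
    rw [← ofReal_integral_eq_lintegral_ofReal, ← ENNReal.ofReal_mul (by positivity),
      ENNReal.ofReal_le_ofReal_iff hpos.le] at hri
    · exact hri
    · exact integrableOn_cont ho.measurableSet hb hb.measure_lt_top (by fun_prop)
    · exact Filter.Eventually.of_forall (fun z => by positivity)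
  have hnj : |(n : ℝ)| = (j : ℝ) := by
    rw [← Int.cast_abs, Int.abs_eq_natAbs, Int.cast_natCast]
  rw [hE, hnj]
  calc 2 * (j : ℝ) ^ 2 * ∫ z in Ω, ‖z‖ ^ (2 * j - 2)
      = (j / R) * (2 * j * R * ∫ z in Ω, ‖z‖ ^ (2 * j - 2)) := by field_simp
    _ ≤ (j / R) * bdry Ω (hf n) :=
        mul_le_mul_of_nonneg_left (hre.trans hri2) (by positivity)

end Pool.Agent.Helper45.Stek
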