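import Pool.Agent.Helper45.Stek.Goals

open MeasureTheory Set Complex Metric
open scoped ContDiff Topology ENNReal

namespace Pool.Agent.Helper45.Stek

/-- The abstract inequality for a Jacobi form. -/
theorem jac (k : ℕ) (D a : ℤ → ℝ) (K : ℝ) (hK : ∀ n, |a n| ≤ K) (c : ℤ → ℂ)
    (hs : Summable (fun n : ℤ => ‖c n‖ ^ 2)) (hD : Summable (fun n : ℤ => D n * ‖c n‖ ^ 2))
    (hedge : ∀ n : ℤ, 1 / 4 * (c n * starRingEnd ℂ (c (n + k))).re ≤
      a n * ‖c n‖ ^ 2 + a (-(n + k)) * ‖c (n + k)‖ ^ 2)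
    (hdiag : ∀ n, (a n + a (-n)) * ‖c n‖ ^ 2 ≤ D n * ‖c n‖ ^ 2) :
    1 / 4 * ∑' n : ℤ, (c n * starRingEnd ℂ (c (n + k))).re ≤ ∑' n : ℤ, D n * ‖c n‖ ^ 2 := by
  have hb : ∀ f : ℤ → ℝ, (∀ n, |f n| ≤ K) → Summable (fun n : ℤ => f n * ‖c n‖ ^ 2) := by
    intro f hf
    apply Summable.of_norm_bounded (g := fun n : ℤ => K * ‖c n‖ ^ 2) (hs.mul_left K)
    intro n
    rw [norm_mul, Real.norm_eq_abs, Real.norm_of_nonneg (by positivity)]
    exact mul_le_mul_of_nonneg_right (hf n) (by positivity)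
  have h1 := hb a hK
  have h2 := hb (fun n => a (-n)) (fun n => hK _)
  have hsk : Summable (fun n : ℤ => ‖c (n + k)‖ ^ 2) :=
    ((Equiv.addRight (k : ℤ)).summable_iff (f := fun n : ℤ => ‖c n‖ ^ 2)).mpr hs
  have h3 : HasSum (fun n : ℤ => a (-(n + k)) * ‖c (n + k)‖ ^ 2)
      (∑' n : ℤ, a (-n) * ‖c n‖ ^ 2) := by
    have h4 := ((Equiv.addRight (k : ℤ)).hasSum_iff
      (f := fun n : ℤ => a (-n) * ‖c n‖ ^ 2)).mpr h2.hasSum
    exact h4
  have hre : Summable (fun n : ℤ => 1 / 4 * (c n * starRingEnd ℂ (c (n + k))).re) := by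
    apply Summable.of_norm_bounded (g := fun n : ℤ => ‖c n‖ ^ 2 + ‖c (n + k)‖ ^ 2) (hs.add hsk)
    intro n
    rw [norm_mul, Real.norm_eq_abs, Real.norm_eq_abs]
    have h5 := Complex.abs_re_le_norm (c n * starRingEnd ℂ (c (n + k)))
    rw [norm_mul, RCLike.norm_conj] at h5
    have h6 : |(1 / 4 : ℝ)| = 1 / 4 := by norm_num
    rw [h6]
    nlinarith [sq_nonneg (‖c n‖ - ‖c (n + k)‖), sq_nonneg (‖c n‖ + ‖c (n + k)‖)]
  rw [← tsum_mul_left]
  calc ∑' n : ℤ, 1 / 4 * (c n * starRingEnd ℂ (c (n + k))).re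
      ≤ ∑' n : ℤ, (a n * ‖c n‖ ^ 2 + a (-(n + k)) * ‖c (n + k)‖ ^ 2) :=
        hre.tsum_le_tsum hedge (h1.add h3.summable)
    _ = ∑' n : ℤ, a n * ‖c n‖ ^ 2 + ∑' n : ℤ, a (-n) * ‖c n‖ ^ 2 := by
        rw [h1.tsum_add h3.summable, h3.tsum_eq]
    _ = ∑' n : ℤ, (a n + a (-n)) * ‖c n‖ ^ 2 := by
        rw [← h1.tsum_add h2]
        congr 1
        ext n
        ring
    _ ≤ ∑' n : ℤ, D n * ‖c n‖ ^ 2 := by
        apply Summable.tsum_le_tsum hdiag _ hD
        have := h1.add h2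
        convert this using 1
        ext n
        ring

/-- The elementary inequality for an edge. -/
theorem edge (x y : ℂ) (α β : ℝ) (hα : 0 ≤ α) (hβ : 0 ≤ β) (h : 1 / 64 ≤ α * β) :
    1 / 4 * (x * starRingEnd ℂ y).re ≤ α * ‖x‖ ^ 2 + β * ‖y‖ ^ 2 := by
  have h1 : (x * starRingEnd ℂ y).re ≤ ‖x‖ * ‖y‖ := by
    refine (Complex.re_le_norm _).trans ?_
    rw [norm_mul, RCLike.norm_conj]
  have h2 : 1 / 4 * (‖x‖ * ‖y‖) ≤ α * ‖x‖ ^ 2 + β * ‖y‖ ^ 2 := by
    have hx := norm_nonneg x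
    have hy := norm_nonneg y
    set X := ‖x‖
    set Y := ‖y‖
    have h3 : (1 / 4 * (X * Y)) ^ 2 ≤ (α * X ^ 2 + β * Y ^ 2) ^ 2 := by
      have h4 : 0 ≤ (α * X ^ 2 - β * Y ^ 2) ^ 2 := sq_nonneg _
      have h5 : 1 / 64 * (X * Y) ^ 2 ≤ α * β * (X * Y) ^ 2 :=
        mul_le_mul_of_nonneg_right h (sq_nonneg _)
      nlinarith
    exact le_of_sq_le_sq h3 (by positivity)
  linarith

/-- The critical edge. -/
theorem edge_crit (x y : ℂ) (t : ℝ) (h : y = -((t : ℂ)) * x) :
    (x * starRingEnd ℂ y).re = -(t * ‖x‖ ^ 2) ∧ ‖y‖ ^ 2 = t ^ 2 * ‖x‖ ^ 2 := by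
  subst h
  constructor
  · rw [map_mul, map_neg, Complex.conj_ofReal]
    have : x * (-(t : ℂ) * starRingEnd ℂ x) = -(t : ℂ) * (x * starRingEnd ℂ x) := by ring
    rw [this, Complex.mul_conj, Complex.normSq_eq_norm_sq]
    have h2 : -(t : ℂ) * ((‖x‖ ^ 2 : ℝ) : ℂ) = ((-(t * ‖x‖ ^ 2) : ℝ) : ℂ) := by
      push_cast
      ring
    rw [h2, Complex.ofReal_re]
  · rw [norm_mul, norm_neg, mul_pow, Complex.norm_real, Real.norm_eq_abs, sq_abs]

/-- The weights in the odd case. -/
noncomputable def aOdd (m : ℕ) (n : ℤ) : ℝ :=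
  if n = m - 1 then 1 / 96
  else if n = m then 1 / 176
  else if n = -m then -1 / 32 + (1 + 1 / (64 * m) + 1 / 96) / 64
  else if n = -(m - 1) then -(1 + 1 / (64 * m) + 1 / 96)
  else if n = -(3 * m - 2) then 3 / 2
  else if n = -(3 * m - 1) then 11 / 4
  else 1 / 8

/-- The weights in the even case. -/
noncomputable def aEven (m : ℕ) (n : ℤ) : ℝ :=
  if n = m then 1 / 96
  else if n = -m then -1 / 8
  else if n = -(3 * m) then 3 / 2
  else 1 / 8

theorem inv_bound (m : ℕ) (hm : 1 ≤ m) : (0 : ℝ) < 1 / (64 * m) ∧ (1 : ℝ) / (64 * m) ≤ 1 / 64 := by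
  have h1 : (1 : ℝ) ≤ m := by exact_mod_cast hm
  constructor
  · positivity
  · rw [div_le_div_iff₀ (by positivity) (by norm_num)]
    linarith

theorem inv_bound2 (m : ℕ) (hm : 2 ≤ m) : (0 : ℝ) < 1 / (64 * m) ∧ (1 : ℝ) / (64 * m) ≤ 1 / 128 := by
  have h1 : (2 : ℝ) ≤ m := by exact_mod_cast hm
  constructor
  · positivity
  · rw [div_le_div_iff₀ (by positivity) (by norm_num)]
    linarith

theorem aOdd_bound (m : ℕ) (hm : 2 ≤ m) (n : ℤ) : |aOdd m n| ≤ 3 := by
  obtain ⟨h1, h2⟩ := inv_bound2 m hm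
  unfold aOdd
  split_ifs <;> rw [abs_le] <;> constructor <;> linarith

theorem aEven_bound (m : ℕ) (n : ℤ) : |aEven m n| ≤ 3 := by
  unfold aEven
  split_ifs <;> rw [abs_le] <;> constructor <;> norm_num

theorem ja_odd (m : ℕ) (hm : 2 ≤ m) (c : ℤ → ℂ) (hs : Summable (fun n : ℤ => ‖c n‖ ^ 2))
    (hD : Summable (fun n : ℤ => (|(n : ℝ)| - m - 1 / (64 * m)) * ‖c n‖ ^ 2))
    (h0 : ∀ n : ℤ, |n| + 2 ≤ m → c n = 0) (h1 : c (m - 1) = -(1 / 8) * c (-m))
    (h2 : c (1 - m) = -(1 / 8) * c m) :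
    1 / 4 * ∑' n : ℤ, (c n * starRingEnd ℂ (c (n + (2 * m - 1 : ℕ)))).re ≤
      ∑' n : ℤ, (|(n : ℝ)| - m - 1 / (64 * m)) * ‖c n‖ ^ 2 := by
  obtain ⟨hi1, hi2⟩ := inv_bound2 m hm
  have hkc : (((2 * m - 1 : ℕ) : ℕ) : ℤ) = 2 * m - 1 := by omega
  apply jac (2 * m - 1) _ (aOdd m) 3 (aOdd_bound m hm) c hs hD
  · intro n
    rw [hkc]
    by_cases e1 : n = m - 1
    · have v1 : aOdd m n = 1 / 96 := by simp only [aOdd, e1, if_true]
      have v2 : aOdd m (-(n + (2 * m - 1))) = 3 / 2 := by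
        unfold aOdd
        split_ifs <;> first | omega | rfl
      rw [v1, v2]
      exact edge _ _ _ _ (by norm_num) (by norm_num) (by norm_num)
    by_cases e2 : n = m
    · have v1 : aOdd m n = 1 / 176 := by
        unfold aOdd
        split_ifs <;> first | omega | rfl
      have v2 : aOdd m (-(n + (2 * m - 1))) = 11 / 4 := by
        unfold aOdd
        split_ifs <;> first | omega | rfl
      rw [v1, v2]
      exact edge _ _ _ _ (by norm_num) (by norm_num) (by norm_num)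
    by_cases e3 : n = -m
    · have v1 : aOdd m n = -1 / 32 + (1 + 1 / (64 * m) + 1 / 96) / 64 := by
        unfold aOdd
        split_ifs <;> first | omega | rfl
      have v2 : aOdd m (-(n + (2 * m - 1))) = -(1 + 1 / (64 * m) + 1 / 96) := by
        unfold aOdd
        split_ifs <;> first | omega | rfl
      have e4 : n + (2 * m - 1) = (m : ℤ) - 1 := by omega
      have e5 := edge_crit (c n) (c (n + (2 * m - 1))) (1 / 8) (by
        rw [e4, h1, e3]
        push_cast
        ring)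
      rw [v1, v2, e5.1, e5.2]
      apply le_of_eq
      ring
    by_cases e4 : n = -(m - 1)
    · have v1 : aOdd m n = -(1 + 1 / (64 * m) + 1 / 96) := by
        unfold aOdd
        split_ifs <;> first | omega | rfl
      have v2 : aOdd m (-(n + (2 * m - 1))) = -1 / 32 + (1 + 1 / (64 * m) + 1 / 96) / 64 := by
        unfold aOdd
        split_ifs <;> first | omega | rfl
      have e5 : n + (2 * m - 1) = (m : ℤ) := by omega
      have e6 : n = 1 - (m : ℤ) := by omega
      have e7 := edge_crit (c (n + (2 * m - 1))) (c n) (1 / 8) (by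
        rw [e5, e6, h2]
        push_cast
        ring)
      have e8 : (c n * starRingEnd ℂ (c (n + (2 * m - 1)))).re =
          (c (n + (2 * m - 1)) * starRingEnd ℂ (c n)).re := by
        rw [← Complex.conj_re (c n * starRingEnd ℂ (c (n + (2 * m - 1)))), map_mul,
          Complex.conj_conj, mul_comm]
      rw [v1, v2, e8, e7.1, e7.2]
      apply le_of_eq
      ring
    by_cases e5 : n = -(3 * m - 2)
    · have v1 : aOdd m n = 3 / 2 := by
        unfold aOdd
        split_ifs <;> first | omega | rfl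
      have v2 : aOdd m (-(n + (2 * m - 1))) = 1 / 96 := by
        unfold aOdd
        split_ifs <;> first | omega | rfl
      rw [v1, v2]
      exact edge _ _ _ _ (by norm_num) (by norm_num) (by norm_num)
    by_cases e6 : n = -(3 * m - 1)
    · have v1 : aOdd m n = 11 / 4 := by
        unfold aOdd
        split_ifs <;> first | omega | rfl
      have v2 : aOdd m (-(n + (2 * m - 1))) = 1 / 176 := by
        unfold aOdd
        split_ifs <;> first | omega | rfl
      rw [v1, v2]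
      exact edge _ _ _ _ (by norm_num) (by norm_num) (by norm_num)
    · have v1 : aOdd m n = 1 / 8 := by
        unfold aOdd
        split_ifs <;> first | omega | rfl
      have v2 : aOdd m (-(n + (2 * m - 1))) = 1 / 8 := by
        unfold aOdd
        split_ifs <;> first | omega | rfl
      rw [v1, v2]
      exact edge _ _ _ _ (by norm_num) (by norm_num) (by norm_num)
  · intro n
    by_cases hn : |n| + 2 ≤ m
    · rw [h0 n hn]
      simp
    apply mul_le_mul_of_nonneg_right _ (by positivity)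
    have hm2 : (2 : ℝ) ≤ m := by exact_mod_cast hm
    have habs : |(n : ℝ)| = ((|n| : ℤ) : ℝ) := by rw [Int.cast_abs]
    rw [habs]
    rcases abs_cases n with ⟨ha, hn0⟩ | ⟨ha, hn0⟩
    all_goals
      rw [ha] at hn ⊢
      unfold aOdd
      split_ifs <;> first
        | omega
        | (subst_vars; push_cast; linarith)
        | (have hcast : (m : ℝ) + 1 ≤ ((n : ℤ) : ℝ) := by
            have : (m : ℤ) + 1 ≤ n := by omega
            exact_mod_cast this
           linarith)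
        | (have hcast : (m : ℝ) + 1 ≤ ((-n : ℤ) : ℝ) := by
            have : (m : ℤ) + 1 ≤ -n := by omega
            exact_mod_cast this
           linarith)
        | (have hcast : 3 * (m : ℝ) - 2 ≤ ((n : ℤ) : ℝ) := by
            have : 3 * (m : ℤ) - 2 ≤ n := by omega
            exact_mod_cast this
           linarith)
        | (have hcast : 3 * (m : ℝ) - 1 ≤ ((n : ℤ) : ℝ) := by
            have : 3 * (m : ℤ) - 1 ≤ n := by omega
            exact_mod_cast this
           linarith)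

theorem ja_even (m : ℕ) (hm : 1 ≤ m) (c : ℤ → ℂ) (hs : Summable (fun n : ℤ => ‖c n‖ ^ 2))
    (hD : Summable (fun n : ℤ => (|(n : ℝ)| - m - 1 / (64 * m)) * ‖c n‖ ^ 2))
    (h0 : ∀ n : ℤ, |n| + 1 ≤ m → c n = 0) (h1 : c m = -c (-m)) :
    1 / 4 * ∑' n : ℤ, (c n * starRingEnd ℂ (c (n + (2 * m : ℕ)))).re ≤
      ∑' n : ℤ, (|(n : ℝ)| - m - 1 / (64 * m)) * ‖c n‖ ^ 2 := by
  obtain ⟨hi1, hi2⟩ := inv_bound m hm
  have hkc : (((2 * m : ℕ) : ℕ) : ℤ) = 2 * m := by omega
  apply jac (2 * m) _ (aEven m) 3 (aEven_bound m) c hs hD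
  · intro n
    rw [hkc]
    by_cases e2 : n = m
    · have v1 : aEven m n = 1 / 96 := by
        unfold aEven
        split_ifs <;> first | omega | rfl
      have v2 : aEven m (-(n + 2 * m)) = 3 / 2 := by
        unfold aEven
        split_ifs <;> first | omega | rfl
      rw [v1, v2]
      exact edge _ _ _ _ (by norm_num) (by norm_num) (by norm_num)
    by_cases e3 : n = -m
    · have v1 : aEven m n = -1 / 8 := by
        unfold aEven
        split_ifs <;> first | omega | rfl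
      have v2 : aEven m (-(n + 2 * m)) = -1 / 8 := by
        unfold aEven
        split_ifs <;> first | omega | rfl
      have e4 : n + 2 * m = (m : ℤ) := by omega
      have e5 := edge_crit (c n) (c (n + 2 * m)) 1 (by
        rw [e4, h1, e3]
        push_cast
        ring)
      rw [v1, v2, e5.1, e5.2]
      apply le_of_eq
      ring
    by_cases e5 : n = -(3 * m)
    · have v1 : aEven m n = 3 / 2 := by
        unfold aEven
        split_ifs <;> first | omega | rfl
      have v2 : aEven m (-(n + 2 * m)) = 1 / 96 := by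
        unfold aEven
        split_ifs <;> first | omega | rfl
      rw [v1, v2]
      exact edge _ _ _ _ (by norm_num) (by norm_num) (by norm_num)
    · have v1 : aEven m n = 1 / 8 := by
        unfold aEven
        split_ifs <;> first | omega | rfl
      have v2 : aEven m (-(n + 2 * m)) = 1 / 8 := by
        unfold aEven
        split_ifs <;> first | omega | rfl
      rw [v1, v2]
      exact edge _ _ _ _ (by norm_num) (by norm_num) (by norm_num)
  · intro n
    by_cases hn : |n| + 1 ≤ m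
    · rw [h0 n hn]
      simp
    apply mul_le_mul_of_nonneg_right _ (by positivity)
    have hm2 : (1 : ℝ) ≤ m := by exact_mod_cast hm
    have habs : |(n : ℝ)| = ((|n| : ℤ) : ℝ) := by rw [Int.cast_abs]
    rw [habs]
    rcases abs_cases n with ⟨ha, hn0⟩ | ⟨ha, hn0⟩
    all_goals
      rw [ha] at hn ⊢
      unfold aEven
      split_ifs <;> first
        | omega
        | (subst_vars; push_cast; linarith)
        | (have hcast : (m : ℝ) + 1 ≤ ((n : ℤ) : ℝ) := by
            have : (m : ℤ) + 1 ≤ n := by omega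
            exact_mod_cast this
           linarith)
        | (have hcast : (m : ℝ) + 1 ≤ ((-n : ℤ) : ℝ) := by
            have : (m : ℤ) + 1 ≤ -n := by omega
            exact_mod_cast this
           linarith)
        | (have hcast : 3 * (m : ℝ) ≤ ((n : ℤ) : ℝ) := by
            have : 3 * (m : ℤ) ≤ n := by omega
            exact_mod_cast this
           linarith)

theorem ja : S_JA := by
  intro k hk c hs1 hs hcond
  set m := (k + 1) / 2 with hm
  have hm1 : 1 ≤ m := by omega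
  have hm0 : (0 : ℝ) < m := by exact_mod_cast hm1
  have hbk : bk k = 1 / (8 * m) := rfl
  have hD : Summable (fun n : ℤ => (|(n : ℝ)| - m - 1 / (64 * m)) * ‖c n‖ ^ 2) := by
    have h3 := (hs1.sub (hs.mul_left (m : ℝ))).sub (hs.mul_left (1 / (64 * (m : ℝ))))
    have e : (fun n : ℤ => (|(n : ℝ)| - m - 1 / (64 * m)) * ‖c n‖ ^ 2) =
        fun n : ℤ => |(n : ℝ)| * ‖c n‖ ^ 2 - (m : ℝ) * ‖c n‖ ^ 2 -
          1 / (64 * (m : ℝ)) * ‖c n‖ ^ 2 := by
      ext n
      ring
    rw [e]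
    exact h3
  have hsumD : ∑' n : ℤ, (|(n : ℝ)| - m - 1 / (64 * m)) * ‖c n‖ ^ 2 =
      ∑' n : ℤ, |(n : ℝ)| * ‖c n‖ ^ 2 - m * ∑' n : ℤ, ‖c n‖ ^ 2 -
        1 / (64 * m) * ∑' n : ℤ, ‖c n‖ ^ 2 := by
    rw [← tsum_mul_left, ← tsum_mul_left, ← hs1.tsum_sub (hs.mul_left _),
      ← (hs1.sub (hs.mul_left _)).tsum_sub (hs.mul_left _)]
    congr 1
    ext n
    ring
  have key : 1 / 4 * ∑' n : ℤ, (c n * starRingEnd ℂ (c (n + k))).re ≤
      ∑' n : ℤ, (|(n : ℝ)| - m - 1 / (64 * m)) * ‖c n‖ ^ 2 := by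
    unfold Cond at hcond
    rw [← hm] at hcond
    by_cases hodd : Odd k
    · simp only [hodd, if_true] at hcond
      obtain ⟨t, ht⟩ := hodd
      have hkm : k = 2 * m - 1 := by omega
      have := ja_odd m (by omega) c hs hD hcond.1 hcond.2.1 hcond.2.2
      rw [← hkm] at this
      exact this
    · simp only [hodd, if_false] at hcond
      rw [Nat.not_odd_iff_even] at hodd
      obtain ⟨t, ht⟩ := hodd
      have hkm : k = 2 * m := by omega
      have := ja_even m hm1 c hs hD hcond.1 hcond.2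
      rw [← hkm] at this
      exact this
  rw [hsumD] at key
  rw [hbk]
  have e1 : (m : ℝ) * ((1 + (1 / (8 * (m : ℝ))) ^ 2) * ∑' n : ℤ, ‖c n‖ ^ 2 +
      2 * (1 / (8 * (m : ℝ))) * ∑' n : ℤ, (c n * starRingEnd ℂ (c (n + k))).re) =
      m * ∑' n : ℤ, ‖c n‖ ^ 2 + 1 / (64 * m) * ∑' n : ℤ, ‖c n‖ ^ 2 +
        1 / 4 * ∑' n : ℤ, (c n * starRingEnd ℂ (c (n + k))).re := by
    field_simp
    ring
  rw [e1]
  linarith

end Pool.Agent.Helper45.Stek
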