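import Pool.Agent.Helper45.Stek.Goals

open MeasureTheory Set Complex Metric
open scoped ContDiff Topology ENNReal

namespace Pool.Agent.Helper45.Stek

/-- Final assembly of the main theorem. -/
theorem main (hUB : S_UB) (hPN : S_PN) (hAR : S_AR) (hLB : S_LB) : S_MAIN := by
  intro k hk
  refine ⟨phi k (bk k) '' ball 0 1, (hLB k hk).1, (hPN k hk).2.2, ?_⟩
  intro Ω hΩ hsym
  have h1 := hUB k Ω hΩ hsym
  have h2 := hAR k hk
  have h3 := (hLB k hk).2
  have hm : (1 : ℝ) ≤ ((k + 1) / 2 : ℕ) := by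
    have : 1 ≤ (k + 1) / 2 := by omega
    exact_mod_cast this
  have h4 : √Real.pi < √(area (phi k (bk k) '' ball 0 1)) :=
    Real.sqrt_lt_sqrt Real.pi_pos.le h2
  calc steklov k Ω * √(area Ω) ≤ ((k + 1) / 2 : ℕ) * √Real.pi := h1
    _ < ((k + 1) / 2 : ℕ) * √(area (phi k (bk k) '' ball 0 1)) := by
        apply mul_lt_mul_of_pos_left h4; linarith
    _ ≤ _ := mul_le_mul_of_nonneg_right h3 (Real.sqrt_nonneg _)

/-- The lower bound. -/
theorem lb (hPN : S_PN) (hNT : S_NT) (hET : S_ET) (hBT : S_BT) (hFB : S_FB) (hPV : S_PV)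
    (hJA : S_JA) (hLA : S_LA) (hNE : S_NE) (hCO : S_CO) (hCL : S_CL) : S_LB := by
  intro k hk
  obtain ⟨hder, hnear, -⟩ := hPN k hk
  obtain ⟨-, hop, hconn, hbd, -, -, -⟩ := hNT _ _ hnear
  have hdom : LipDomain (phi k (bk k) '' ball 0 1) :=
    ⟨hop, hconn, hbd, hCL _ hop (hCO _ _ hnear)⟩
  refine ⟨hdom, ?_⟩
  have hkpos : 1 ≤ (k + 1) / 2 := by omega
  have hm : (0 : ℝ) < ((k + 1) / 2 : ℕ) := by
    have : 0 < (k + 1) / 2 := by omega
    exact_mod_cast this
  refine le_csInf (hNE k _ hdom) ?_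
  rintro l ⟨hl0, u, hu, hl⟩
  have hphi : ContDiff ℝ ∞ (phi k (bk k)) := by
    unfold phi
    fun_prop
  obtain ⟨c, hc, hcond⟩ := hLA k hk (fun i z => u i (phi k (bk k) z))
    (fun i => (hu i).continuous.comp hphi.continuous)
  obtain ⟨hpos, hle⟩ := hl c hc
  set U : ℂ → ℂ := fun z => ∑ i, c i * u i z with hU
  have hUs : ContDiff ℝ ∞ U := by
    rw [hU]
    apply ContDiff.sum
    intro i _
    exact contDiff_const.mul (hu i)
  set w : ℂ → ℂ := fun z => U (phi k (bk k) z) with hw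
  have hws : ContDiff ℝ ∞ w := hUs.comp hphi
  -- summability
  have hFBw := hFB w hws
  have hsum1 : Summable (fun n : ℤ => |(n : ℝ)| * ‖fcr w 1 n‖ ^ 2) := by
    apply summable_of_sum_le (c := energy (ball 0 1) w / (2 * Real.pi))
    · intro n; positivity
    · intro F
      rw [le_div_iff₀ (by positivity)]
      have := hFBw F
      linarith
  have htsum : 2 * Real.pi * ∑' n : ℤ, |(n : ℝ)| * ‖fcr w 1 n‖ ^ 2 ≤ energy (ball 0 1) w := by
    have h : ∑' n : ℤ, |(n : ℝ)| * ‖fcr w 1 n‖ ^ 2 ≤ energy (ball 0 1) w / (2 * Real.pi) := by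
      apply Real.tsum_le_of_sum_le
      · intro n; positivity
      · intro F
        rw [le_div_iff₀ (by positivity)]
        have := hFBw F
        linarith
    rw [le_div_iff₀ (by positivity)] at h
    linarith
  obtain ⟨hsum0, hpv⟩ := hPV w hws.continuous k (bk k)
  have hja := hJA k hk (fun n => fcr w 1 n) hsum1 hsum0 hcond
  have hbt := hBT _ _ hnear U hUs.continuous
  have hint : ∫ θ in (-Real.pi)..Real.pi, ‖U (phi k (bk k) (exp (θ * I)))‖ ^ 2 *
        ‖deriv (phi k (bk k)) (exp (θ * I))‖ =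
      ∫ θ in (-Real.pi)..Real.pi, ‖w (exp (θ * I))‖ ^ 2 *
        (1 + bk k ^ 2 + 2 * bk k * Real.cos (k * θ)) := by
    congr 1
    ext θ
    rw [(hder _).deriv]
    have h1 : ‖(1 + (bk k : ℂ) * exp (θ * I) ^ k) ^ 2‖ =
        1 + bk k ^ 2 + 2 * bk k * Real.cos (k * θ) := by
      rw [norm_pow, ← Complex.exp_nat_mul]
      have h2 : (k : ℂ) * (θ * I) = ((k * θ : ℝ) : ℂ) * I := by push_cast; ring
      rw [h2, Complex.sq_norm, Complex.normSq_apply]
      have hre : (1 + (bk k : ℂ) * exp (((k * θ : ℝ) : ℂ) * I)).re = 1 + bk k * Real.cos (k * θ) := by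
        rw [Complex.add_re, Complex.re_ofReal_mul, Complex.exp_ofReal_mul_I_re, Complex.one_re]
      have him : (1 + (bk k : ℂ) * exp (((k * θ : ℝ) : ℂ) * I)).im = bk k * Real.sin (k * θ) := by
        rw [Complex.add_im, Complex.im_ofReal_mul, Complex.exp_ofReal_mul_I_im, Complex.one_im,
          zero_add]
      rw [hre, him]
      have := Real.sin_sq_add_cos_sq (k * θ)
      nlinarith [this]
    rw [h1]
  rw [hint, hpv] at hbt
  have hen := hET _ _ hnear U hUs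
  have key : ((k + 1) / 2 : ℕ) * bdry (phi k (bk k) '' ball 0 1) U ≤
      l * bdry (phi k (bk k) '' ball 0 1) U := by
    calc ((k + 1) / 2 : ℕ) * bdry (phi k (bk k) '' ball 0 1) U
        ≤ ((k + 1) / 2 : ℕ) * (2 * Real.pi * ((1 + bk k ^ 2) * ∑' n : ℤ, ‖fcr w 1 n‖ ^ 2 +
      2 * bk k * ∑' n : ℤ, (fcr w 1 n * starRingEnd ℂ (fcr w 1 (n + k))).re)) :=
          mul_le_mul_of_nonneg_left hbt hm.le
      _ = 2 * Real.pi * (((k + 1) / 2 : ℕ) * ((1 + bk k ^ 2) * ∑' n : ℤ, ‖fcr w 1 n‖ ^ 2 +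
      2 * bk k * ∑' n : ℤ, (fcr w 1 n * starRingEnd ℂ (fcr w 1 (n + k))).re)) := by ring
      _ ≤ 2 * Real.pi * ∑' n : ℤ, |(n : ℝ)| * ‖fcr w 1 n‖ ^ 2 :=
          mul_le_mul_of_nonneg_left hja (by positivity)
      _ ≤ energy (ball 0 1) w := htsum
      _ = energy (phi k (bk k) '' ball 0 1) U := hen.symm
      _ ≤ _ := hle
  exact le_of_mul_le_mul_right key hpos

end Pool.Agent.Helper45.Stek
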