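import Pool.Agent.Helper45.Stek.RH

open MeasureTheory Set Complex Metric
open scoped ContDiff Topology ENNReal

namespace Pool.Agent.Helper45.Stek

theorem ri : S_RI := by
  intro Ω ho hb j
  refine (ra_int ho hb j).trans ?_
  have hRm := Rad_meas ho hb
  have hR0 := Rad_nonneg hb
  set T : Set ℝ := {θ | θ ∈ Ioo (-Real.pi) Real.pi ∧ 0 < Rad Ω θ} with hT
  have hTm : MeasurableSet T := measurableSet_Ioo.inter (measurableSet_lt measurable_const hRm)
  set Φ : ℝ → ℂ := fun θ => (Rad Ω θ : ℂ) * exp (θ * I) with hΦ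
  have hΦm : Measurable Φ := by
    apply Measurable.mul
    · exact Complex.measurable_ofReal.comp hRm
    · fun_prop
  set ν : Measure ℂ := Measure.map Φ
    ((volume.restrict T).withDensity (fun θ => ENNReal.ofReal (Rad Ω θ))) with hν
  have hνle : ν ≤ (Measure.hausdorffMeasure 1 : Measure ℂ).restrict (frontier Ω) := by
    rw [Measure.le_iff]
    intro C hC
    rw [hν, Measure.map_apply hΦm hC, withDensity_apply _ (hΦm hC),
      Measure.restrict_restrict (hΦm hC), Measure.restrict_apply hC, inter_comm C]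
    have h1 : Φ ⁻¹' C ∩ T = {θ | θ ∈ Ioo (-Real.pi) Real.pi ∧ 0 < Rad Ω θ ∧
        (Rad Ω θ : ℂ) * exp (θ * I) ∈ C} := by
      ext θ
      constructor
      · rintro ⟨h1, h2, h3⟩
        exact ⟨h2, h3, h1⟩
      · rintro ⟨h1, h2, h3⟩
        exact ⟨h3, h1, h2⟩
    rw [h1]
    exact rh Ω ho hb C hC
  have hgm : Measurable (fun z : ℂ => ENNReal.ofReal (‖z‖ ^ (2 * j))) := by fun_prop
  have h2 : ∫⁻ z, ENNReal.ofReal (‖z‖ ^ (2 * j)) ∂ν ≤
      ∫⁻ z in frontier Ω, ENNReal.ofReal (‖z‖ ^ (2 * j)) ∂(Measure.hausdorffMeasure 1) :=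
    lintegral_mono' hνle le_rfl
  refine le_trans (le_of_eq ?_) h2
  have hm1 : Measurable (fun θ => ENNReal.ofReal (Rad Ω θ)) := ENNReal.measurable_ofReal.comp hRm
  have hm2 : Measurable (fun θ => ENNReal.ofReal (‖Φ θ‖ ^ (2 * j))) := hgm.comp hΦm
  rw [hν, lintegral_map hgm hΦm, lintegral_withDensity_eq_lintegral_mul _ hm1 hm2]
  have h3 : ∀ θ, ((fun θ => ENNReal.ofReal (Rad Ω θ)) * fun θ => ENNReal.ofReal (‖Φ θ‖ ^ (2 * j))) θ =
      ENNReal.ofReal (Rad Ω θ ^ (2 * j + 1)) := by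
    intro θ
    simp only [Pi.mul_apply]
    rw [← ENNReal.ofReal_mul (hR0 θ)]
    congr 1
    simp only [hΦ]
    rw [norm_mul, Complex.norm_exp_ofReal_mul_I, mul_one, Complex.norm_real,
      Real.norm_of_nonneg (hR0 θ)]
    ring
  simp only [h3]
  rw [← lintegral_indicator measurableSet_Ioo, ← lintegral_indicator hTm]
  congr 1
  ext θ
  by_cases hθ : θ ∈ Ioo (-Real.pi) Real.pi
  · by_cases hp : 0 < Rad Ω θ
    · rw [indicator_of_mem hθ, indicator_of_mem (show θ ∈ T from ⟨hθ, hp⟩)]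
    · rw [indicator_of_mem hθ, indicator_of_notMem (fun h : θ ∈ T => hp h.2)]
      have h4 : Rad Ω θ = 0 := le_antisymm (not_lt.mp hp) (hR0 θ)
      rw [h4, zero_pow (by omega), ENNReal.ofReal_zero]
  · rw [indicator_of_notMem hθ, indicator_of_notMem (fun h : θ ∈ T => hθ h.1)]

end Pool.Agent.Helper45.Stek
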