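import Pool.Agent.Helper45.Stek.HB
import Pool.Agent.Helper45.Stek.ET
import Pool.Agent.Helper45.Stek.RI
import Pool.Agent.Helper45.Stek.RE
import Pool.Agent.Helper45.Stek.FM

open MeasureTheory Set Complex Metric
open scoped ContDiff Topology ENNReal

namespace Pool.Agent.Helper45.Stek

/-- The integral of the squared norm of a linear combination is continuous in the coefficients. -/
theorem quad_cont {k : ℕ} {μ : Measure ℂ} {S : Set ℂ} (hS : MeasurableSet S)
    (hb : Bornology.IsBounded S) (hfin : μ S < ⊤) (a : Fin (k + 1) → ℂ → ℂ)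
    (ha : ∀ i, Continuous (a i)) :
    Continuous (fun c : Fin (k + 1) → ℂ => ∫ z in S, ‖∑ i, c i * a i z‖ ^ 2 ∂μ) := by
  have h1 : ∀ c : Fin (k + 1) → ℂ, ∫ z in S, ‖∑ i, c i * a i z‖ ^ 2 ∂μ =
      (∑ i, ∑ j, c i * starRingEnd ℂ (c j) * ∫ z in S, a i z * starRingEnd ℂ (a j z) ∂μ).re := by
    intro c
    have hint : ∀ i j, IntegrableOn (fun z => c i * starRingEnd ℂ (c j) *
        (a i z * starRingEnd ℂ (a j z))) S μ := by
      intro i j
      have := ha i
      have := ha j
      exact integrableOn_cont hS hb hfin (by fun_prop)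
    have h2 : ((∫ z in S, ‖∑ i, c i * a i z‖ ^ 2 ∂μ : ℝ) : ℂ) =
        ∑ i, ∑ j, c i * starRingEnd ℂ (c j) * ∫ z in S, a i z * starRingEnd ℂ (a j z) ∂μ := by
      rw [← integral_complex_ofReal]
      have h3 : ∀ z, (((‖∑ i, c i * a i z‖ ^ 2 : ℝ)) : ℂ) =
          ∑ i, ∑ j, c i * starRingEnd ℂ (c j) * (a i z * starRingEnd ℂ (a j z)) := by
        intro z
        have h4 : ∑ i, ∑ j, c i * starRingEnd ℂ (c j) * (a i z * starRingEnd ℂ (a j z)) =
            (∑ i, c i * a i z) * ∑ j, starRingEnd ℂ (c j * a j z) := by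
          rw [Finset.sum_mul_sum]
          apply Finset.sum_congr rfl
          intro i _
          apply Finset.sum_congr rfl
          intro j _
          rw [map_mul]
          ring
        rw [h4, ← map_sum, Complex.mul_conj, Complex.normSq_eq_norm_sq]
      simp only [h3]
      rw [integral_finsetSum _ (fun i _ => integrable_finsetSum _ (fun j _ => hint i j))]
      apply Finset.sum_congr rfl
      intro i _
      rw [integral_finsetSum _ (fun j _ => hint i j)]
      apply Finset.sum_congr rfl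
      intro j _
      rw [integral_const_mul]
    rw [← h2, Complex.ofReal_re]
  simp only [h1]
  fun_prop

theorem poly_deriv {k : ℕ} (c : Fin (k + 1) → ℂ) (z : ℂ) :
    HasDerivAt (fun z => ∑ i, c i * z ^ (i : ℕ)) (∑ i, c i * ((i : ℕ) * z ^ ((i : ℕ) - 1))) z := by
  apply HasDerivAt.fun_sum
  intro i _
  exact (hasDerivAt_pow (i : ℕ) z).const_mul (c i)

theorem energy_poly {k : ℕ} (Ω : Set ℂ) (c : Fin (k + 1) → ℂ) :
    energy Ω (fun z => ∑ i, c i * z ^ (i : ℕ)) =
      2 * ∫ z in Ω, ‖∑ i, c i * (((i : ℕ) : ℂ) * z ^ ((i : ℕ) - 1))‖ ^ 2 := by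
  unfold energy
  rw [← integral_const_mul]
  congr 1
  ext z
  have h : HasFDerivAt (fun z => ∑ i, c i * z ^ (i : ℕ))
      (mulR (∑ i, c i * ((i : ℕ) * z ^ ((i : ℕ) - 1)))) z :=
    (poly_deriv c z).hasFDerivAt.restrictScalars ℝ
  rw [h.fderiv, mulR_apply, mulR_apply, norm_mul, norm_mul, norm_one, norm_I]
  ring

theorem poly_roots {k : ℕ} (c : Fin (k + 1) → ℂ) (hc : c ≠ 0) :
    {z : ℂ | ∑ i, c i * z ^ (i : ℕ) = 0}.Finite := by
  set P : Polynomial ℂ := ∑ i : Fin (k + 1), Polynomial.monomial (i : ℕ) (c i) with hP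
  have hP0 : P ≠ 0 := by
    obtain ⟨i, hi⟩ : ∃ i, c i ≠ 0 := by
      by_contra hcon
      push Not at hcon
      exact hc (funext hcon)
    intro h
    have h1 : P.coeff (i : ℕ) = c i := by
      rw [hP, Polynomial.finsetSum_coeff, Finset.sum_eq_single i]
      · rw [Polynomial.coeff_monomial, if_pos rfl]
      · intro j _ hj
        rw [Polynomial.coeff_monomial, if_neg]
        intro h2
        exact hj (Fin.ext h2)
      · intro h2
        exact absurd (Finset.mem_univ i) h2
    rw [h, Polynomial.coeff_zero] at h1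
    exact hi h1.symm
  have h2 := Polynomial.finite_setOfPred_isRoot hP0
  refine h2.subset ?_
  intro z hz
  change Polynomial.eval z P = 0
  rw [hP, Polynomial.eval_finsetSum]
  simp only [Polynomial.eval_monomial]
  exact hz

theorem ne : S_NE := by
  intro k Ω hΩ
  have hfin := fm Ω hΩ
  have ho := hΩ.isOpen
  have hb := hΩ.bdd
  have hbf : Bornology.IsBounded (frontier Ω) := hb.closure.subset frontier_subset_closure
  have hmf : MeasurableSet (frontier Ω) := isClosed_frontier.measurableSet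
  have hposf : 0 < (Measure.hausdorffMeasure 1 : Measure ℂ) (frontier Ω) := by
    have h1 := (Stek.hb ri re Ω ho hΩ.conn.nonempty hb hfin 0).1
    have h2 : bdry Ω (hf 0) = ((Measure.hausdorffMeasure 1 : Measure ℂ) (frontier Ω)).toReal := by
      unfold bdry
      have : ∀ z, ‖hf 0 z‖ ^ 2 = (1 : ℝ) := by
        intro z
        simp [hf]
      simp only [this]
      rw [setIntegral_const, smul_eq_mul, mul_one]
      rfl
    rw [h2, ENNReal.toReal_pos_iff] at h1
    exact h1.1
  set B : (Fin (k + 1) → ℂ) → ℝ := fun c => bdry Ω (fun z => ∑ i, c i * z ^ (i : ℕ)) with hB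
  set E : (Fin (k + 1) → ℂ) → ℝ := fun c => energy Ω (fun z => ∑ i, c i * z ^ (i : ℕ)) with hE
  have hBc : Continuous B :=
    quad_cont hmf hbf hfin (fun i z => z ^ (i : ℕ)) (fun i => by fun_prop)
  have hEc : Continuous E := by
    rw [hE]
    simp only [energy_poly]
    exact continuous_const.mul (quad_cont ho.measurableSet hb hb.measure_lt_top
      (fun i z => (((i : ℕ) : ℂ) * z ^ ((i : ℕ) - 1))) (fun i => by fun_prop))
  have hBpos : ∀ c : Fin (k + 1) → ℂ, c ≠ 0 → 0 < B c := by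
    intro c hc
    have hint : IntegrableOn (fun z : ℂ => ‖∑ i, c i * z ^ (i : ℕ)‖ ^ 2) (frontier Ω)
        (Measure.hausdorffMeasure 1) := integrableOn_cont hmf hbf hfin (by fun_prop)
    change 0 < ∫ z in frontier Ω, ‖∑ i, c i * z ^ (i : ℕ)‖ ^ 2 ∂(Measure.hausdorffMeasure 1)
    rw [setIntegral_pos_iff_support_of_nonneg_ae
      (Filter.Eventually.of_forall (fun z => by positivity)) hint]
    have h1 : frontier Ω \ {z : ℂ | ∑ i, c i * z ^ (i : ℕ) = 0} ⊆
        Function.support (fun z : ℂ => ‖∑ i, c i * z ^ (i : ℕ)‖ ^ 2) ∩ frontier Ω := by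
      rintro z ⟨hz, hz2⟩
      refine ⟨?_, hz⟩
      rw [Function.mem_support]
      have : ∑ i, c i * z ^ (i : ℕ) ≠ 0 := hz2
      positivity
    refine lt_of_lt_of_le ?_ (measure_mono h1)
    have : NullSingletonClass (Measure.hausdorffMeasure 1 : Measure ℂ) :=
      Measure.nullSingletonClass_hausdorff ℂ zero_lt_one
    rw [measure_sdiff_null ((poly_roots c hc).measure_zero _)]
    exact hposf
  have hBs : ∀ (t : ℝ) (c : Fin (k + 1) → ℂ), B (fun i => (t : ℂ) * c i) = t ^ 2 * B c := by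
    intro t c
    simp only [hB, bdry]
    rw [← integral_const_mul]
    congr 1
    ext z
    have : ∑ i, (t : ℂ) * c i * z ^ (i : ℕ) = (t : ℂ) * ∑ i, c i * z ^ (i : ℕ) := by
      rw [Finset.mul_sum]
      apply Finset.sum_congr rfl
      intro i _
      ring
    rw [this, norm_mul, mul_pow, Complex.norm_real, Real.norm_eq_abs, sq_abs]
  have hEs : ∀ (t : ℝ) (c : Fin (k + 1) → ℂ), E (fun i => (t : ℂ) * c i) = t ^ 2 * E c := by
    intro t c
    simp only [hE, energy_poly]
    have h5 : ∫ z in Ω, ‖∑ i, (t : ℂ) * c i * (((i : ℕ) : ℂ) * z ^ ((i : ℕ) - 1))‖ ^ 2 =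
        t ^ 2 * ∫ z in Ω, ‖∑ i, c i * (((i : ℕ) : ℂ) * z ^ ((i : ℕ) - 1))‖ ^ 2 := by
      rw [← integral_const_mul]
      congr 1
      ext z
      have : ∑ i, (t : ℂ) * c i * (((i : ℕ) : ℂ) * z ^ ((i : ℕ) - 1)) =
          (t : ℂ) * ∑ i, c i * (((i : ℕ) : ℂ) * z ^ ((i : ℕ) - 1)) := by
        rw [Finset.mul_sum]
        apply Finset.sum_congr rfl
        intro i _
        ring
      rw [this, norm_mul, mul_pow, Complex.norm_real, Real.norm_eq_abs, sq_abs]
    rw [h5]
    ring
  -- the sphere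
  have hsph : IsCompact (sphere (0 : Fin (k + 1) → ℂ) 1) := isCompact_sphere 0 1
  have hne : (sphere (0 : Fin (k + 1) → ℂ) 1).Nonempty := by
    refine ⟨fun _ => 1, ?_⟩
    rw [mem_sphere_zero_iff_norm]
    have h1 := pi_norm_const (ι := Fin (k + 1)) (1 : ℂ)
    rw [norm_one] at h1
    exact h1
  obtain ⟨c₀, hc₀, hmin⟩ := hsph.exists_isMinOn hne hBc.continuousOn
  obtain ⟨c₁, hc₁, hmax⟩ := hsph.exists_isMaxOn hne hEc.continuousOn
  have hc₀0 : c₀ ≠ 0 := by
    intro h
    rw [h] at hc₀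
    simp at hc₀
  have hμ := hBpos c₀ hc₀0
  have hE0 : ∀ c, 0 ≤ E c := by
    intro c
    simp only [hE, energy]
    apply integral_nonneg
    intro z
    positivity
  refine ⟨E c₁ / B c₀, by have := hE0 c₁; positivity, fun i z => z ^ (i : ℕ), ?_, ?_⟩
  · intro i
    fun_prop
  · intro c hc
    refine ⟨hBpos c hc, ?_⟩
    set t := ‖c‖ with ht
    have ht0 : 0 < t := norm_pos_iff.mpr hc
    set d : Fin (k + 1) → ℂ := fun i => ((t⁻¹ : ℝ) : ℂ) * c i with hd
    have hcd : c = fun i => (t : ℂ) * d i := by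
      ext i
      simp only [hd]
      push_cast
      have : (t : ℂ) ≠ 0 := by exact_mod_cast ht0.ne'
      field_simp
    have hdn : d ∈ sphere (0 : Fin (k + 1) → ℂ) 1 := by
      rw [mem_sphere_zero_iff_norm]
      have h1 : d = (t⁻¹ : ℝ) • c := by
        ext i
        simp [hd]
      rw [h1, norm_smul, Real.norm_of_nonneg (by positivity), ← ht]
      field_simp
    have h1 : B c₀ ≤ B d := hmin hdn
    have h2 : E d ≤ E c₁ := hmax hdn
    change E c ≤ E c₁ / B c₀ * B c
    rw [hcd, hEs, hBs]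
    have h3 : E d ≤ E c₁ / B c₀ * B d := by
      calc E d ≤ E c₁ := h2
        _ = E c₁ / B c₀ * B c₀ := by field_simp
        _ ≤ E c₁ / B c₀ * B d :=
          mul_le_mul_of_nonneg_left h1 (by have := hE0 c₁; positivity)
    have h4 : 0 ≤ t ^ 2 := by positivity
    nlinarith [mul_le_mul_of_nonneg_left h3 h4]

end Pool.Agent.Helper45.Stek
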