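import Pool.Agent.Helper45.Stek.ET

open MeasureTheory Set Complex Metric
open scoped ContDiff Topology ENNReal

namespace Pool.Agent.Helper45.Stek

theorem near_open {f : ℂ → ℂ} {δ : ℝ} (h : Near f δ) : IsOpenMap f := by
  rcases AnalyticOnNhd.is_constant_or_isOpenMap (g := f)
    (fun z _ => h.2.1.analyticAt z) with ⟨w, hw⟩ | h1
  · exfalso
    have h0 : (0 : ℂ) ∈ closedBall (0 : ℂ) (1 + δ) := by
      rw [mem_closedBall_zero_iff, norm_zero]
      linarith [h.1]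
    have h1 : (1 : ℂ) ∈ closedBall (0 : ℂ) (1 + δ) := by
      rw [mem_closedBall_zero_iff, norm_one]
      linarith [h.1]
    have h2 := near_inj h h0 h1 (by rw [hw, hw])
    exact zero_ne_one h2
  · exact h1

theorem near_surj {f : ℂ → ℂ} {δ : ℝ} (h : Near f δ) (ζ : ℂ) (hζ : ζ ∈ closedBall (0 : ℂ) 1)
    (v : ℂ) (hv : ‖v‖ ≤ 13 / 20 * δ) : ∃ ζ' ∈ closedBall (0 : ℂ) (1 + δ),
    f ζ' = f ζ + v ∧ 13 / 20 * ‖ζ' - ζ‖ ≤ ‖v‖ ∧ ‖ζ' - ζ - v‖ ≤ 7 / 20 * ‖ζ' - ζ‖ := by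
  obtain ⟨hδ, -, hn⟩ := h
  have happ : ApproximatesLinearOn f (ContinuousLinearMap.id ℂ ℂ) (closedBall (0 : ℂ) (1 + δ))
      (7 / 20 : NNReal) := by
    intro x hx y hy
    have := hn x hx y hy
    simpa using this
  let inv : ContinuousLinearMap.NonlinearRightInverse (ContinuousLinearMap.id ℂ ℂ) :=
    { toFun := fun y => y
      nnnorm := 1
      bound' := fun y => by simp
      right_inv' := fun y => rfl }
  have hsub : closedBall ζ δ ⊆ closedBall (0 : ℂ) (1 + δ) := by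
    intro x hx
    rw [mem_closedBall, dist_eq_norm] at hx
    rw [mem_closedBall_zero_iff] at hζ ⊢
    calc ‖x‖ = ‖(x - ζ) + ζ‖ := by ring_nf
      _ ≤ ‖x - ζ‖ + ‖ζ‖ := norm_add_le _ _
      _ ≤ 1 + δ := by linarith
  have hs := happ.surjOn_closedBall_of_nonlinearRightInverse inv hδ.le hsub
  have hmem : f ζ + v ∈ closedBall (f ζ) (((inv.nnnorm : ℝ)⁻¹ - (7 / 20 : NNReal)) * δ) := by
    rw [mem_closedBall, dist_eq_norm, add_sub_cancel_left]
    have : ((inv.nnnorm : ℝ)⁻¹ - ((7 / 20 : NNReal) : ℝ)) = 13 / 20 := by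
      change (((1 : NNReal) : ℝ)⁻¹ - ((7 / 20 : NNReal) : ℝ)) = 13 / 20
      push_cast
      norm_num
    rw [this]
    exact hv
  obtain ⟨ζ', hζ', hf⟩ := hs hmem
  have hζ2 : ζ ∈ closedBall (0 : ℂ) (1 + δ) := closedBall_subset_closedBall (by linarith) hζ
  have h1 := hn ζ' (hsub hζ') ζ hζ2
  have h2 : f ζ' - f ζ = v := by rw [hf]; ring
  rw [h2] at h1
  have h3 : ‖ζ' - ζ - v‖ ≤ 7 / 20 * ‖ζ' - ζ‖ := by
    rw [← norm_neg]
    have : -(ζ' - ζ - v) = v - (ζ' - ζ) := by ring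
    rw [this]
    exact h1
  refine ⟨ζ', hsub hζ', hf, ?_, h3⟩
  have h4 : ‖ζ' - ζ‖ ≤ ‖ζ' - ζ - v‖ + ‖v‖ := by
    calc ‖ζ' - ζ‖ = ‖(ζ' - ζ - v) + v‖ := by ring_nf
      _ ≤ _ := norm_add_le _ _
  linarith

theorem nt : S_NT := by
  intro f δ h
  have hcont : Continuous f := h.2.1.continuous
  have hball : ball (0 : ℂ) 1 ⊆ closedBall 0 1 := ball_subset_closedBall
  have hcomp : IsCompact (f '' closedBall (0 : ℂ) 1) := (isCompact_closedBall 0 1).image hcont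
  have hop : IsOpen (f '' ball 0 1) := near_open h _ isOpen_ball
  have hcl : closure (f '' ball 0 1) ⊆ f '' closedBall 0 1 :=
    closure_minimal (image_mono hball) hcomp.isClosed
  refine ⟨near_inj h, hop, ?_, ?_, hcl, ?_, near_surj h⟩
  · refine ⟨⟨f 0, 0, by simp, rfl⟩, ?_⟩
    exact (convex_ball (0 : ℂ) 1).isPreconnected.image f hcont.continuousOn
  · exact hcomp.isBounded.subset (image_mono hball)
  · intro z hz
    obtain ⟨ζ, hζ, rfl⟩ := hcl (frontier_subset_closure hz)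
    refine ⟨ζ, ?_, rfl⟩
    rw [mem_sphere_zero_iff_norm]
    rw [mem_closedBall_zero_iff] at hζ
    by_contra hne
    have hlt : ‖ζ‖ < 1 := lt_of_le_of_ne hζ hne
    rw [hop.frontier_eq] at hz
    exact hz.2 ⟨ζ, mem_ball_zero_iff.mpr hlt, rfl⟩

end Pool.Agent.Helper45.Stek
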