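import Pool.Agent.Helper45.Stek.Goals

open MeasureTheory Set Complex Metric
open scoped ContDiff Topology ENNReal

namespace Pool.Agent.Helper45.Stek

theorem mem_tr (Ω : Set ℂ) (c z : ℂ) : z ∈ (fun z => z - c) '' Ω ↔ z + c ∈ Ω := by
  constructor
  · rintro ⟨y, hy, rfl⟩
    simpa using hy
  · intro h
    exact ⟨z + c, h, by simp⟩

theorem frontier_tr (Ω : Set ℂ) (c : ℂ) :
    frontier ((fun z => z - c) '' Ω) = (fun z => z - c) '' frontier Ω :=
  ((Homeomorph.subRight c).image_frontier Ω).symm

theorem energy_tr (Ω : Set ℂ) (c : ℂ) (u : ℂ → ℂ) :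
    energy Ω (fun z => u (z - c)) = energy ((fun z => z - c) '' Ω) u := by
  unfold energy
  have hmp : MeasurePreserving (fun z : ℂ => z - c) volume volume := measurePreserving_sub_right _ c
  have hemb : MeasurableEmbedding (fun z : ℂ => z - c) :=
    (Homeomorph.subRight c).measurableEmbedding
  rw [hmp.setIntegral_image_emb hemb]
  congr 1
  ext z
  rw [fderiv_comp_sub]

theorem bdry_tr (Ω : Set ℂ) (c : ℂ) (u : ℂ → ℂ) :
    bdry Ω (fun z => u (z - c)) = bdry ((fun z => z - c) '' Ω) u := by
  unfold bdry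
  have hmp : MeasurePreserving (fun z : ℂ => z - c) (Measure.hausdorffMeasure 1)
      (Measure.hausdorffMeasure 1) :=
    (IsometryEquiv.subRight c).measurePreserving_hausdorffMeasure 1
  have hemb : MeasurableEmbedding (fun z : ℂ => z - c) :=
    (Homeomorph.subRight c).measurableEmbedding
  rw [frontier_tr, hmp.setIntegral_image_emb hemb]

theorem tr : S_TR := by
  intro Ω c hΩ
  refine ⟨⟨?_, ?_, ?_, ?_⟩, ?_, ?_, ?_⟩
  · exact (Homeomorph.subRight c).isOpenMap Ω hΩ.isOpen
  · exact hΩ.conn.image _ (by fun_prop)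
  · exact (IsometryEquiv.subRight c).isometry.lipschitz.isBounded_image hΩ.bdd
  · intro p hp
    rw [frontier_tr, mem_tr] at hp
    obtain ⟨a, r, L, g, ha, hr, hg, h⟩ := hΩ.lip _ hp
    refine ⟨a, r, L, g, ha, hr, hg, ?_⟩
    intro s t hs ht
    rw [mem_tr, ← h s t hs ht]
    have : p + a * (s + t * I) + c = p + c + a * (s + t * I) := by ring
    rw [this]
  · unfold area
    have h : (fun z => z - c) '' Ω = (fun z => z + c) ⁻¹' Ω := by
      ext z
      rw [mem_tr]
      rfl
    rw [h, measure_preimage_add_right]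
  · rintro k l ⟨hl, u, hu, h⟩
    refine ⟨hl, fun i z => u i (z - c), ?_, ?_⟩
    · intro i
      exact (hu i).comp (contDiff_id.sub contDiff_const)
    · intro d hd
      have e1 := energy_tr Ω c (fun z => ∑ i, d i * u i z)
      have e2 := bdry_tr Ω c (fun z => ∑ i, d i * u i z)
      rw [e1, e2]
      exact h d hd
  · intro w hw
    ext z
    constructor
    · rintro ⟨y, hy, rfl⟩
      rw [mem_tr] at hy ⊢
      rw [← hw]
      refine ⟨y + c, hy, ?_⟩
      simp only [rot]
      ring
    · intro hz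
      rw [mem_tr, ← hw] at hz
      obtain ⟨y, hy, hyz⟩ := hz
      refine ⟨y - c, (mem_tr Ω c (y - c)).mpr (by simpa using hy), ?_⟩
      simp only [rot] at hyz
      linear_combination hyz

end Pool.Agent.Helper45.Stek
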