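import Pool.Agent.Helper45.Stek.UB
import Pool.Agent.Helper45.Stek.LB
import Pool.Agent.Helper45.Stek.HB
import Pool.Agent.Helper45.Stek.RI
import Pool.Agent.Helper45.Stek.RE
import Pool.Agent.Helper45.Stek.FM
import Pool.Agent.Helper45.Stek.TR
import Pool.Agent.Helper45.Stek.PN
import Pool.Agent.Helper45.Stek.NT
import Pool.Agent.Helper45.Stek.CO
import Pool.Agent.Helper45.Stek.CL
import Pool.Agent.Helper45.Stek.BT
import Pool.Agent.Helper45.Stek.FD
import Pool.Agent.Helper45.Stek.FB
import Pool.Agent.Helper45.Stek.PV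
import Pool.Agent.Helper45.Stek.JA
import Pool.Agent.Helper45.Stek.LA
import Pool.Agent.Helper45.Stek.NE
import Pool.Agent.Helper45.Stek.AR

namespace Pool.Agent.Helper45.Stek

/-- The upper bound. -/
theorem t_UB : S_UB := ub fm tr or (hb ri re) ep

/-- The lower bound for the explicit domain. -/
theorem t_LB : S_LB := lb pn nt et bt (fb fd) pv ja la ne co cl

/-- The main theorem. -/
theorem t_MAIN : S_MAIN := main t_UB pn ar t_LB

end Pool.Agent.Helper45.Stek
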