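import Pool.Agent.Helper45.Stek.EP

open MeasureTheory Set Complex Metric
open scoped ContDiff Topology ENNReal

namespace Pool.Agent.Helper45.Stek

/-- Continuous functions are integrable on bounded measurable sets of finite measure. -/
theorem integrableOn_cont {E : Type*} [NormedAddCommGroup E] [SecondCountableTopology E]
    {μ : Measure ℂ} {S : Set ℂ} (hS : MeasurableSet S)
    (hb : Bornology.IsBounded S) (hfin : μ S < ⊤) {f : ℂ → E} (hf : Continuous f) :
    IntegrableOn f S μ := by
  have hc : IsCompact (closure S) := hb.isCompact_closure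
  obtain ⟨C, hC⟩ := hc.exists_bound_of_continuousOn hf.continuousOn
  apply Measure.integrableOn_of_bounded (M := C) hfin.ne
  · exact hf.aestronglyMeasurable
  · rw [ae_restrict_iff' hS]
    exact Filter.Eventually.of_forall (fun z hz => hC z (subset_closure hz))

/-- A function multiplied by `κ ≠ 1` under a measure preserving map has integral zero. -/
theorem integral_zero {μ : Measure ℂ} {e : ℂ → ℂ} (he : MeasurePreserving e μ μ)
    (hemb : MeasurableEmbedding e) {S : Set ℂ} (hS : e '' S = S) {g : ℂ → ℂ} {κ : ℂ}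
    (hκ : κ ≠ 1) (hg : ∀ z, g (e z) = κ * g z) : ∫ z in S, g z ∂μ = 0 := by
  have h1 : ∫ z in S, g z ∂μ = κ * ∫ z in S, g z ∂μ := by
    calc ∫ z in S, g z ∂μ = ∫ z in e '' S, g z ∂μ := by rw [hS]
      _ = ∫ z in S, g (e z) ∂μ := he.setIntegral_image_emb hemb g S
      _ = κ * ∫ z in S, g z ∂μ := by
          simp only [hg]
          rw [integral_const_mul]
  have h2 : (κ - 1) * ∫ z in S, g z ∂μ = 0 := by
    rw [sub_mul, one_mul, ← h1, sub_self]
  exact (mul_eq_zero.mp h2).resolve_left (sub_ne_zero.mpr hκ)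

/-- The square of the norm of a sum of orthogonal functions. -/
theorem ortho_sum {μ : Measure ℂ} {S : Set ℂ} (F : Finset ℤ) (a : ℤ → ℂ → ℂ)
    (hint : ∀ n ∈ F, ∀ l ∈ F, IntegrableOn (fun z => a n z * starRingEnd ℂ (a l z)) S μ)
    (h0 : ∀ n ∈ F, ∀ l ∈ F, n ≠ l → ∫ z in S, a n z * starRingEnd ℂ (a l z) ∂μ = 0) :
    ∫ z in S, ‖∑ n ∈ F, a n z‖ ^ 2 ∂μ = ∑ n ∈ F, ∫ z in S, ‖a n z‖ ^ 2 ∂μ := by
  have h1 : ((∫ z in S, ‖∑ n ∈ F, a n z‖ ^ 2 ∂μ : ℝ) : ℂ) =
      ((∑ n ∈ F, ∫ z in S, ‖a n z‖ ^ 2 ∂μ : ℝ) : ℂ) := by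
    rw [← integral_complex_ofReal]
    have h2 : ∀ z, (((‖∑ n ∈ F, a n z‖ ^ 2 : ℝ)) : ℂ) =
        ∑ n ∈ F, ∑ l ∈ F, a n z * starRingEnd ℂ (a l z) := by
      intro z
      rw [← Finset.sum_mul_sum, ← map_sum, Complex.mul_conj, Complex.normSq_eq_norm_sq]
    simp only [h2]
    rw [integral_finsetSum _ (fun n hn => integrable_finsetSum _ (fun l hl => hint n hn l hl))]
    push_cast
    apply Finset.sum_congr rfl
    intro n hn
    rw [integral_finsetSum _ (fun l hl => hint n hn l hl)]
    rw [Finset.sum_eq_single n]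
    · rw [← integral_complex_ofReal]
      congr 1
      ext z
      rw [Complex.mul_conj, Complex.normSq_eq_norm_sq]
    · intro l hl hln
      exact h0 n hn l hl (Ne.symm hln)
    · intro h
      exact absurd hn h
  exact_mod_cast h1

/-- The rotation as an isometry. -/
noncomputable def rotE (w : ℂ) (hw : ‖w‖ = 1) : ℂ ≃ₗᵢ[ℝ] ℂ :=
  rotation ⟨w, mem_sphere_zero_iff_norm.mpr hw⟩

theorem rotE_apply (w : ℂ) (hw : ‖w‖ = 1) (z : ℂ) : rotE w hw z = w * z := rfl

theorem hf_rot (n : ℤ) (w : ℂ) (hw : ‖w‖ = 1) (z : ℂ) : hf n (w * z) = w ^ n * hf n z := by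
  have hw0 : w ≠ 0 := by
    intro h
    rw [h, norm_zero] at hw
    exact zero_ne_one hw
  unfold hf
  split_ifs with h
  · rw [mul_pow]
    congr 1
    have h1 : ((n.toNat : ℕ) : ℤ) = n := by omega
    conv_rhs => rw [← h1, zpow_natCast]
  · rw [map_mul, mul_pow]
    congr 1
    have h1 : n = -(((-n).toNat : ℕ) : ℤ) := by omega
    conv_rhs => rw [h1, zpow_neg, zpow_natCast]
    rw [← inv_pow, Complex.inv_eq_conj hw]

/-- The holomorphic part of the gradient. -/
noncomputable def pa (n : ℤ) (z : ℂ) : ℂ := if 0 < n then (n : ℂ) * z ^ (n.toNat - 1) else 0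

/-- The antiholomorphic part of the gradient. -/
noncomputable def pb (n : ℤ) (z : ℂ) : ℂ :=
  if n < 0 then (-n : ℂ) * (starRingEnd ℂ z) ^ ((-n).toNat - 1) else 0

theorem pa_cont (n : ℤ) : Continuous (pa n) := by
  unfold pa
  split_ifs
  · fun_prop
  · fun_prop

theorem pb_cont (n : ℤ) : Continuous (pb n) := by
  unfold pb
  split_ifs
  · fun_prop
  · fun_prop

theorem pa_rot (n : ℤ) (w : ℂ) (hw : ‖w‖ = 1) (z : ℂ) : w * pa n (w * z) = w ^ n * pa n z := by
  have hw0 : w ≠ 0 := by
    intro h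
    rw [h, norm_zero] at hw
    exact zero_ne_one hw
  unfold pa
  split_ifs with h
  · obtain ⟨m, hm⟩ : ∃ m : ℕ, n = m + 1 := ⟨n.toNat - 1, by omega⟩
    subst hm
    have h1 : ((m : ℤ) + 1).toNat - 1 = m := by omega
    rw [h1, zpow_add_one₀ hw0, zpow_natCast]
    ring
  · simp

theorem pb_rot (n : ℤ) (w : ℂ) (hw : ‖w‖ = 1) (z : ℂ) :
    starRingEnd ℂ w * pb n (w * z) = w ^ n * pb n z := by
  have hw0 : w ≠ 0 := by
    intro h
    rw [h, norm_zero] at hw
    exact zero_ne_one hw
  unfold pb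
  split_ifs with h
  · obtain ⟨m, hm⟩ : ∃ m : ℕ, n = -(m + 1) := ⟨(-n).toNat - 1, by omega⟩
    subst hm
    have h1 : (-(-((m : ℤ) + 1))).toNat - 1 = m := by omega
    rw [h1, zpow_neg, zpow_add_one₀ hw0, zpow_natCast, mul_inv, ← inv_pow, Complex.inv_eq_conj hw,
      map_mul]
    push_cast
    ring
  · simp

theorem grad_eq (F : Finset ℤ) (c : ℤ → ℂ) (z : ℂ) :
    ‖fderiv ℝ (fun z => ∑ n ∈ F, c n * hf n z) z 1‖ ^ 2 +
      ‖fderiv ℝ (fun z => ∑ n ∈ F, c n * hf n z) z I‖ ^ 2 =
    2 * ‖∑ n ∈ F, c n * pa n z‖ ^ 2 + 2 * ‖∑ n ∈ F, c n * pb n z‖ ^ 2 := by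
  rw [(ep F c).2 z, Finset.sum_filter, Finset.sum_filter, mul_add]
  congr 4
  · apply Finset.sum_congr rfl
    intro n _
    unfold pa
    split_ifs <;> ring
  · apply Finset.sum_congr rfl
    intro n _
    unfold pb
    split_ifs <;> ring

theorem grad_eq1 (n : ℤ) (z : ℂ) :
    ‖fderiv ℝ (hf n) z 1‖ ^ 2 + ‖fderiv ℝ (hf n) z I‖ ^ 2 =
    2 * ‖pa n z‖ ^ 2 + 2 * ‖pb n z‖ ^ 2 := by
  have h := grad_eq {n} (fun _ => 1) z
  simpa using h

theorem energy_eq {Ω : Set ℂ} (ho : IsOpen Ω) (hb : Bornology.IsBounded Ω) (F : Finset ℤ)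
    (c : ℤ → ℂ) : energy Ω (fun z => ∑ n ∈ F, c n * hf n z) =
    2 * (∫ z in Ω, ‖∑ n ∈ F, c n * pa n z‖ ^ 2) + 2 * ∫ z in Ω, ‖∑ n ∈ F, c n * pb n z‖ ^ 2 := by
  unfold energy
  simp only [grad_eq]
  have hpa : Continuous (fun z => ∑ n ∈ F, c n * pa n z) :=
    continuous_finsetSum _ (fun n _ => continuous_const.mul (pa_cont n))
  have hpb : Continuous (fun z => ∑ n ∈ F, c n * pb n z) :=
    continuous_finsetSum _ (fun n _ => continuous_const.mul (pb_cont n))
  rw [integral_add, integral_const_mul, integral_const_mul]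
  · exact integrableOn_cont ho.measurableSet hb hb.measure_lt_top (by fun_prop)
  · exact integrableOn_cont ho.measurableSet hb hb.measure_lt_top (by fun_prop)

theorem energy_eq1 {Ω : Set ℂ} (ho : IsOpen Ω) (hb : Bornology.IsBounded Ω) (n : ℤ) :
    energy Ω (hf n) = 2 * (∫ z in Ω, ‖pa n z‖ ^ 2) + 2 * ∫ z in Ω, ‖pb n z‖ ^ 2 := by
  have h := energy_eq ho hb {n} (fun _ => 1)
  simpa using h

theorem or : S_OR := by
  intro Ω w F c ho hb hfin hw hΩ hF
  have hemb : MeasurableEmbedding (fun z : ℂ => w * z) :=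
    (rotE w hw).toHomeomorph.measurableEmbedding
  have hmp : MeasurePreserving (fun z : ℂ => w * z) volume volume :=
    (rotE w hw).measurePreserving
  have hmpH : MeasurePreserving (fun z : ℂ => w * z) (Measure.hausdorffMeasure 1)
      (Measure.hausdorffMeasure 1) :=
    (rotE w hw).toIsometryEquiv.measurePreserving_hausdorffMeasure 1
  have hfr : (fun z : ℂ => w * z) '' frontier Ω = frontier Ω := by
    have h := (rotE w hw).toHomeomorph.image_frontier Ω
    have h2 : ((rotE w hw).toHomeomorph : ℂ → ℂ) = fun z => w * z := rfl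
    rw [h2, hΩ] at h
    exact h
  have hcw : starRingEnd ℂ w * w = 1 := by
    rw [mul_comm, Complex.mul_conj, Complex.normSq_eq_norm_sq, hw]; simp
  have hw0 : w ≠ 0 := by
    intro h
    rw [h, norm_zero] at hw
    exact zero_ne_one hw
  have hconjz : ∀ n : ℤ, starRingEnd ℂ (w ^ n) = w ^ (-n) := by
    intro n
    rw [map_zpow₀, ← Complex.inv_eq_conj hw, inv_zpow, zpow_neg]
  have hbf : Bornology.IsBounded (frontier Ω) := hb.closure.subset frontier_subset_closure
  have hmf : MeasurableSet (frontier Ω) := isClosed_frontier.measurableSet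
  constructor
  · rw [energy_eq ho hb]
    have e1 : ∫ z in Ω, ‖∑ n ∈ F, c n * pa n z‖ ^ 2 =
        ∑ n ∈ F, ‖c n‖ ^ 2 * ∫ z in Ω, ‖pa n z‖ ^ 2 := by
      rw [ortho_sum F (fun n z => c n * pa n z)]
      · apply Finset.sum_congr rfl
        intro n _
        rw [← integral_const_mul]
        congr 1
        ext z
        rw [norm_mul, mul_pow]
      · intro n _ l _
        apply integrableOn_cont ho.measurableSet hb hb.measure_lt_top
        have h1 := pa_cont n
        have h2 := pa_cont l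
        fun_prop
      · intro n hn l hl hnl
        apply integral_zero hmp hemb hΩ (hF n hn l hl hnl)
        intro z
        have h1 := pa_rot n w hw z
        have h2 := congrArg (starRingEnd ℂ) (pa_rot l w hw z)
        rw [map_mul, map_mul, hconjz] at h2
        rw [sub_eq_add_neg, zpow_add₀ hw0]
        rw [map_mul, map_mul]
        calc c n * pa n (w * z) * (starRingEnd ℂ (c l) * starRingEnd ℂ (pa l (w * z)))
            = c n * starRingEnd ℂ (c l) * ((starRingEnd ℂ w * w) *
                (pa n (w * z) * starRingEnd ℂ (pa l (w * z)))) := by rw [hcw]; ring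
          _ = c n * starRingEnd ℂ (c l) * ((w * pa n (w * z)) *
                (starRingEnd ℂ w * starRingEnd ℂ (pa l (w * z)))) := by ring
          _ = _ := by rw [h1, h2]; ring
    have e2 : ∫ z in Ω, ‖∑ n ∈ F, c n * pb n z‖ ^ 2 =
        ∑ n ∈ F, ‖c n‖ ^ 2 * ∫ z in Ω, ‖pb n z‖ ^ 2 := by
      rw [ortho_sum F (fun n z => c n * pb n z)]
      · apply Finset.sum_congr rfl
        intro n _
        rw [← integral_const_mul]
        congr 1
        ext z
        rw [norm_mul, mul_pow]
      · intro n _ l _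
        apply integrableOn_cont ho.measurableSet hb hb.measure_lt_top
        have h1 := pb_cont n
        have h2 := pb_cont l
        fun_prop
      · intro n hn l hl hnl
        apply integral_zero hmp hemb hΩ (hF n hn l hl hnl)
        intro z
        have h1 := pb_rot n w hw z
        have h2 := congrArg (starRingEnd ℂ) (pb_rot l w hw z)
        rw [map_mul, map_mul, hconjz, Complex.conj_conj] at h2
        rw [sub_eq_add_neg, zpow_add₀ hw0]
        rw [map_mul, map_mul]
        calc c n * pb n (w * z) * (starRingEnd ℂ (c l) * starRingEnd ℂ (pb l (w * z)))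
            = c n * starRingEnd ℂ (c l) * ((starRingEnd ℂ w * w) *
                (pb n (w * z) * starRingEnd ℂ (pb l (w * z)))) := by rw [hcw]; ring
          _ = c n * starRingEnd ℂ (c l) * ((starRingEnd ℂ w * pb n (w * z)) *
                (w * starRingEnd ℂ (pb l (w * z)))) := by ring
          _ = _ := by rw [h1, h2]; ring
    rw [e1, e2, Finset.mul_sum, Finset.mul_sum, ← Finset.sum_add_distrib]
    apply Finset.sum_congr rfl
    intro n _
    rw [energy_eq1 ho hb]
    ring
  · unfold bdry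
    rw [ortho_sum F (fun n z => c n * hf n z)]
    · apply Finset.sum_congr rfl
      intro n _
      rw [← integral_const_mul]
      congr 1
      ext z
      rw [norm_mul, mul_pow]
    · intro n _ l _
      apply integrableOn_cont hmf hbf hfin
      have h1 := (hf_contDiff n).continuous
      have h2 := (hf_contDiff l).continuous
      fun_prop
    · intro n hn l hl hnl
      apply integral_zero hmpH hemb hfr (hF n hn l hl hnl)
      intro z
      rw [hf_rot n w hw, hf_rot l w hw, sub_eq_add_neg, zpow_add₀ hw0]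
      simp only [map_mul]
      rw [hconjz]
      ring

end Pool.Agent.Helper45.Stek
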