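import Pool.Agent.Helper45.Stek.Goals

open MeasureTheory Set Complex Metric
open scoped ContDiff Topology ENNReal

namespace Pool.Agent.Helper45.Stek

local instance tpos : Fact (0 < 2 * Real.pi) := ⟨Real.two_pi_pos⟩

/-- The circle of length `2 π`. -/
abbrev AC := AddCircle (2 * Real.pi)

/-- Restriction to the unit circle. -/
noncomputable def circ (w : ℂ → ℂ) (hw : Continuous w) : C(AC, ℂ) :=
  ⟨fun t => w (AddCircle.toCircle t : ℂ),
    hw.comp (continuous_subtype_val.comp AddCircle.continuous_toCircle)⟩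

theorem toCircle_coe (x : ℝ) : ((AddCircle.toCircle (x : AC) : Circle) : ℂ) = exp (x * I) := by
  rw [AddCircle.toCircle_apply_mk, Circle.coe_exp]
  have h : 2 * Real.pi / (2 * Real.pi) * x = x := by
    have := Real.pi_ne_zero
    field_simp
  rw [h]

theorem fourier_exp (n : ℤ) (x : ℝ) : fourier n (x : AC) = exp (n * x * I) := by
  rw [fourier_coe_apply]
  congr 1
  have : (Real.pi : ℂ) ≠ 0 := by exact_mod_cast Real.pi_ne_zero
  push_cast
  field_simp

theorem haar_int (F : AC → ℂ) : ∫ t, F t ∂AddCircle.haarAddCircle =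
    (2 * Real.pi)⁻¹ * ∫ x in (-Real.pi)..Real.pi, F x := by
  have h1 := fourierCoeff_eq_intervalIntegral F 0 (-Real.pi)
  have h2 : fourierCoeff F 0 = ∫ t, F t ∂AddCircle.haarAddCircle := by
    unfold fourierCoeff
    congr 1
    ext t
    rw [neg_zero, fourier_zero, one_smul]
  have h3 : -Real.pi + 2 * Real.pi = Real.pi := by ring
  rw [h2, h3] at h1
  rw [h1]
  have h4 : ∀ x : ℝ, (@fourier (2 * Real.pi) (-0)) (x : AC) • F x = F x := by
    intro x
    rw [neg_zero, fourier_zero, one_smul]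
  simp only [h4]
  rw [Complex.real_smul]
  push_cast
  rw [one_div]

theorem coeff_circ (w : ℂ → ℂ) (hw : Continuous w) (n : ℤ) :
    fourierCoeff (circ w hw) n = fcr w 1 n := by
  unfold fourierCoeff
  rw [haar_int, fcr]
  push_cast
  congr 1
  congr 1
  ext x
  rw [fourier_exp, smul_eq_mul]
  change _ * w (AddCircle.toCircle (x : AC) : ℂ) = _
  rw [toCircle_coe, mul_comm, one_mul]
  congr 2
  push_cast
  ring

/-- Parseval's formula for two continuous functions. -/
theorem parseval (G H : C(AC, ℂ)) :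
    HasSum (fun n : ℤ => starRingEnd ℂ (fourierCoeff G n) * fourierCoeff H n)
      (∫ t, H t * starRingEnd ℂ (G t) ∂AddCircle.haarAddCircle) := by
  have h := (fourierBasis (T := 2 * Real.pi)).hasSum_inner_mul_inner
    (ContinuousMap.toLp (E := ℂ) 2 AddCircle.haarAddCircle ℂ G)
    (ContinuousMap.toLp (E := ℂ) 2 AddCircle.haarAddCircle ℂ H)
  rw [ContinuousMap.inner_toLp] at h
  have e : (fun n : ℤ => starRingEnd ℂ (fourierCoeff G n) * fourierCoeff H n) =
      fun i => inner ℂ (ContinuousMap.toLp (E := ℂ) 2 AddCircle.haarAddCircle ℂ G)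
          ((fourierBasis (T := 2 * Real.pi)) i) *
        inner ℂ ((fourierBasis (T := 2 * Real.pi)) i)
          (ContinuousMap.toLp (E := ℂ) 2 AddCircle.haarAddCircle ℂ H) := by
    ext1 n
    rw [← fourierBasis.repr_apply_apply, fourierBasis_repr, fourierCoeff_toLp,
      ← inner_conj_symm, ← fourierBasis.repr_apply_apply, fourierBasis_repr, fourierCoeff_toLp]
  rw [e]
  exact h

theorem coeff_shift (G : C(AC, ℂ)) (k : ℕ) (n : ℤ) :
    fourierCoeff (G * fourier (k : ℤ) : C(AC, ℂ)) n = fourierCoeff G (n - k) := by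
  unfold fourierCoeff
  congr 1
  ext t
  rw [ContinuousMap.mul_apply, smul_eq_mul, smul_eq_mul]
  have h : -(n - (k : ℤ)) = -n + k := by ring
  rw [h, fourier_add]
  ring

theorem pv : S_PV := by
  intro w hw k b
  set G := circ w hw with hG
  have hGx : ∀ x : ℝ, G (x : AC) = w (exp (x * I)) := by
    intro x
    change w (AddCircle.toCircle (x : AC) : ℂ) = _
    rw [toCircle_coe]
  have h1 := parseval G G
  have h2 := parseval G (G * fourier (k : ℤ))
  have hc : ∀ n, fourierCoeff G n = fcr w 1 n := coeff_circ w hw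
  simp only [coeff_shift, hc] at h1 h2
  rw [haar_int] at h1 h2
  -- first series
  have h3 := Complex.hasSum_re h1
  have e1 : ∀ n : ℤ, (starRingEnd ℂ (fcr w 1 n) * fcr w 1 n).re = ‖fcr w 1 n‖ ^ 2 := by
    intro n
    rw [mul_comm, Complex.mul_conj, Complex.ofReal_re, Complex.normSq_eq_norm_sq]
  simp only [e1] at h3
  have hcw : Continuous (fun θ : ℝ => w (exp (θ * I))) := by fun_prop
  have e2 : ((2 * Real.pi)⁻¹ * ∫ x in (-Real.pi)..Real.pi, G (x : AC) *
      starRingEnd ℂ (G (x : AC)) : ℂ).re =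
      (2 * Real.pi)⁻¹ * ∫ θ in (-Real.pi)..Real.pi, ‖w (exp (θ * I))‖ ^ 2 := by
    have e3 : ∀ x : ℝ, G (x : AC) * starRingEnd ℂ (G (x : AC)) =
        ((‖w (exp (x * I))‖ ^ 2 : ℝ) : ℂ) := by
      intro x
      rw [hGx, Complex.mul_conj, Complex.normSq_eq_norm_sq]
    simp only [e3]
    rw [intervalIntegral.integral_ofReal]
    rw [← Complex.ofReal_mul, Complex.ofReal_re]
  rw [e2] at h3
  have hpi : (2 * Real.pi) ≠ 0 := by positivity
  have hI1 : ∫ θ in (-Real.pi)..Real.pi, ‖w (exp (θ * I))‖ ^ 2 =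
      2 * Real.pi * ∑' n : ℤ, ‖fcr w 1 n‖ ^ 2 := by
    rw [h3.tsum_eq, ← mul_assoc, mul_inv_cancel₀ hpi, one_mul]
  -- second series
  have h4 := Complex.hasSum_re h2
  have e4 : ((2 * Real.pi)⁻¹ * ∫ x in (-Real.pi)..Real.pi, (G * fourier (k : ℤ) : C(AC, ℂ)) (x : AC) *
      starRingEnd ℂ (G (x : AC)) : ℂ).re =
      (2 * Real.pi)⁻¹ * ∫ θ in (-Real.pi)..Real.pi, ‖w (exp (θ * I))‖ ^ 2 * Real.cos (k * θ) := by
    have e5 : ∀ x : ℝ, (G * fourier (k : ℤ) : C(AC, ℂ)) (x : AC) * starRingEnd ℂ (G (x : AC)) =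
        ((‖w (exp (x * I))‖ ^ 2 : ℝ) : ℂ) * exp (k * x * I) := by
      intro x
      rw [ContinuousMap.mul_apply, hGx, fourier_exp, mul_right_comm, Complex.mul_conj,
        Complex.normSq_eq_norm_sq]
      push_cast
      rfl
    simp only [e5]
    rw [Complex.re_ofReal_mul]
    congr 1
    have hint : IntervalIntegrable (fun x : ℝ => ((‖w (exp (x * I))‖ ^ 2 : ℝ) : ℂ) *
        exp (k * x * I)) volume (-Real.pi) Real.pi :=
      Continuous.intervalIntegrable (by fun_prop) _ _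
    have h5 := reCLM.intervalIntegral_comp_comm hint
    refine Eq.trans h5.symm ?_
    congr 1
    ext x
    rw [Complex.reCLM_apply, Complex.re_ofReal_mul]
    congr 1
    have : (k * x * I : ℂ) = ((k * x : ℝ) : ℂ) * I := by push_cast; ring
    rw [this, Complex.exp_ofReal_mul_I_re]
  rw [e4] at h4
  have h6 : HasSum (fun n : ℤ => (fcr w 1 n * starRingEnd ℂ (fcr w 1 (n + k))).re)
      ((2 * Real.pi)⁻¹ * ∫ θ in (-Real.pi)..Real.pi, ‖w (exp (θ * I))‖ ^ 2 *
        Real.cos (k * θ)) := by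
    rw [← (Equiv.addRight (k : ℤ)).hasSum_iff] at h4
    convert h4 using 1
    ext n
    simp only [Function.comp_apply, Equiv.coe_addRight, add_sub_cancel_right]
    rw [mul_comm]
  have hI2 : ∫ θ in (-Real.pi)..Real.pi, ‖w (exp (θ * I))‖ ^ 2 * Real.cos (k * θ) =
      2 * Real.pi * ∑' n : ℤ, (fcr w 1 n * starRingEnd ℂ (fcr w 1 (n + k))).re := by
    rw [h6.tsum_eq, ← mul_assoc, mul_inv_cancel₀ hpi, one_mul]
  refine ⟨h3.summable, ?_⟩
  have e6 : ∀ θ : ℝ, ‖w (exp (θ * I))‖ ^ 2 * (1 + b ^ 2 + 2 * b * Real.cos (k * θ)) =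
      (1 + b ^ 2) * ‖w (exp (θ * I))‖ ^ 2 +
        2 * b * (‖w (exp (θ * I))‖ ^ 2 * Real.cos (k * θ)) := fun θ => by ring
  simp only [e6]
  rw [intervalIntegral.integral_add (Continuous.intervalIntegrable (by fun_prop) _ _)
    (Continuous.intervalIntegrable (by fun_prop) _ _), intervalIntegral.integral_const_mul,
    intervalIntegral.integral_const_mul, hI1, hI2]
  ring

end Pool.Agent.Helper45.Stek
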