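import Pool.Agent.Helper45.Stek.PE

open MeasureTheory Set Complex Metric
open scoped ContDiff Topology ENNReal

namespace Pool.Agent.Helper45.Stek

/-- The set in the definition of `Rad`. -/
def rs (Ω : Set ℂ) (θ : ℝ) : Set ℝ := {r : ℝ | r = 0 ∨ (0 < r ∧ (r : ℂ) * exp (θ * I) ∈ Ω)}

theorem rs_bdd {Ω : Set ℂ} (hb : Bornology.IsBounded Ω) (θ : ℝ) : BddAbove (rs Ω θ) := by
  obtain ⟨M, hM⟩ := hb.exists_norm_le
  refine ⟨max M 0, ?_⟩
  rintro r (rfl | ⟨h0, h1⟩)
  · exact le_max_right _ _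
  · have h2 := hM _ h1
    rw [norm_mul, Complex.norm_exp_ofReal_mul_I, mul_one, Complex.norm_real,
      Real.norm_of_nonneg h0.le] at h2
    exact h2.trans (le_max_left _ _)

theorem rs_zero (Ω : Set ℂ) (θ : ℝ) : (0 : ℝ) ∈ rs Ω θ := Or.inl rfl

theorem Rad_nonneg {Ω : Set ℂ} (hb : Bornology.IsBounded Ω) (θ : ℝ) : 0 ≤ Rad Ω θ :=
  le_csSup (rs_bdd hb θ) (rs_zero Ω θ)

theorem le_Rad {Ω : Set ℂ} (hb : Bornology.IsBounded Ω) {θ r : ℝ} (hr : 0 < r)
    (h : (r : ℂ) * exp (θ * I) ∈ Ω) : r ≤ Rad Ω θ :=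
  le_csSup (rs_bdd hb θ) (Or.inr ⟨hr, h⟩)

theorem lt_Rad {Ω : Set ℂ} (hb : Bornology.IsBounded Ω) {θ c : ℝ} (hc : 0 ≤ c)
    (h : c < Rad Ω θ) : ∃ r : ℝ, c < r ∧ (r : ℂ) * exp (θ * I) ∈ Ω := by
  obtain ⟨r, hr, hcr⟩ := (lt_csSup_iff (rs_bdd hb θ) ⟨0, rs_zero Ω θ⟩).mp h
  rcases hr with rfl | ⟨h0, h1⟩
  · exact absurd hcr (not_lt.mpr hc)
  · exact ⟨r, hcr, h1⟩

theorem Rad_meas {Ω : Set ℂ} (ho : IsOpen Ω) (hb : Bornology.IsBounded Ω) :
    Measurable (Rad Ω) := by
  apply measurable_of_Ioi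
  intro c
  by_cases hc : 0 ≤ c
  · have h1 : Rad Ω ⁻¹' Ioi c = ⋃ r ∈ Ioi c, {θ : ℝ | (r : ℂ) * exp (θ * I) ∈ Ω} := by
      ext θ
      simp only [mem_preimage, mem_Ioi, mem_iUnion, mem_ofPred_eq, exists_prop]
      constructor
      · intro h
        exact lt_Rad hb hc h
      · rintro ⟨r, hcr, hr⟩
        exact lt_of_lt_of_le hcr (le_Rad hb (lt_of_le_of_lt hc hcr) hr)
    rw [h1]
    apply IsOpen.measurableSet
    apply isOpen_biUnion
    intro r _
    exact ho.preimage (f := fun θ : ℝ => (r : ℂ) * exp (θ * I)) (by fun_prop)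
  · have h1 : Rad Ω ⁻¹' Ioi c = univ := by
      ext θ
      simp only [mem_preimage, mem_Ioi, mem_univ, iff_true]
      exact lt_of_lt_of_le (not_le.mp hc) (Rad_nonneg hb θ)
    rw [h1]
    exact MeasurableSet.univ

theorem Rad_frontier {Ω : Set ℂ} (ho : IsOpen Ω) (hb : Bornology.IsBounded Ω) (θ : ℝ)
    (h : 0 < Rad Ω θ) : (Rad Ω θ : ℂ) * exp (θ * I) ∈ frontier Ω := by
  set R := Rad Ω θ with hR
  rw [ho.frontier_eq]
  constructor
  · rw [Metric.mem_closure_iff]
    intro ε hε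
    obtain ⟨r, hr, hrΩ⟩ := lt_Rad hb (le_max_right (R - ε) 0) (max_lt (by linarith) h)
    have hr0 : 0 < r := lt_of_le_of_lt (le_max_right _ _) hr
    have hrR : r ≤ R := le_Rad hb hr0 hrΩ
    have hrε : R - ε < r := lt_of_le_of_lt (le_max_left _ _) hr
    refine ⟨_, hrΩ, ?_⟩
    rw [dist_eq_norm, ← sub_mul, norm_mul, Complex.norm_exp_ofReal_mul_I, mul_one,
      ← Complex.ofReal_sub, Complex.norm_real, Real.norm_of_nonneg (by linarith)]
    linarith
  · intro hmem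
    have hop : IsOpen ((fun r : ℝ => (r : ℂ) * exp (θ * I)) ⁻¹' Ω) :=
      ho.preimage (by fun_prop)
    obtain ⟨ε, hε, hball⟩ := Metric.isOpen_iff.mp hop R hmem
    have h1 : R + ε / 2 ∈ ball R ε := by
      rw [mem_ball, Real.dist_eq]
      rw [add_sub_cancel_left, abs_of_pos (by linarith)]
      linarith
    have h2 := le_Rad hb (by linarith) (hball h1)
    linarith

theorem ra_int {Ω : Set ℂ} (ho : IsOpen Ω) (hb : Bornology.IsBounded Ω) (j : ℕ) :
    ENNReal.ofReal (2 * j + 1) * ∫⁻ z in Ω, ENNReal.ofReal (‖z‖ ^ (2 * j) / ‖z‖) ≤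
    ∫⁻ θ in Ioo (-Real.pi) Real.pi, ENNReal.ofReal (Rad Ω θ ^ (2 * j + 1)) := by
  set g : ℂ → ℝ≥0∞ := fun z => ENNReal.ofReal (‖z‖ ^ (2 * j) / ‖z‖) with hg
  have hgm : Measurable g := by
    rw [hg]
    fun_prop
  have hgi : Measurable (Ω.indicator g) := hgm.indicator ho.measurableSet
  rw [← lintegral_indicator ho.measurableSet, ← Complex.lintegral_comp_polarCoord_symm]
  have hm : Measurable (fun p : ℝ × ℝ => ENNReal.ofReal p.1 •
      Ω.indicator g (Complex.polarCoord.symm p)) := by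
    apply Measurable.mul (by fun_prop)
    apply hgi.comp
    have : (fun p : ℝ × ℝ => Complex.polarCoord.symm p) = fun p : ℝ × ℝ => (p.1 : ℂ) * exp (p.2 * I) :=
      funext polar_symm_eq
    change Measurable (fun p : ℝ × ℝ => Complex.polarCoord.symm p)
    rw [this]
    fun_prop
  have h1 : ∫⁻ p in polarCoord.target, ENNReal.ofReal p.1 •
      Ω.indicator g (Complex.polarCoord.symm p) =
      ∫⁻ θ in Ioo (-Real.pi) Real.pi, ∫⁻ r in Ioi (0 : ℝ), ENNReal.ofReal r •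
        Ω.indicator g (Complex.polarCoord.symm (r, θ)) := by
    rw [polarCoord_target, Measure.volume_eq_prod, ← Measure.prod_restrict]
    exact lintegral_prod_symm _ hm.aemeasurable
  rw [h1, ← lintegral_const_mul' _ _ ENNReal.ofReal_ne_top]
  apply lintegral_mono
  intro θ
  simp only
  have hR0 := Rad_nonneg hb θ
  set R := Rad Ω θ with hR
  have h2 : ∫⁻ r in Ioi (0 : ℝ), ENNReal.ofReal r • Ω.indicator g (Complex.polarCoord.symm (r, θ)) ≤
      ∫⁻ r in Ioc (0 : ℝ) R, ENNReal.ofReal (r ^ (2 * j)) := by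
    rw [← lintegral_indicator measurableSet_Ioi, ← lintegral_indicator measurableSet_Ioc]
    apply lintegral_mono
    intro r
    by_cases hr : 0 < r
    · rw [indicator_of_mem (mem_Ioi.mpr hr), polar_symm_eq]
      simp only
      by_cases hmem : (r : ℂ) * exp (θ * I) ∈ Ω
      · rw [indicator_of_mem hmem, indicator_of_mem (show r ∈ Ioc 0 R from ⟨hr, le_Rad hb hr hmem⟩), hg]
        simp only
        rw [smul_eq_mul, ← ENNReal.ofReal_mul hr.le, norm_mul, Complex.norm_exp_ofReal_mul_I,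
          mul_one, Complex.norm_real, Real.norm_of_nonneg hr.le, mul_div_cancel₀ _ hr.ne']
      · rw [indicator_of_notMem hmem, smul_zero]
        exact bot_le
    · rw [indicator_of_notMem (show r ∉ Ioi (0 : ℝ) from hr)]
      exact bot_le
  have h3 : ∫⁻ r in Ioc (0 : ℝ) R, ENNReal.ofReal (r ^ (2 * j)) =
      ENNReal.ofReal (R ^ (2 * j + 1) / (2 * j + 1)) := by
    rw [← ofReal_integral_eq_lintegral_ofReal]
    · rw [← intervalIntegral.integral_of_le hR0, integral_pow]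
      congr 1
      rw [zero_pow (by omega)]
      push_cast
      ring
    · exact (Continuous.integrableOn_Icc (by fun_prop)).mono_set Ioc_subset_Icc_self
    · rw [Filter.EventuallyLE, ae_restrict_iff' measurableSet_Ioc]
      exact Filter.Eventually.of_forall (fun r hr => pow_nonneg hr.1.le _)
  calc ENNReal.ofReal (2 * j + 1) * ∫⁻ r in Ioi (0 : ℝ), ENNReal.ofReal r •
        Ω.indicator g (Complex.polarCoord.symm (r, θ))
      ≤ ENNReal.ofReal (2 * j + 1) * ENNReal.ofReal (R ^ (2 * j + 1) / (2 * j + 1)) := by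
        gcongr
        exact h2.trans h3.le
    _ = ENNReal.ofReal (R ^ (2 * j + 1)) := by
        rw [← ENNReal.ofReal_mul (by positivity)]
        congr 1
        field_simp

theorem ra_thm : S_RA := fun _ ho hb =>
  ⟨Rad_meas ho hb, Rad_nonneg hb, Rad_frontier ho hb, ra_int ho hb⟩

end Pool.Agent.Helper45.Stek
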