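import Pool.Agent.Helper45.Stek.Goals

open MeasureTheory Set Complex Metric
open scoped ContDiff Topology ENNReal

namespace Pool.Agent.Helper45.Stek

theorem norm_exp_sub (a b : ℝ) : ‖exp (a * I) - exp (b * I)‖ = 2 * |Real.sin ((a - b) / 2)| := by
  have h1 : ‖exp (a * I) - exp (b * I)‖ ^ 2 = (2 * |Real.sin ((a - b) / 2)|) ^ 2 := by
    rw [Complex.sq_norm, Complex.normSq_apply, Complex.sub_re, Complex.sub_im,
      Complex.exp_ofReal_mul_I_re, Complex.exp_ofReal_mul_I_re, Complex.exp_ofReal_mul_I_im,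
      Complex.exp_ofReal_mul_I_im, mul_pow, sq_abs, Real.sin_sq_eq_half_sub]
    have h2 : 2 * ((a - b) / 2) = a - b := by ring
    rw [h2, Real.cos_sub]
    have h3 := Real.sin_sq_add_cos_sq a
    have h4 := Real.sin_sq_add_cos_sq b
    nlinarith [h3, h4]
  have h2 : 0 ≤ 2 * |Real.sin ((a - b) / 2)| := by positivity
  exact (pow_left_inj₀ (norm_nonneg _) h2 (by norm_num)).mp h1

theorem arc_chord (ε : ℝ) (hε : 0 < ε) (a b : ℝ) (h1 : |a - b| ≤ 1) (h2 : |a - b| ≤ ε) :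
    |a - b| ≤ (1 + ε) * ‖exp (a * I) - exp (b * I)‖ := by
  rw [norm_exp_sub]
  set t := |a - b| with ht
  have ht0 : 0 ≤ t := abs_nonneg _
  have hs : |Real.sin ((a - b) / 2)| = Real.sin (t / 2) := by
    rcases le_total 0 (a - b) with h | h
    · rw [ht, abs_of_nonneg h, abs_of_nonneg]
      apply Real.sin_nonneg_of_nonneg_of_le_pi (by linarith)
      rw [ht, abs_of_nonneg h] at h1
      linarith [Real.pi_gt_three]
    · rw [ht, abs_of_nonpos h]
      have h3 : (a - b) / 2 = -(-(a - b) / 2) := by ring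
      rw [h3, Real.sin_neg, abs_neg, abs_of_nonneg]
      apply Real.sin_nonneg_of_nonneg_of_le_pi (by linarith)
      rw [ht, abs_of_nonpos h] at h1
      linarith [Real.pi_gt_three]
  rw [hs]
  rcases eq_or_lt_of_le ht0 with h | h
  · rw [← h]
    simp
  · have h3 := Real.sin_gt_sub_cube (show 0 < t / 2 by linarith)
    have h4 : t * (1 - t ^ 2 / 16) ≤ 2 * Real.sin (t / 2) := by
      have h8 : 0 ≤ t ^ 3 := by positivity
      nlinarith [h3, h8]
    have h5 : 1 ≤ (1 + ε) * (1 - t ^ 2 / 16) := by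
      have h6 : t ^ 2 ≤ ε := by nlinarith
      have h7 : t ^ 2 ≤ 1 := by nlinarith
      nlinarith [mul_nonneg hε.le (sub_nonneg.mpr h7), sq_nonneg t]
    calc t = t * 1 := (mul_one t).symm
      _ ≤ t * ((1 + ε) * (1 - t ^ 2 / 16)) := mul_le_mul_of_nonneg_left h5 ht0
      _ = (1 + ε) * (t * (1 - t ^ 2 / 16)) := by ring
      _ ≤ (1 + ε) * (2 * Real.sin (t / 2)) := mul_le_mul_of_nonneg_left h4 (by linarith)

theorem radial_contract (q R R' a b : ℝ) (hq : 0 < q) (hR : q ≤ R) (hR' : q ≤ R') :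
    q * ‖exp (a * I) - exp (b * I)‖ ≤ ‖(R : ℂ) * exp (a * I) - R' * exp (b * I)‖ := by
  apply le_of_sq_le_sq _ (norm_nonneg _)
  rw [mul_pow, Complex.sq_norm, Complex.sq_norm, Complex.normSq_apply, Complex.normSq_apply]
  simp only [Complex.sub_re, Complex.sub_im, Complex.re_ofReal_mul, Complex.im_ofReal_mul,
    Complex.exp_ofReal_mul_I_re, Complex.exp_ofReal_mul_I_im]
  have h3 := Real.sin_sq_add_cos_sq a
  have h4 := Real.sin_sq_add_cos_sq b
  set ca := Real.cos a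
  set cb := Real.cos b
  set sa := Real.sin a
  set sb := Real.sin b
  have h5 : (R * ca - R' * cb) * (R * ca - R' * cb) + (R * sa - R' * sb) * (R * sa - R' * sb) =
      (R - R') ^ 2 + R * R' * ((ca - cb) * (ca - cb) + (sa - sb) * (sa - sb)) := by
    linear_combination (R ^ 2 - R * R') * h3 + (R' ^ 2 - R * R') * h4
  rw [h5]
  have h6 : q ^ 2 ≤ R * R' := by nlinarith
  have h7 : 0 ≤ (ca - cb) * (ca - cb) + (sa - sb) * (sa - sb) := by
    have := mul_self_nonneg (ca - cb)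
    have := mul_self_nonneg (sa - sb)
    linarith
  nlinarith [mul_le_mul_of_nonneg_right h6 h7, sq_nonneg (R - R')]

theorem rc : S_RC := by
  intro ε hε
  refine ⟨min 1 ε, by positivity, ?_⟩
  intro E R q A hE hq hR hA
  set Φ : ℝ → ℂ := fun θ => (R θ : ℂ) * exp (θ * I) with hΦ
  have key : ∀ θ ∈ E, ∀ θ' ∈ E, |θ - θ'| ≤ (1 + ε) / q * ‖Φ θ - Φ θ'‖ := by
    intro θ hθ θ' hθ'
    have h0 := hE θ hθ θ' hθ'
    have h1 := arc_chord ε hε θ θ' (h0.trans (min_le_left _ _)) (h0.trans (min_le_right _ _))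
    have h2 := radial_contract q (R θ) (R θ') θ θ' hq (hR θ hθ) (hR θ' hθ')
    calc |θ - θ'| ≤ (1 + ε) * ‖exp (θ * I) - exp (θ' * I)‖ := h1
      _ = (1 + ε) / q * (q * ‖exp (θ * I) - exp (θ' * I)‖) := by field_simp
      _ ≤ (1 + ε) / q * ‖Φ θ - Φ θ'‖ := mul_le_mul_of_nonneg_left h2 (by positivity)
  have hinj : InjOn Φ E := by
    intro θ hθ θ' hθ' h
    have h1 := key θ hθ θ' hθ'
    rw [h, sub_self, norm_zero, mul_zero] at h1
    exact sub_eq_zero.mp (abs_nonpos_iff.mp h1)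
  set f := Function.invFunOn Φ E with hf
  have hleft : ∀ θ ∈ E, f (Φ θ) = θ := fun θ hθ => hinj.leftInvOn_invFunOn hθ
  have himg : f '' (Φ '' E) = E := by
    ext θ
    constructor
    · rintro ⟨_, ⟨θ', hθ', rfl⟩, rfl⟩
      rw [hleft θ' hθ']
      exact hθ'
    · intro hθ
      exact ⟨Φ θ, ⟨θ, hθ, rfl⟩, hleft θ hθ⟩
  have hlip : LipschitzOnWith (Real.toNNReal ((1 + ε) / q)) f (Φ '' E) := by
    apply LipschitzOnWith.of_dist_le_mul
    rintro _ ⟨θ, hθ, rfl⟩ _ ⟨θ', hθ', rfl⟩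
    rw [hleft θ hθ, hleft θ' hθ', Real.dist_eq, dist_eq_norm, Real.coe_toNNReal _ (by positivity)]
    exact key θ hθ θ' hθ'
  have h1 := hlip.hausdorffMeasure_image_le (d := 1) zero_le_one
  rw [himg, hausdorffMeasure_real, ENNReal.rpow_one] at h1
  have h2 : (Measure.hausdorffMeasure 1 : Measure ℂ) (Φ '' E) ≤
      (Measure.hausdorffMeasure 1 : Measure ℂ) A := by
    apply measure_mono
    rintro _ ⟨θ, hθ, rfl⟩
    exact hA θ hθ
  calc ENNReal.ofReal q * volume E ≤ ENNReal.ofReal q *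
        (ENNReal.ofReal ((1 + ε) / q) * (Measure.hausdorffMeasure 1 : Measure ℂ) A) := by
          gcongr
          exact h1.trans (mul_le_mul_right h2 _)
    _ = ENNReal.ofReal (1 + ε) * (Measure.hausdorffMeasure 1 : Measure ℂ) A := by
        rw [← mul_assoc, ← ENNReal.ofReal_mul hq.le]
        congr 2
        field_simp

end Pool.Agent.Helper45.Stek
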