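import Pool.Agent.Helper45.Stek.RA
import Pool.Agent.Helper45.Stek.RC

open MeasureTheory Set Complex Metric
open scoped ContDiff Topology ENNReal

namespace Pool.Agent.Helper45.Stek

theorem arg_ray {r θ : ℝ} (hr : 0 < r) (hθ : θ ∈ Ioo (-Real.pi) Real.pi) :
    Complex.arg ((r : ℂ) * exp (θ * I)) = θ := by
  rw [Complex.exp_mul_I, Complex.arg_mul_cos_add_sin_mul_I hr ⟨hθ.1, hθ.2.le⟩]

/-- The label of a modulus and an angle. -/
noncomputable def lab (κ d : ℝ) (p : ℝ × ℝ) : ℤ × ℤ := (⌊Real.logb κ p.1⌋, ⌊p.2 / d⌋)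

theorem lab_meas (κ d : ℝ) : Measurable (lab κ d) := by
  unfold lab Real.logb
  apply Measurable.prodMk
  · exact ((Real.measurable_log.comp measurable_fst).div_const _).floor
  · exact (measurable_snd.div_const _).floor

theorem rh_eps {Ω : Set ℂ} (ho : IsOpen Ω) (hb : Bornology.IsBounded Ω) {C : Set ℂ}
    (hC : MeasurableSet C) {ε : ℝ} (hε : 0 < ε) :
    ∫⁻ θ in {θ | θ ∈ Ioo (-Real.pi) Real.pi ∧ 0 < Rad Ω θ ∧ (Rad Ω θ : ℂ) * exp (θ * I) ∈ C},
      ENNReal.ofReal (Rad Ω θ) ≤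
    ENNReal.ofReal (1 + ε) * (ENNReal.ofReal (1 + ε) *
      (Measure.hausdorffMeasure 1 : Measure ℂ) (frontier Ω ∩ C)) := by
  obtain ⟨δ, hδ, hrc⟩ := rc ε hε
  set κ : ℝ := 1 + ε with hκ
  have hκ1 : 1 < κ := by linarith
  have hκ0 : 0 < κ := by linarith
  set T : Set ℝ := {θ | θ ∈ Ioo (-Real.pi) Real.pi ∧ 0 < Rad Ω θ ∧
    (Rad Ω θ : ℂ) * exp (θ * I) ∈ C} with hT
  have hRm := Rad_meas ho hb
  have hTm : MeasurableSet T := by
    have h1 : Measurable (fun θ : ℝ => (Rad Ω θ : ℂ) * exp (θ * I)) := by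
      apply Measurable.mul
      · exact Complex.measurable_ofReal.comp hRm
      · fun_prop
    exact measurableSet_Ioo.inter ((measurableSet_lt measurable_const hRm).inter (h1 hC))
  set L : ℝ → ℤ × ℤ := fun θ => lab κ δ (Rad Ω θ, θ) with hL
  have hLm : Measurable L := (lab_meas κ δ).comp (hRm.prodMk measurable_id)
  set M : ℂ → ℤ × ℤ := fun z => lab κ δ (‖z‖, Complex.arg z) with hM
  have hMm : Measurable M := (lab_meas κ δ).comp (measurable_norm.prodMk Complex.measurable_arg)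
  have hTU : T = ⋃ p : ℤ × ℤ, (T ∩ L ⁻¹' {p}) := by
    ext θ
    simp
  have hAU : ∀ S : Set ℂ, ⋃ p : ℤ × ℤ, (S ∩ M ⁻¹' {p}) = S := by
    intro S
    ext θ
    simp
  have hfr : MeasurableSet (frontier Ω ∩ C) := isClosed_frontier.measurableSet.inter hC
  -- one cell
  have hcell : ∀ p : ℤ × ℤ, ∫⁻ θ in T ∩ L ⁻¹' {p}, ENNReal.ofReal (Rad Ω θ) ≤
      ENNReal.ofReal κ * (ENNReal.ofReal κ *
        (Measure.hausdorffMeasure 1 : Measure ℂ) (frontier Ω ∩ C ∩ M ⁻¹' {p})) := by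
    rintro ⟨i, l⟩
    set q : ℝ := κ ^ (i : ℝ) with hq
    have hq0 : 0 < q := Real.rpow_pos_of_pos hκ0 _
    have hlabE : ∀ θ ∈ T ∩ L ⁻¹' {(i, l)}, q ≤ Rad Ω θ ∧ Rad Ω θ ≤ κ * q ∧
        l * δ ≤ θ ∧ θ < (l + 1) * δ := by
      rintro θ ⟨hθT, hθL⟩
      have h1 : lab κ δ (Rad Ω θ, θ) = (i, l) := hθL
      simp only [lab, Prod.mk.injEq] at h1
      obtain ⟨h1, h2⟩ := h1
      rw [Int.floor_eq_iff] at h1 h2
      have hR0 : 0 < Rad Ω θ := hθT.2.1
      refine ⟨?_, ?_, ?_, ?_⟩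
      · exact (Real.le_logb_iff_rpow_le hκ1 hR0).mp h1.1
      · have h3 := (Real.logb_lt_iff_lt_rpow hκ1 hR0).mp h1.2
        rw [Real.rpow_add hκ0, Real.rpow_one] at h3
        linarith
      · have := h2.1
        rwa [le_div_iff₀ hδ] at this
      · have := h2.2
        rwa [div_lt_iff₀ hδ] at this
    have h1 : ∫⁻ θ in T ∩ L ⁻¹' {(i, l)}, ENNReal.ofReal (Rad Ω θ) ≤
        ENNReal.ofReal (κ * q) * volume (T ∩ L ⁻¹' {(i, l)}) := by
      rw [← setLIntegral_const]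
      apply setLIntegral_mono' (hTm.inter (hLm (measurableSet_singleton _)))
      intro θ hθ
      exact ENNReal.ofReal_le_ofReal (hlabE θ hθ).2.1
    have h2 := hrc (T ∩ L ⁻¹' {(i, l)}) (Rad Ω) q (frontier Ω ∩ C ∩ M ⁻¹' {(i, l)})
      (by
        intro θ hθ θ' hθ'
        have a1 := hlabE θ hθ
        have a2 := hlabE θ' hθ'
        rw [abs_le]
        constructor <;> nlinarith [a1.2.2.1, a1.2.2.2, a2.2.2.1, a2.2.2.2])
      hq0 (fun θ hθ => (hlabE θ hθ).1)
      (by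
        rintro θ ⟨hθT, hθL⟩
        refine ⟨⟨Rad_frontier ho hb θ hθT.2.1, hθT.2.2⟩, ?_⟩
        have h3 : L θ = (i, l) := hθL
        have h4 : M ((Rad Ω θ : ℂ) * exp (θ * I)) = L θ := by
          simp only [hM, hL]
          rw [arg_ray hθT.2.1 hθT.1, norm_mul, Complex.norm_exp_ofReal_mul_I, mul_one,
            Complex.norm_real, Real.norm_of_nonneg hθT.2.1.le]
        exact h4.trans h3)
    refine h1.trans ?_
    rw [ENNReal.ofReal_mul hκ0.le, mul_assoc]
    gcongr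
  calc ∫⁻ θ in T, ENNReal.ofReal (Rad Ω θ)
      = ∑' p : ℤ × ℤ, ∫⁻ θ in T ∩ L ⁻¹' {p}, ENNReal.ofReal (Rad Ω θ) := by
        conv_lhs => rw [hTU]
        rw [lintegral_iUnion]
        · intro p
          exact hTm.inter (hLm (measurableSet_singleton _))
        · intro p p' hpp
          apply Disjoint.inter_left'
          apply Disjoint.inter_right'
          exact Disjoint.preimage _ (disjoint_singleton.mpr hpp)
    _ ≤ ∑' p : ℤ × ℤ, ENNReal.ofReal κ * (ENNReal.ofReal κ *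
        (Measure.hausdorffMeasure 1 : Measure ℂ) (frontier Ω ∩ C ∩ M ⁻¹' {p})) :=
        ENNReal.tsum_le_tsum hcell
    _ = ENNReal.ofReal κ * (ENNReal.ofReal κ * ∑' p : ℤ × ℤ,
        (Measure.hausdorffMeasure 1 : Measure ℂ) (frontier Ω ∩ C ∩ M ⁻¹' {p})) := by
        rw [ENNReal.tsum_mul_left, ENNReal.tsum_mul_left]
    _ = ENNReal.ofReal κ * (ENNReal.ofReal κ *
        (Measure.hausdorffMeasure 1 : Measure ℂ) (frontier Ω ∩ C)) := by
        rw [← measure_iUnion, hAU]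
        · intro p p' hpp
          apply Disjoint.inter_left'
          apply Disjoint.inter_right'
          exact Disjoint.preimage _ (disjoint_singleton.mpr hpp)
        · intro p
          exact hfr.inter (hMm (measurableSet_singleton _))

theorem rh : S_RH := by
  intro Ω ho hb C hC
  set Y := (Measure.hausdorffMeasure 1 : Measure ℂ) (frontier Ω ∩ C) with hY
  have h1 : Filter.Tendsto (fun ε : ℝ => ENNReal.ofReal (1 + ε) * (ENNReal.ofReal (1 + ε) * Y))
      (𝓝[>] 0) (𝓝 (1 * (1 * Y))) := by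
    have h2 : Filter.Tendsto (fun ε : ℝ => ENNReal.ofReal (1 + ε)) (𝓝[>] 0) (𝓝 1) := by
      have h3 : Filter.Tendsto (fun ε : ℝ => ENNReal.ofReal (1 + ε)) (𝓝 0) (𝓝 (ENNReal.ofReal (1 + 0))) :=
        (ENNReal.continuous_ofReal.comp (continuous_const.add continuous_id)).tendsto 0
      rw [add_zero, ENNReal.ofReal_one] at h3
      exact h3.mono_left nhdsWithin_le_nhds
    have h4 : Filter.Tendsto (fun ε : ℝ => ENNReal.ofReal (1 + ε) * Y) (𝓝[>] 0) (𝓝 (1 * Y)) :=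
      ENNReal.Tendsto.mul_const h2 (Or.inl one_ne_zero)
    have h5 : ∀ ε : ℝ, ENNReal.ofReal (1 + ε) * (ENNReal.ofReal (1 + ε) * Y) =
        (ENNReal.ofReal (1 + ε) * ENNReal.ofReal (1 + ε)) * Y := fun ε => by rw [mul_assoc]
    simp only [h5]
    rw [← mul_assoc]
    apply ENNReal.Tendsto.mul_const _ (Or.inl (by simp))
    exact ENNReal.Tendsto.mul h2 (Or.inl one_ne_zero) h2 (Or.inl one_ne_zero)
  rw [one_mul, one_mul] at h1
  apply ge_of_tendsto h1
  filter_upwards [self_mem_nhdsWithin] with ε hε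
  exact rh_eps ho hb hC hε

end Pool.Agent.Helper45.Stek
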