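import Pool.Agent.Helper45.Stek.Goals

open MeasureTheory Set Complex Metric
open scoped ContDiff Topology ENNReal

namespace Pool.Agent.Helper45.Stek

/-- The exponents of the test functions. -/
def ex (k : ℕ) (i : Fin (k + 1)) : ℤ := (i : ℤ) - ((k / 2 : ℕ) : ℤ)

theorem ex_inj (k : ℕ) : Function.Injective (ex k) := by
  intro i j h
  unfold ex at h
  apply Fin.ext
  omega

/-- The area of a nonempty bounded open set is positive. -/
theorem area_pos {Ω : Set ℂ} (ho : IsOpen Ω) (hn : Ω.Nonempty) (hb : Bornology.IsBounded Ω) :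
    0 < area Ω := by
  unfold area
  rw [ENNReal.toReal_pos_iff]
  exact ⟨ho.measure_pos volume hn, hb.measure_lt_top⟩

/-- The upper bound for a domain invariant under a rotation about `0`. -/
theorem ub0 (hFM : S_FM) (hOR : S_OR) (hHB : S_HB) (hEP : S_EP) (k : ℕ) (Ω : Set ℂ)
    (hΩ : LipDomain Ω) (w : ℂ) (hw : ‖w‖ = 1) (hwk : ∀ n : ℕ, 1 ≤ n → n ≤ k → w ^ n ≠ 1)
    (hrot : (fun z => w * z) '' Ω = Ω) :
    ((k + 1) / 2 : ℕ) / √(area Ω / Real.pi) ∈ bounds k Ω := by
  refine ⟨by positivity, fun i => hf (ex k i), ?_, ?_⟩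
  · intro i
    have h := (hEP {ex k i} (fun _ => 1)).1
    simpa using h
  intro c hc
  have hw0 : w ≠ 0 := by
    intro h
    rw [h, norm_zero] at hw
    exact zero_ne_one hw
  set F : Finset ℤ := Finset.univ.map ⟨ex k, ex_inj k⟩ with hF
  set d : ℤ → ℂ := fun n => if h : ∃ i, ex k i = n then c h.choose else 0 with hd
  have hdi : ∀ i, d (ex k i) = c i := by
    intro i
    have h : ∃ j, ex k j = ex k i := ⟨i, rfl⟩
    simp only [hd, dif_pos h]
    congr 1
    exact ex_inj k h.choose_spec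
  have hsum : (fun z => ∑ i, c i * hf (ex k i) z) = (fun z => ∑ n ∈ F, d n * hf n z) := by
    ext z
    rw [hF, Finset.sum_map]
    apply Finset.sum_congr rfl
    intro i _
    simp only [Function.Embedding.coeFn_mk, hdi]
  have hdist : ∀ n ∈ F, ∀ l ∈ F, n ≠ l → w ^ (n - l) ≠ 1 := by
    intro n hn l hl hnl
    rw [hF, Finset.mem_map] at hn hl
    obtain ⟨i, -, rfl⟩ := hn
    obtain ⟨j, -, rfl⟩ := hl
    simp only [Function.Embedding.coeFn_mk] at hnl ⊢
    have hi := i.2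
    have hj := j.2
    rcases lt_or_gt_of_ne hnl with h | h
    · have h1 : ex k i - ex k j = -(((ex k j - ex k i).toNat : ℕ) : ℤ) := by omega
      rw [h1, zpow_neg, zpow_natCast]
      have h2 := hwk (ex k j - ex k i).toNat (by omega) (by unfold ex; omega)
      intro h3
      exact h2 (inv_eq_one.mp h3)
    · have h1 : ex k i - ex k j = (((ex k i - ex k j).toNat : ℕ) : ℤ) := by omega
      rw [h1, zpow_natCast]
      exact hwk (ex k i - ex k j).toNat (by omega) (by unfold ex; omega)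
  obtain ⟨hE, hB⟩ := hOR Ω w F d hΩ.isOpen hΩ.bdd (hFM Ω hΩ) hw hrot hdist
  rw [hsum, hE, hB]
  have hpos : ∀ n : ℤ, 0 < bdry Ω (hf n) := fun n =>
    (hHB Ω hΩ.isOpen hΩ.conn.nonempty hΩ.bdd (hFM Ω hΩ) n).1
  have hle : ∀ n : ℤ, energy Ω (hf n) ≤ |(n : ℝ)| / √(area Ω / Real.pi) * bdry Ω (hf n) := fun n =>
    (hHB Ω hΩ.isOpen hΩ.conn.nonempty hΩ.bdd (hFM Ω hΩ) n).2
  constructor
  · obtain ⟨i, hi⟩ : ∃ i, c i ≠ 0 := by
      by_contra hcon
      push Not at hcon
      exact hc (funext hcon)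
    apply Finset.sum_pos'
    · intro n _
      have := (hpos n).le
      positivity
    · refine ⟨ex k i, ?_, ?_⟩
      · rw [hF, Finset.mem_map]
        exact ⟨i, Finset.mem_univ _, rfl⟩
      · rw [hdi]
        have h1 := hpos (ex k i)
        have h2 : 0 < ‖c i‖ := norm_pos_iff.mpr hi
        positivity
  · rw [Finset.mul_sum]
    apply Finset.sum_le_sum
    intro n hn
    have hnk : |(n : ℝ)| ≤ ((k + 1) / 2 : ℕ) := by
      rw [hF, Finset.mem_map] at hn
      obtain ⟨i, -, rfl⟩ := hn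
      have hi := i.2
      have h1 : |ex k i| ≤ (((k + 1) / 2 : ℕ) : ℤ) := by
        rw [abs_le]
        unfold ex
        constructor <;> omega
      simp only [Function.Embedding.coeFn_mk]
      have h2 : ((|ex k i| : ℤ) : ℝ) ≤ ((((k + 1) / 2 : ℕ) : ℤ) : ℝ) := Int.cast_le.mpr h1
      rw [Int.cast_abs, Int.cast_natCast] at h2
      exact h2
    calc ‖d n‖ ^ 2 * energy Ω (hf n) ≤
        ‖d n‖ ^ 2 * (|(n : ℝ)| / √(area Ω / Real.pi) * bdry Ω (hf n)) :=
          mul_le_mul_of_nonneg_left (hle n) (by positivity)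
      _ ≤ ‖d n‖ ^ 2 * (((k + 1) / 2 : ℕ) / √(area Ω / Real.pi) * bdry Ω (hf n)) := by
          apply mul_le_mul_of_nonneg_left _ (by positivity)
          apply mul_le_mul_of_nonneg_right _ (hpos n).le
          exact div_le_div_of_nonneg_right hnk (Real.sqrt_nonneg _)
      _ = _ := by ring

/-- The upper bound. -/
theorem ub (hFM : S_FM) (hTR : S_TR) (hOR : S_OR) (hHB : S_HB) (hEP : S_EP) : S_UB := by
  intro k Ω hΩ hsym
  obtain ⟨c, w, hw, hwk, hrot⟩ := hsym
  obtain ⟨hΩ', har, hbd, hrot'⟩ := hTR Ω c hΩ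
  have h0 := ub0 hFM hOR hHB hEP k _ hΩ' w hw hwk (hrot' w hrot)
  rw [har] at h0
  have h1 := hbd k h0
  have hst : steklov k Ω ≤ ((k + 1) / 2 : ℕ) / √(area Ω / Real.pi) := by
    apply csInf_le _ h1
    exact ⟨0, fun l hl => hl.1⟩
  have hA := area_pos hΩ.isOpen hΩ.conn.nonempty hΩ.bdd
  have hsA : 0 < √(area Ω) := Real.sqrt_pos.mpr hA
  have hsp : 0 < √Real.pi := Real.sqrt_pos.mpr Real.pi_pos
  calc steklov k Ω * √(area Ω) ≤ ((k + 1) / 2 : ℕ) / √(area Ω / Real.pi) * √(area Ω) :=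
        mul_le_mul_of_nonneg_right hst hsA.le
    _ = ((k + 1) / 2 : ℕ) * √Real.pi := by
        rw [Real.sqrt_div hA.le]
        field_simp

end Pool.Agent.Helper45.Stek
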